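import Pool.Agent.LI39.Dense

/-!
Accumulation of rational lines: a closed invariant set in which a vector of rational direction is
a limit of vectors of other directions contains a whole level set.
-/

namespace Pool.Agent.LI39

open Filter Topology

variable {W : Type*} [AddCommGroup W] [Module ℝ W] [TopologicalSpace W]

omit [AddCommGroup W] [Module ℝ W] in
lemma hyp_cont {B : W → W → ℝ} (hc : Continuous fun w => B w w) :
    Continuous fun v : ℝ × ℝ × W => hyp B v v := by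
  unfold hyp
  have h1 : Continuous fun v : ℝ × ℝ × W => B v.2.2 v.2.2 := hc.comp (by fun_prop)
  have h2 : Continuous fun v : ℝ × ℝ × W => v.1 * v.2.1 + v.2.1 * v.1 := by fun_prop
  exact h2.add h1

variable [ContinuousAdd W] [ContinuousSMul ℝ W] [FirstCountableTopology W]
variable {B : W → W → ℝ} {Λ : AddSubgroup W} {d : ℤ} {Z : Set (ℝ × ℝ × (ℝ × ℝ × W))}

lemma round_mul_tendsto {s N : ℝ} (hN : N ≠ 0) {ε : ℕ → ℝ} (h0 : ∀ k, ε k ≠ 0)
    (hε : Tendsto ε atTop (𝓝 0)) :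
    Tendsto (fun k => (N * round (s / (N * ε k)) : ℝ) * ε k) atTop (𝓝 s) := by
  have h1 : Tendsto (fun k => |N * ε k| / 2) atTop (𝓝 0) := by
    have h2 : Tendsto (fun k => |N * ε k| / 2) atTop (𝓝 (|N * 0| / 2)) :=
      ((hε.const_mul N).abs).div_const 2
    simpa using h2
  rw [tendsto_iff_dist_tendsto_zero]
  refine squeeze_zero (fun k => dist_nonneg) (fun k => ?_) h1
  rw [Real.dist_eq]
  have hne : N * ε k ≠ 0 := mul_ne_zero hN (h0 k)
  have e1 : (N * round (s / (N * ε k)) : ℝ) * ε k - s =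
      -((N * ε k) * (s / (N * ε k) - round (s / (N * ε k)))) := by
    have : (N * ε k) * (s / (N * ε k)) = s := by
      rw [mul_div_assoc']
      exact mul_div_cancel_left₀ s hne
    rw [mul_sub, this]
    ring
  rw [e1, abs_neg, abs_mul]
  have := abs_sub_round (s / (N * ε k))
  calc |N * ε k| * |s / (N * ε k) - round (s / (N * ε k))| ≤ |N * ε k| * (1 / 2) :=
        mul_le_mul_of_nonneg_left this (abs_nonneg _)
    _ = |N * ε k| / 2 := by ring

omit [FirstCountableTopology W] [ContinuousAdd W] [ContinuousSMul ℝ W] [TopologicalSpace W] in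
lemma mem_sect {a b : ℝ} {x : ℝ × ℝ × W} (ha : a ≠ 0) (hz : (a, b, x) ∈ Z) :
    a⁻¹ • x ∈ sect B Z a (hyp (hyp B) (a, b, x) (a, b, x)) := by
  have h1 : a • a⁻¹ • x = x := smul_inv_smul₀ ha x
  show (a, (hyp (hyp B) (a, b, x) (a, b, x) - hyp B (a • a⁻¹ • x) (a • a⁻¹ • x)) / (2 * a),
    a • a⁻¹ • x) ∈ Z
  rw [h1]
  convert hz using 3
  change (a * b + b * a + hyp B x x - hyp B x x) / (2 * a) = b
  field_simp
  ring

/-- Closed sets in a family over a parameter space. -/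
structure InvF {F : Type*} [TopologicalSpace F] (B : W → W → ℝ) (Λ : AddSubgroup W) (d : ℤ)
    (Z : Set (F × (ℝ × ℝ × (ℝ × ℝ × W)))) : Prop where
  closed : IsClosed Z
  inv : ∀ f : F, Inv B Λ d {x | (f, x) ∈ Z}

variable {F : Type*} [TopologicalSpace F] [FirstCountableTopology F]

lemma InvF.accum {Z : Set (F × (ℝ × ℝ × (ℝ × ℝ × W)))} (hL : Lat B Λ) (hZ : InvF B Λ d Z)
    (hd : d ≠ 0) {f0 : F} {a b p r : ℝ} {y : W} (ha : a ≠ 0)
    (hcl : ((f0, (a, b, (p, r, y))) : F × (ℝ × ℝ × (ℝ × ℝ × W))) ∈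
      closure {z | z ∈ Z ∧ z.2.1 ≠ 0 ∧ z.2.2.2.1 / z.2.1 ≠ p / a})
    (hp : ∃ q : ℚ, p / a = q) (hy : ∀ u ∈ Λ, ∃ q : ℚ, B y u / a = q)
    (w : ℝ × ℝ × (ℝ × ℝ × W))
    (hw : hyp (hyp B) w w = hyp (hyp B) (a, b, (p, r, y)) (a, b, (p, r, y))) : (f0, w) ∈ Z := by
  obtain ⟨zF, hzF, hlimF⟩ := mem_closure_iff_seq_limit.mp hcl
  set z : ℕ → ℝ × ℝ × (ℝ × ℝ × W) := fun k => (zF k).2 with hzdef
  have lf : Tendsto (fun k => (zF k).1) atTop (𝓝 f0) := (continuous_fst.tendsto _).comp hlimF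
  have hlim : Tendsto z atTop (𝓝 (a, b, (p, r, y))) := (continuous_snd.tendsto _).comp hlimF
  obtain ⟨u0, hu0, w0, hw0, h, hh, h00, h11, h01⟩ := hL.pair
  obtain ⟨q, hq⟩ := hp
  have hB := hL.bil
  have hN : ((q.den : ℤ) : ℝ) ≠ 0 := by exact_mod_cast q.den_ne_zero
  have hqN : p / a * (q.den : ℤ) = q.num := by
    rw [hq]
    exact_mod_cast Rat.mul_den_eq_num q
  have hzZ : ∀ k, z k ∈ {x | ((zF k).1, x) ∈ Z} := fun k => (hzF k).1
  have hza : ∀ k, (z k).1 ≠ 0 := fun k => (hzF k).2.1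
  -- limits of the coordinates
  have la : Tendsto (fun k => (z k).1) atTop (𝓝 a) :=
    (continuous_fst.tendsto _).comp hlim
  have lx : Tendsto (fun k => (z k).2.2) atTop (𝓝 (p, r, y)) :=
    ((by fun_prop : Continuous fun v : ℝ × ℝ × (ℝ × ℝ × W) => v.2.2).tendsto _).comp hlim
  have lp : Tendsto (fun k => (z k).2.2.1) atTop (𝓝 p) := (continuous_fst.tendsto _).comp lx
  have ly : Tendsto (fun k => (z k).2.2.2.2) atTop (𝓝 y) :=
    ((by fun_prop : Continuous fun v : ℝ × ℝ × W => v.2.2).tendsto _).comp lx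
  have lc : Tendsto (fun k => hyp (hyp B) (z k) (z k)) atTop
      (𝓝 (hyp (hyp B) (a, b, (p, r, y)) (a, b, (p, r, y)))) :=
    ((hyp_cont (hyp_cont hL.cont)).tendsto _).comp hlim
  set ε : ℕ → ℝ := fun k => (z k).2.2.1 / (z k).1 - p / a with hεdef
  have hε0 : ∀ k, ε k ≠ 0 := fun k => sub_ne_zero.mpr (hzF k).2.2
  have hεl : Tendsto ε atTop (𝓝 0) := by
    have h2 := (lp.div la ha).sub_const (p / a)
    rw [sub_self] at h2
    exact h2
  set m : ℕ → ℤ := fun k => round (√2 / (((q.den : ℤ) : ℝ) * ε k)) with hmdef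
  have hθ : Tendsto (fun k => (((q.den : ℤ) : ℝ) * (m k : ℝ)) * ε k) atTop (𝓝 (√2)) :=
    round_mul_tendsto hN hε0 hεl
  set g : ℕ → ℝ := fun k => (((z k).1)⁻¹ * (z k).2.2.2.1 +
    (((q.den : ℤ) * m k : ℤ) : ℝ) * B (((z k).1)⁻¹ • (z k).2.2.2.2) u0) / d with hgdef
  have hdR : (d : ℝ) ≠ 0 := by exact_mod_cast hd
  obtain ⟨φ, -, ψ, hψ, hφ⟩ := (isCompact_Icc (a := (0 : ℝ)) (b := 1)).tendsto_subseq
    (x := fun k => Int.fract (g k))
    (fun k => ⟨Int.fract_nonneg _, (Int.fract_lt_one _).le⟩)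
  -- the moved points
  set ζ : ℕ → ℝ × ℝ × W := fun k => ((z k).2.2.1 / (z k).1, d * Int.fract (g k),
    ((z k).1)⁻¹ • (z k).2.2.2.2 + (-((((q.den : ℤ) : ℝ) * (m k : ℝ)) * ε k)) • u0) with hζdef
  have hζ : ∀ k, ζ k ∈ sect B {x | ((zF k).1, x) ∈ Z} (z k).1 (hyp (hyp B) (z k) (z k)) := by
    intro k
    have hT := (hZ.inv (zF k).1).tor hL (hza k) (hyp (hyp B) (z k) (z k))
    have h1 : ((z k).1)⁻¹ • (z k).2.2 ∈
        sect B {x | ((zF k).1, x) ∈ Z} (z k).1 (hyp (hyp B) (z k) (z k)) :=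
      mem_sect (B := B) (hza k) (hzZ k)
    have h2 := hT.e _ h1 _ (int_smul_mem u0 hu0 ((q.den : ℤ) * m k))
    have h3 := hT.trans _ h2 0 (-⌊g k⌋) _ (int_smul_mem u0 hu0 (q.num * m k))
    convert h3 using 1
    refine Prod.ext ?_ (Prod.ext ?_ ?_)
    · simp only [ev, hζdef, Prod.smul_fst, smul_eq_mul]
      field_simp
      simp
    · simp only [ev, hζdef, Prod.smul_fst, Prod.smul_snd, smul_eq_mul, hB.smul_left,
        hB.smul_right, h00, Int.fract]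
      have : (d : ℝ) * g k = ((z k).1)⁻¹ * (z k).2.2.2.1 +
        (((q.den : ℤ) * m k : ℤ) : ℝ) * B (((z k).1)⁻¹ • (z k).2.2.2.2) u0 := by
        rw [hgdef]
        field_simp
      rw [mul_sub, this, hB.smul_left]
      push_cast
      ring
    · simp only [ev, hζdef, Prod.smul_fst, Prod.smul_snd, smul_eq_mul, hεdef]
      have e2 : ((q.num * m k : ℤ) : ℝ) = p / a * ((q.den : ℤ) : ℝ) * m k := by
        push_cast
        rw [← hqN]
        push_cast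
        ring
      rw [e2]
      push_cast
      rw [div_eq_inv_mul (z k).2.2.1]
      module
  have lζ : Tendsto (ζ ∘ ψ) atTop (𝓝 (p / a, d * φ, a⁻¹ • y + (-√2) • u0)) := by
    have t1 : Tendsto (fun k => (z (ψ k)).2.2.1 / (z (ψ k)).1) atTop (𝓝 (p / a)) :=
      (lp.div la ha).comp hψ.tendsto_atTop
    have t2 : Tendsto (fun k => (d : ℝ) * Int.fract (g (ψ k))) atTop (𝓝 (d * φ)) :=
      hφ.const_mul _
    have t3 : Tendsto (fun k => ((z (ψ k)).1)⁻¹ • (z (ψ k)).2.2.2.2 +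
        (-((((q.den : ℤ) : ℝ) * (m (ψ k) : ℝ)) * ε (ψ k))) • u0) atTop
        (𝓝 (a⁻¹ • y + (-√2) • u0)) := by
      have t4 := ((la.inv₀ ha).smul ly).comp hψ.tendsto_atTop
      have t5 := ((hθ.neg).smul_const u0).comp hψ.tendsto_atTop
      exact t4.add t5
    exact t1.prodMk_nhds (t2.prodMk_nhds t3)
  have laψ := la.comp hψ.tendsto_atTop
  have lcψ := lc.comp hψ.tendsto_atTop
  have lsm : Tendsto (fun k => (z (ψ k)).1 • ζ (ψ k)) atTop
      (𝓝 (a • ((p / a, d * φ, a⁻¹ • y + (-√2) • u0) : ℝ × ℝ × W))) := laψ.smul lζ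
  have lq : Tendsto (fun k => hyp B ((z (ψ k)).1 • ζ (ψ k)) ((z (ψ k)).1 • ζ (ψ k))) atTop
      (𝓝 (hyp B (a • ((p / a, d * φ, a⁻¹ • y + (-√2) • u0) : ℝ × ℝ × W))
        (a • ((p / a, d * φ, a⁻¹ • y + (-√2) • u0) : ℝ × ℝ × W)))) :=
    ((hyp_cont hL.cont).tendsto _).comp lsm
  have hmem : ((p / a, d * φ, a⁻¹ • y + (-√2) • u0) : ℝ × ℝ × W) ∈
      sect B {x | (f0, x) ∈ Z} a (hyp (hyp B) (a, b, (p, r, y)) (a, b, (p, r, y))) := by
    refine hZ.closed.mem_of_tendsto ((lf.comp hψ.tendsto_atTop).prodMk_nhds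
      (laψ.prodMk_nhds (((lcψ.sub lq).div (laψ.const_mul 2)
      (mul_ne_zero two_ne_zero ha)).prodMk_nhds lsm))) (Eventually.of_forall fun k => ?_)
    exact hζ (ψ k)
  have hirr : Irr B Λ ((p / a, d * φ, a⁻¹ • y + (-√2) • u0) : ℝ × ℝ × W) := by
    right; right
    refine ⟨w0, hw0, ?_⟩
    obtain ⟨q', hq'⟩ := hy w0 hw0
    show Irrational (B (a⁻¹ • y + (-√2) • u0) w0)
    rw [hB.add_left, hB.smul_left, hB.smul_left, h01]
    have e3 : a⁻¹ * B y w0 + -√2 * (h : ℝ) = (q' : ℝ) + √2 * ((-h : ℤ) : ℝ) := by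
      rw [← hq']
      push_cast
      ring
    rw [e3]
    exact (irrational_sqrt_two.mul_intCast (by simpa using hh)).ratCast_add q'
  have hT := (hZ.inv f0).tor hL ha (hyp (hyp B) (a, b, (p, r, y)) (a, b, (p, r, y)))
  refine (hZ.inv f0).full hL hd (a := a) (fun b' x' hq' => ?_) w hw
  have h1 := hT.univ hL hd hmem hirr (a⁻¹ • x')
  have h2 : a • a⁻¹ • x' = x' := smul_inv_smul₀ ha x'
  have h3 : (f0, (a, (hyp (hyp B) (a, b, (p, r, y)) (a, b, (p, r, y)) -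
      hyp B (a • a⁻¹ • x') (a • a⁻¹ • x')) / (2 * a), a • a⁻¹ • x')) ∈ Z := h1
  rw [h2, ← hq'] at h3
  show (f0, (a, b', x')) ∈ Z
  convert h3 using 4
  change b' = (a * b' + b' * a + hyp B x' x' - hyp B x' x') / (2 * a)
  field_simp
  ring

end Pool.Agent.LI39
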