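import Pool.Agent.LI39.Toral

/-!
Closed subsets of `V = ℝ × ℝ × (ℝ × ℝ × W)` invariant under Eichler transvections of level `d`:
if such a set contains a vector of irrational direction, it contains every vector of the same norm.
-/

namespace Pool.Agent.LI39

variable {W : Type*} [AddCommGroup W] [Module ℝ W]

lemma ev_smul {B : W → W → ℝ} (hB : SymBilin B) (u : W) (t : ℝ) (v : ℝ × ℝ × W) :
    ev B u (t • v) = t • ev B u v := by
  unfold ev
  refine Prod.ext ?_ (Prod.ext ?_ ?_)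
  · simp
  · simp only [Prod.smul_snd, Prod.smul_fst, smul_eq_mul, hB.smul_left]
    ring
  · simp only [Prod.smul_snd, Prod.smul_fst, smul_eq_mul, smul_sub, mul_smul]

lemma fv_smul {B : W → W → ℝ} (hB : SymBilin B) (u : W) (t : ℝ) (v : ℝ × ℝ × W) :
    fv B u (t • v) = t • fv B u v := by
  have h := ev_smul hB u t (sw v)
  have h2 := congrArg sw h
  exact h2

lemma hyp_ev {B : W → W → ℝ} (hB : SymBilin B) (u : W) (v w : ℝ × ℝ × W) :
    hyp B (ev B u v) (ev B u w) = hyp B v w := by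
  simp only [hyp, ev, hB.sub_left, hB.sub_right, hB.smul_left, hB.smul_right]
  rw [hB.symm u w.2.2]
  ring

omit [AddCommGroup W] [Module ℝ W] in
lemma hyp_sw (B : W → W → ℝ) (v w : ℝ × ℝ × W) : hyp B (sw v) (sw w) = hyp B v w := by
  simp only [hyp, sw]
  ring

lemma hyp_fv {B : W → W → ℝ} (hB : SymBilin B) (u : W) (v w : ℝ × ℝ × W) :
    hyp B (fv B u v) (fv B u w) = hyp B v w := by
  have h := hyp_ev hB u (sw v) (sw w)
  rw [hyp_sw] at h
  rw [← h]
  exact (hyp_sw B (ev B u (sw v)) (ev B u (sw w)))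

variable [TopologicalSpace W] [ContinuousAdd W] [ContinuousSMul ℝ W]

/-- Closed sets invariant under the Eichler transvections of level `d` of both planes. -/
structure Inv (B : W → W → ℝ) (Λ : AddSubgroup W) (d : ℤ) (Z : Set (ℝ × ℝ × (ℝ × ℝ × W))) :
    Prop where
  closed : IsClosed Z
  e1 : ∀ z ∈ Z, ∀ i j : ℤ, ∀ u ∈ Λ, ev (hyp B) ((d : ℝ) * i, (d : ℝ) * j, u) z ∈ Z
  f1 : ∀ z ∈ Z, ∀ i j : ℤ, ∀ u ∈ Λ, fv (hyp B) ((d : ℝ) * i, (d : ℝ) * j, u) z ∈ Z
  e2 : ∀ z ∈ Z, ∀ u ∈ Λ, (z.1, z.2.1, ev B u z.2.2) ∈ Z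
  f2 : ∀ z ∈ Z, ∀ u ∈ Λ, (z.1, z.2.1, fv B u z.2.2) ∈ Z

variable {B : W → W → ℝ} {Λ : AddSubgroup W} {d : ℤ} {Z : Set (ℝ × ℝ × (ℝ × ℝ × W))}

omit [ContinuousAdd W] [ContinuousSMul ℝ W] in
lemma Inv.swap (h : Inv B Λ d Z) : Inv B Λ d (sw ⁻¹' Z) where
  closed := by
    refine h.closed.preimage ?_
    unfold sw
    fun_prop
  e1 z hz i j u hu := h.f1 (sw z) hz i j u hu
  f1 z hz i j u hu := h.e1 (sw z) hz i j u hu
  e2 z hz u hu := h.e2 (sw z) hz u hu
  f2 z hz u hu := h.f2 (sw z) hz u hu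

/-- A section over a nonzero first coordinate. -/
def sect (B : W → W → ℝ) (Z : Set (ℝ × ℝ × (ℝ × ℝ × W))) (a c : ℝ) : Set (ℝ × ℝ × W) :=
  {x | (a, (c - hyp B (a • x) (a • x)) / (2 * a), a • x) ∈ Z}

omit [ContinuousAdd W] in
lemma Inv.tor (hL : Lat B Λ) (hZ : Inv B Λ d Z) {a : ℝ} (ha : a ≠ 0) (c : ℝ) :
    Tor B Λ d (sect B Z a c) where
  closed := by
    refine hZ.closed.preimage ?_
    have h1 : Continuous fun x : ℝ × ℝ × W => B (a • x.2.2) (a • x.2.2) :=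
      hL.cont.comp (by fun_prop)
    have h2 : Continuous fun x : ℝ × ℝ × W => hyp B (a • x) (a • x) := by
      unfold hyp
      simp only [Prod.smul_fst, Prod.smul_snd, smul_eq_mul] at h1 ⊢
      have h3 : Continuous fun x : ℝ × ℝ × W => a * x.1 * (a * x.2.1) + a * x.2.1 * (a * x.1) := by
        fun_prop
      exact h3.add h1
    fun_prop
  trans x hx i j u hu := by
    have hx' : (a, (c - hyp B (a • x) (a • x)) / (2 * a), a • x) ∈ Z := hx
    have h1 := hZ.e1 _ hx' (-i) (-j) (-u) (Λ.neg_mem hu)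
    show (a, (c - hyp B (a • (x.1 + (d : ℝ) * i, x.2.1 + (d : ℝ) * j, x.2.2 + u))
      (a • (x.1 + (d : ℝ) * i, x.2.1 + (d : ℝ) * j, x.2.2 + u))) / (2 * a),
      a • (x.1 + (d : ℝ) * i, x.2.1 + (d : ℝ) * j, x.2.2 + u)) ∈ Z
    convert h1 using 1
    have hB := hL.bil
    unfold ev
    refine Prod.ext rfl (Prod.ext ?_ (Prod.ext ?_ (Prod.ext ?_ ?_)))
    · simp only [hyp, Prod.smul_fst, Prod.smul_snd, smul_eq_mul, hB.smul_left, hB.smul_right,
        hB.add_left, hB.add_right, hB.neg_left, hB.neg_right]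
      rw [hB.symm u x.2.2]
      push_cast
      field_simp
      ring
    · simp
      ring
    · simp
      ring
    · simp
  e x hx u hu := by
    have hx' : (a, (c - hyp B (a • x) (a • x)) / (2 * a), a • x) ∈ Z := hx
    have h1 := hZ.e2 _ hx' u hu
    show (a, (c - hyp B (a • ev B u x) (a • ev B u x)) / (2 * a), a • ev B u x) ∈ Z
    rw [← ev_smul hL.bil, hyp_ev hL.bil]
    exact h1
  f x hx u hu := by
    have hx' : (a, (c - hyp B (a • x) (a • x)) / (2 * a), a • x) ∈ Z := hx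
    have h1 := hZ.f2 _ hx' u hu
    show (a, (c - hyp B (a • fv B u x) (a • fv B u x)) / (2 * a), a • fv B u x) ∈ Z
    rw [← fv_smul hL.bil, hyp_fv hL.bil]
    exact h1

lemma Inv.sec (hL : Lat B Λ) (hZ : Inv B Λ d Z) (hd : d ≠ 0) {a b : ℝ} {x : ℝ × ℝ × W}
    (ha : a ≠ 0) (hz : (a, b, x) ∈ Z) (hi : Irr B Λ (a⁻¹ • x)) (b' : ℝ) (x' : ℝ × ℝ × W)
    (hq : hyp (hyp B) (a, b', x') (a, b', x') = hyp (hyp B) (a, b, x) (a, b, x)) :
    (a, b', x') ∈ Z := by
  have hT := hZ.tor hL ha (hyp (hyp B) (a, b, x) (a, b, x))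
  have h1 : a • a⁻¹ • x = x := smul_inv_smul₀ ha x
  have h2 : a • a⁻¹ • x' = x' := smul_inv_smul₀ ha x'
  have hx : a⁻¹ • x ∈ sect B Z a (hyp (hyp B) (a, b, x) (a, b, x)) := by
    show (a, (hyp (hyp B) (a, b, x) (a, b, x) - hyp B (a • a⁻¹ • x) (a • a⁻¹ • x)) / (2 * a),
      a • a⁻¹ • x) ∈ Z
    rw [h1]
    convert hz using 3
    change (a * b + b * a + hyp B x x - hyp B x x) / (2 * a) = b
    field_simp
    ring
  have hx' := hT.univ hL hd hx hi (a⁻¹ • x')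
  have hx'' : (a, (hyp (hyp B) (a, b, x) (a, b, x) - hyp B (a • a⁻¹ • x') (a • a⁻¹ • x')) /
      (2 * a), a • a⁻¹ • x') ∈ Z := hx'
  rw [h2, ← hq] at hx''
  convert hx'' using 3
  change b' = (a * b' + b' * a + hyp B x' x' - hyp B x' x') / (2 * a)
  field_simp
  ring

lemma Inv.spread (hL : Lat B Λ) (hZ : Inv B Λ d Z) (hd : d ≠ 0) {a c : ℝ}
    (hs : ∀ b x, hyp (hyp B) (a, b, x) (a, b, x) = c → (a, b, x) ∈ Z) {b : ℝ} (hb : b ≠ 0)
    (a' : ℝ) (x' : ℝ × ℝ × W) (hq : hyp (hyp B) (a', b, x') (a', b, x') = c) :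
    (a', b, x') ∈ Z := by
  have h2 : (√2 : ℝ) ≠ 0 := by positivity
  set x0 : ℝ × ℝ × W := (b * √2, (c - 2 * a * b) / (2 * (b * √2)), 0) with hx0
  have hq0 : hyp (hyp B) (a, b, x0) (a, b, x0) = c := by
    simp only [hyp, hx0, hL.bil.zero_left]
    field_simp
    ring
  have hz0 := hs b x0 hq0
  have hirr : Irr B Λ (b⁻¹ • x0) := by
    left
    show Irrational (b⁻¹ * (b * √2))
    rw [inv_mul_cancel_left₀ hb]
    exact irrational_sqrt_two
  refine hZ.swap.sec hL hd (a := b) (b := a) (x := x0) hb hz0 hirr a' x' ?_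
  have e1 := hyp_sw (hyp B) (a', b, x') (a', b, x')
  have e2 := hyp_sw (hyp B) (a, b, x0) (a, b, x0)
  simp only [sw] at e1 e2
  rw [e1, e2, hq, hq0]

/-- One full section gives the whole level set. -/
lemma Inv.full (hL : Lat B Λ) (hZ : Inv B Λ d Z) (hd : d ≠ 0) {a c : ℝ}
    (hs : ∀ b x, hyp (hyp B) (a, b, x) (a, b, x) = c → (a, b, x) ∈ Z)
    (w : ℝ × ℝ × (ℝ × ℝ × W)) (hw : hyp (hyp B) w w = c) : w ∈ Z := by
  obtain ⟨a', b', x'⟩ := w
  have hb : ∀ b : ℝ, b ≠ 0 → ∀ a' x', hyp (hyp B) (a', b, x') (a', b, x') = c →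
      (a', b, x') ∈ Z := fun b hb a' x' hq => hZ.spread hL hd hs hb a' x' hq
  by_cases hb' : b' = 0
  · by_cases ha' : a' = 0
    · subst hb'
      subst ha'
      have hcl : IsClosed {t : ℝ | ((0 : ℝ), t, x') ∈ Z} := hZ.closed.preimage (by fun_prop)
      have hsub : ∀ t : ℝ, t ≠ 0 → ((0 : ℝ), t, x') ∈ Z := by
        intro t ht
        refine hb t ht 0 x' ?_
        rw [← hw]
        simp [hyp]
      have hdense : Dense {t : ℝ | ((0 : ℝ), t, x') ∈ Z} :=
        (dense_compl_singleton (0 : ℝ)).mono hsub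
      have h0 : (0 : ℝ) ∈ closure {t : ℝ | ((0 : ℝ), t, x') ∈ Z} := hdense 0
      rw [hcl.closure_eq] at h0
      exact h0
    · refine hZ.swap.spread hL hd (a := 1) (c := c) ?_ (b := a') ha' b' x' ?_
      · intro b x hq
        refine hb 1 one_ne_zero b x ?_
        have e1 := hyp_sw (hyp B) (b, 1, x) (b, 1, x)
        simp only [sw] at e1
        rw [← e1, hq]
      · have e1 := hyp_sw (hyp B) (a', b', x') (a', b', x')
        simp only [sw] at e1
        rw [e1, hw]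
  · exact hb b' hb' a' x' hw

/-- Rational direction: some nonzero multiple has rational pairing with the lattice. -/
def RatDir (B : W → W → ℝ) (Λ : AddSubgroup W) (v : ℝ × ℝ × (ℝ × ℝ × W)) : Prop :=
  ∃ t : ℝ, t ≠ 0 ∧ (∃ q : ℚ, t * v.1 = q) ∧ (∃ q : ℚ, t * v.2.1 = q) ∧
    (∃ q : ℚ, t * v.2.2.1 = q) ∧ (∃ q : ℚ, t * v.2.2.2.1 = q) ∧
    ∀ u ∈ Λ, ∃ q : ℚ, t * B v.2.2.2.2 u = q

lemma Inv.start (hL : Lat B Λ) (hZ : Inv B Λ d Z) (hd : d ≠ 0) {a b : ℝ} {x : ℝ × ℝ × W}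
    (ha : a ≠ 0) (hz : (a, b, x) ∈ Z) (hr : ¬ RatDir B Λ (a, b, x))
    (w : ℝ × ℝ × (ℝ × ℝ × W)) (hw : hyp (hyp B) w w = hyp (hyp B) (a, b, x) (a, b, x)) :
    w ∈ Z := by
  by_cases hi : Irr B Λ (a⁻¹ • x)
  · exact hZ.full hL hd (a := a) (fun b' x' hq => hZ.sec hL hd ha hz hi b' x' hq) w hw
  obtain ⟨p, r, y⟩ := x
  have hB := hL.bil
  unfold Irr at hi
  push Not at hi
  obtain ⟨h1, h2, h3⟩ := hi
  have h1' : ¬ Irrational (a⁻¹ * p) := h1
  have h2' : ¬ Irrational (a⁻¹ * r) := h2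
  obtain ⟨q1, hq1⟩ := exists_rat_of_not_irrational h1'
  obtain ⟨q2, hq2⟩ := exists_rat_of_not_irrational h2'
  have hba : Irrational (a⁻¹ * b) := by
    by_contra hcon
    obtain ⟨q3, hq3⟩ := exists_rat_of_not_irrational hcon
    apply hr
    refine ⟨a⁻¹, inv_ne_zero ha, ⟨1, ?_⟩, ⟨q3, hq3⟩, ⟨q1, hq1⟩, ⟨q2, hq2⟩, ?_⟩
    · simp [ha]
    · intro u hu
      have h4 := h3 u hu
      have h5 : ¬ Irrational (a⁻¹ * B y u) := by
        rw [← hB.smul_left]
        exact h4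
      exact exists_rat_of_not_irrational h5
  have hb : b ≠ 0 := by
    intro hb
    apply hba.ne_zero
    rw [hb, mul_zero]
  by_cases hp : p = 0
  · subst hp
    have hz1 := hZ.e1 _ hz 1 0 0 Λ.zero_mem
    have e1 : ev (hyp B) ((d : ℝ) * ((1 : ℤ) : ℝ), (d : ℝ) * ((0 : ℤ) : ℝ), (0 : W))
        (a, b, ((0 : ℝ), r, y)) = (a, b + r * d, (-(a * d), r, y)) := by
      simp only [ev, hyp, hB.zero_right]
      refine Prod.ext rfl (Prod.ext ?_ (Prod.ext ?_ (Prod.ext ?_ ?_)))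
      · simp
      · simp
      · simp
      · simp
    rw [e1] at hz1
    have hb'irr : Irrational (a⁻¹ * (b + r * d)) := by
      have e2 : a⁻¹ * (b + r * d) = a⁻¹ * b + ((q2 * d : ℚ) : ℝ) := by
        push_cast
        rw [← hq2]
        ring
      rw [e2]
      exact hba.add_ratCast _
    have hb' : b + r * d ≠ 0 := by
      intro h
      apply hb'irr.ne_zero
      rw [h, mul_zero]
    have hirr : Irr B Λ ((b + r * d)⁻¹ • ((-(a * d), r, y) : ℝ × ℝ × W)) := by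
      left
      show Irrational ((b + r * d)⁻¹ * (-(a * d)))
      have e3 : (b + r * d)⁻¹ * (-(a * d)) = ((-d : ℤ) : ℝ) / (a⁻¹ * (b + r * d)) := by
        push_cast
        field_simp
      rw [e3]
      exact hb'irr.intCast_div (by simpa using hd)
    have hnorm : hyp (hyp B) (a, b + r * d, (-(a * d), r, y)) (a, b + r * d, (-(a * d), r, y)) =
        hyp (hyp B) (a, b, ((0 : ℝ), r, y)) (a, b, ((0 : ℝ), r, y)) := by
      simp only [hyp]
      ring
    refine hZ.swap.full hL hd (a := b + r * d)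
      (c := hyp (hyp B) (a, b, ((0 : ℝ), r, y)) (a, b, ((0 : ℝ), r, y))) ?_ (sw w) ?_
    · intro a' x' hq
      refine hZ.swap.sec hL hd (a := b + r * d) (b := a) (x := (-(a * d), r, y)) hb' hz1 hirr
        a' x' ?_
      rw [hq, ← hnorm]
      exact (hyp_sw (hyp B) (a, b + r * d, (-(a * d), r, y))
        (a, b + r * d, (-(a * d), r, y))).symm
    · rw [hyp_sw, hw]
  · have hirr : Irr B Λ (b⁻¹ • ((p, r, y) : ℝ × ℝ × W)) := by
      left
      show Irrational (b⁻¹ * p)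
      have e3 : b⁻¹ * p = (q1 : ℝ) / (a⁻¹ * b) := by
        rw [← hq1]
        field_simp
      rw [e3]
      apply hba.ratCast_div
      intro h0
      rw [h0] at hq1
      have : a⁻¹ * p = 0 := by rw [hq1]; simp
      rcases mul_eq_zero.mp this with h | h
      · exact ha (inv_eq_zero.mp h)
      · exact hp h
    refine hZ.swap.full hL hd (a := b)
      (c := hyp (hyp B) (a, b, (p, r, y)) (a, b, (p, r, y))) ?_ (sw w) ?_
    · intro a' x' hq
      refine hZ.swap.sec hL hd (a := b) (b := a) (x := (p, r, y)) hb hz hirr a' x' ?_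
      rw [hq]
      exact (hyp_sw (hyp B) (a, b, (p, r, y)) (a, b, (p, r, y))).symm
    · rw [hyp_sw, hw]

/-- A closed invariant set that contains a vector of irrational direction contains its level set. -/
lemma Inv.level (hL : Lat B Λ) (hZ : Inv B Λ d Z) (hd : d ≠ 0) {v : ℝ × ℝ × (ℝ × ℝ × W)}
    (hz : v ∈ Z) (hr : ¬ RatDir B Λ v)
    (w : ℝ × ℝ × (ℝ × ℝ × W)) (hw : hyp (hyp B) w w = hyp (hyp B) v v) : w ∈ Z := by
  obtain ⟨a, b, p, r, y⟩ := v
  have hB := hL.bil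
  by_cases ha : a = 0
  · by_cases hb : b = 0
    · subst ha
      subst hb
      -- some pairing is nonzero
      have hex : ∃ i j : ℤ, ∃ u ∈ Λ, hyp B (p, r, y) ((d : ℝ) * i, (d : ℝ) * j, u) ≠ 0 := by
        by_contra hcon
        push Not at hcon
        apply hr
        have hp := hcon 0 1 0 Λ.zero_mem
        have hr' := hcon 1 0 0 Λ.zero_mem
        simp only [hyp, Int.cast_zero, mul_zero, Int.cast_one, mul_one, add_zero,
          hB.zero_right, zero_add] at hp hr'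
        have hdR : (d : ℝ) ≠ 0 := by exact_mod_cast hd
        have hp0 : p = 0 := (mul_eq_zero.mp hp).resolve_right hdR
        have hr0 : r = 0 := (mul_eq_zero.mp hr').resolve_right hdR
        refine ⟨1, one_ne_zero, ⟨0, by simp⟩, ⟨0, by simp⟩, ⟨0, by simp [hp0]⟩,
          ⟨0, by simp [hr0]⟩, ?_⟩
        intro u hu
        have h := hcon 0 0 u hu
        simp only [hyp, Int.cast_zero, mul_zero, add_zero, zero_add] at h
        exact ⟨0, by simp [h]⟩
      obtain ⟨i, j, u, hu, hne⟩ := hex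
      have hz1 := hZ.f1 _ hz i j u hu
      have e1 : fv (hyp B) ((d : ℝ) * i, (d : ℝ) * j, u) ((0 : ℝ), (0 : ℝ), (p, r, y)) =
          (hyp B (p, r, y) ((d : ℝ) * i, (d : ℝ) * j, u), 0, (p, r, y)) := by
        simp only [fv]
        refine Prod.ext ?_ (Prod.ext rfl ?_)
        · simp
        · simp
      rw [e1] at hz1
      refine hZ.start hL hd hne hz1 ?_ w ?_
      · rintro ⟨t, ht, -, -, h3, h4, h5⟩
        apply hr
        exact ⟨t, ht, ⟨0, by simp⟩, ⟨0, by simp⟩, h3, h4, h5⟩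
      · rw [hw]
        simp [hyp]
    · refine hZ.swap.start hL hd (a := b) (b := a) (x := (p, r, y)) hb hz ?_ (sw w) ?_
      · rintro ⟨t, ht, h1, h2, h3, h4, h5⟩
        exact hr ⟨t, ht, h2, h1, h3, h4, h5⟩
      · rw [hyp_sw, hw]
        exact (hyp_sw (hyp B) (a, b, (p, r, y)) (a, b, (p, r, y))).symm
  · exact hZ.start hL hd ha hz hr w hw

end Pool.Agent.LI39
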