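import Pool.Agent.LI39.Main

/-!
Reduction of lattice vectors of `U ⊕ U ⊕ L` under the orthogonal group of the lattice: up to
isometry and scaling every nonzero lattice vector is `(1, b, 0, 0, y)` with `b` an integer and
`y` half integral on `L`.
-/

namespace Pool.Agent.LI39

variable {M : Type*} [AddCommGroup M] [Module ℝ M] {B : M → M → ℝ} {L : AddSubgroup M}

/-- Interchange of the two hyperbolic planes. -/
def exL (M : Type*) [AddCommGroup M] [Module ℝ M] :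
    (ℝ × ℝ × (ℝ × ℝ × M)) ≃ₗ[ℝ] (ℝ × ℝ × (ℝ × ℝ × M)) where
  toFun v := (v.2.2.1, v.2.2.2.1, (v.1, v.2.1, v.2.2.2.2))
  map_add' _ _ := rfl
  map_smul' _ _ := rfl
  invFun v := (v.2.2.1, v.2.2.2.1, (v.1, v.2.1, v.2.2.2.2))
  left_inv _ := rfl
  right_inv _ := rfl

lemma exL_pres : Pres (hyp (hyp B)) (hypL (hypL L)) (exL M) := by
  refine ⟨fun v w => ?_, fun v => ⟨fun h => ?_, fun h => ?_⟩⟩
  · simp only [hyp, exL]
    change v.2.2.1 * w.2.2.2.1 + v.2.2.2.1 * w.2.2.1 +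
      (v.1 * w.2.1 + v.2.1 * w.1 + B v.2.2.2.2 w.2.2.2.2) = _
    ring
  · exact ⟨h.2.2.1, h.2.2.2.1, h.1, h.2.1, h.2.2.2.2⟩
  · exact ⟨h.2.2.1, h.2.2.2.1, h.1, h.2.1, h.2.2.2.2⟩

lemma ev_mem_even (hint : ∀ x ∈ L, ∀ y ∈ L, ∃ m : ℤ, B x y = m) {x : M}
    (hx : x ∈ L) (hxx : ∃ m : ℤ, B x x = 2 * m) {v : ℝ × ℝ × M} (hv : v ∈ hypL L) :
    ev B x v ∈ hypL L := by
  obtain ⟨⟨a, ha⟩, ⟨b, hb⟩, hy⟩ := hv
  obtain ⟨m1, hm1⟩ := hint _ hy _ hx
  obtain ⟨m2, hm2⟩ := hxx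
  refine ⟨⟨a, ha⟩, ⟨b + m1 - m2 * a, ?_⟩, ?_⟩
  · simp only [ev, hm1, hm2, ha, hb]
    push_cast
    ring
  · show v.2.2 - v.1 • x ∈ L
    rw [ha, Int.cast_smul_eq_zsmul ℝ]
    exact L.sub_mem hy (L.zsmul_mem hx _)

lemma evL_pres_even (hint : ∀ x ∈ L, ∀ y ∈ L, ∃ m : ℤ, B x y = m) (hB : SymBilin B) {x : M}
    (hx : x ∈ L) (hxx : ∃ m : ℤ, B x x = 2 * m) : Pres (hyp B) (hypL L) (evL hB x) := by
  refine ⟨fun v w => hyp_ev hB _ v w, fun v => ⟨fun h => ?_, fun h => ?_⟩⟩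
  · have h1 := ev_mem_even hint (L.neg_mem hx) (by
      obtain ⟨m, hm⟩ := hxx
      exact ⟨m, by rw [hB.neg_left, hB.neg_right, neg_neg, hm]⟩) h
    have h2 : ev B (-x) (evL hB x v) = v := (evL hB x).left_inv v
    rwa [h2] at h1
  · exact ev_mem_even hint hx hxx h

lemma pres_ij (hint : ∀ x ∈ L, ∀ y ∈ L, ∃ m : ℤ, B x y = m) (hB : SymBilin B) (i j : ℤ) :
    Pres (hyp (hyp B)) (hypL (hypL L)) (evL hB.hyp ((i : ℝ), (j : ℝ), (0 : M))) := by
  refine evL_pres_even (hyp_int hint) hB.hyp ⟨⟨i, rfl⟩, ⟨j, rfl⟩, L.zero_mem⟩ ⟨i * j, ?_⟩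
  simp only [hyp, hB.zero_left]
  push_cast
  ring

lemma pres_u (hint : ∀ x ∈ L, ∀ y ∈ L, ∃ m : ℤ, B x y = m) (hB : SymBilin B) {u : M}
    (hu : u ∈ L) :
    Pres (hyp (hyp B)) (hypL (hypL L)) (evL hB.hyp ((0 : ℝ), (0 : ℝ), (2 : ℝ) • u)) := by
  have h := evL_pres (hyp_int hint) hB.hyp (x := ((0 : ℝ), (0 : ℝ), u))
    ⟨⟨0, by simp⟩, ⟨0, by simp⟩, hu⟩
  have e : (2 : ℝ) • ((0 : ℝ), (0 : ℝ), u) = ((0 : ℝ), (0 : ℝ), (2 : ℝ) • u) := by
    refine Prod.ext ?_ (Prod.ext ?_ rfl)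
    · simp
    · simp
  rwa [e] at h

lemma pres_l2 (hint : ∀ x ∈ L, ∀ y ∈ L, ∃ m : ℤ, B x y = m) (hB : SymBilin B) {u : M}
    (hu : u ∈ L) : Pres (hyp (hyp B)) (hypL (hypL L)) (lift (evL hB ((2 : ℝ) • u))) :=
  lift_pres (evL_pres hint hB hu)

lemma ev_ij (hB : SymBilin B) (i j : ℝ) (v : ℝ × ℝ × (ℝ × ℝ × M)) :
    evL hB.hyp (i, j, (0 : M)) v =
      (v.1, v.2.1 + (v.2.2.1 * j + v.2.2.2.1 * i) - i * j * v.1,
        (v.2.2.1 - v.1 * i, v.2.2.2.1 - v.1 * j, v.2.2.2.2)) := by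
  show ev (hyp B) (i, j, (0 : M)) v = _
  simp only [ev, hyp, hB.zero_right]
  refine Prod.ext rfl (Prod.ext ?_ (Prod.ext ?_ (Prod.ext ?_ ?_)))
  · simp only
    ring
  · simp
  · simp
  · simp

/-- An integer multiple criterion. -/
lemma mult_of_round {α s : ℝ} (hα : α ≠ 0) (h : s - α * round (s / α) = 0 ∨
    |α| ≤ |s - α * round (s / α)|) : ∃ m : ℤ, s = α * m := by
  rcases h with h | h
  · exact ⟨round (s / α), by linarith⟩
  · exfalso
    have h1 := abs_sub_round (s / α)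
    have e : s - α * round (s / α) = α * (s / α - round (s / α)) := by field_simp
    rw [e, abs_mul] at h
    have h2 : 0 < |α| := abs_pos.mpr hα
    nlinarith

lemma normal (hint : ∀ x ∈ L, ∀ y ∈ L, ∃ m : ℤ, B x y = m) (hB : SymBilin B)
    (hnd : ∀ y : M, (∀ u ∈ L, B y u = 0) → y = 0) {z : ℝ × ℝ × (ℝ × ℝ × M)}
    (hz : z ∈ hypL (hypL L)) (hz0 : z ≠ 0) :
    ∃ g, Pres (hyp (hyp B)) (hypL (hypL L)) g ∧ ∃ τ : ℝ, τ ≠ 0 ∧ ∃ b : ℤ, ∃ y : M,
      (∀ u ∈ L, ∃ m : ℤ, B y ((2 : ℝ) • u) = m) ∧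
      g z = τ • ((1 : ℝ), (b : ℝ), ((0 : ℝ), (0 : ℝ), y)) := by
  -- a group element with nonzero first coordinate
  have hne : ∃ g, Pres (hyp (hyp B)) (hypL (hypL L)) g ∧ (g z).1 ≠ 0 := by
    by_cases h1 : z.1 = 0
    · by_cases h2 : z.2.1 = 0
      · by_cases h3 : z.2.2.1 = 0
        · by_cases h4 : z.2.2.2.1 = 0
          · have hy : z.2.2.2.2 ≠ 0 := by
              intro hy
              apply hz0
              exact Prod.ext h1 (Prod.ext h2 (Prod.ext h3 (Prod.ext h4 hy)))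
            have : ∃ u ∈ L, B z.2.2.2.2 u ≠ 0 := by
              by_contra hcon
              push Not at hcon
              exact hy (hnd _ hcon)
            obtain ⟨u, hu, hne⟩ := this
            refine ⟨swL (ℝ × ℝ × M) * evL hB.hyp ((0 : ℝ), (0 : ℝ), (2 : ℝ) • u) * swL (ℝ × ℝ × M),
              (swL_pres.mul (pres_u hint hB hu)).mul swL_pres, ?_⟩
            show z.1 + hyp B z.2.2 ((0 : ℝ), (0 : ℝ), (2 : ℝ) • u) -
              hyp B ((0 : ℝ), (0 : ℝ), (2 : ℝ) • u) ((0 : ℝ), (0 : ℝ), (2 : ℝ) • u) / 2 *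
                z.2.1 ≠ 0
            rw [h1, h2]
            simp only [hyp, hB.smul_right, mul_zero, add_zero, zero_add, sub_zero]
            exact mul_ne_zero two_ne_zero hne
          · exact ⟨exL M * lift (swL M), exL_pres.mul (lift_pres swL_pres), h4⟩
        · exact ⟨exL M, exL_pres, h3⟩
      · exact ⟨swL (ℝ × ℝ × M), swL_pres, h2⟩
    · exact ⟨1, ⟨fun _ _ => rfl, fun _ => Iff.rfl⟩, h1⟩
  -- minimal first coordinate
  have hfst : ∀ g, Pres (hyp (hyp B)) (hypL (hypL L)) g → ∃ k : ℕ, |(g z).1| = k := by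
    intro g hg
    obtain ⟨⟨m, hm⟩, -⟩ := (hg.2 z).mpr hz
    exact ⟨m.natAbs, by rw [hm, Nat.cast_natAbs, Int.cast_abs]⟩
  classical
  have hex : ∃ k : ℕ, 0 < k ∧ ∃ g, Pres (hyp (hyp B)) (hypL (hypL L)) g ∧ |(g z).1| = k := by
    obtain ⟨g, hg, hgne⟩ := hne
    obtain ⟨k, hk⟩ := hfst g hg
    refine ⟨k, ?_, g, hg, hk⟩
    rw [Nat.pos_iff_ne_zero]
    rintro rfl
    apply hgne
    rw [Nat.cast_zero, abs_eq_zero] at hk
    exact hk
  obtain ⟨hk0, g0, hg0, hg0k⟩ := Nat.find_spec hex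
  set k0 := Nat.find hex with hk0def
  have hmin : ∀ g, Pres (hyp (hyp B)) (hypL (hypL L)) g → (g z).1 = 0 ∨ (k0 : ℝ) ≤ |(g z).1| := by
    intro g hg
    by_cases h : (g z).1 = 0
    · exact Or.inl h
    · right
      obtain ⟨k, hk⟩ := hfst g hg
      rw [hk]
      have hkpos : 0 < k := by
        rw [Nat.pos_iff_ne_zero]
        rintro rfl
        rw [Nat.cast_zero, abs_eq_zero] at hk
        exact h hk
      exact_mod_cast Nat.find_min' hex ⟨hkpos, g, hg, hk⟩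
  have hk0R : (0 : ℝ) < k0 := by exact_mod_cast hk0
  -- divisibility of the coordinates of the second plane
  have claim1 : ∀ g, Pres (hyp (hyp B)) (hypL (hypL L)) g → |(g z).1| = k0 →
      (∃ m : ℤ, (g z).2.2.1 = (g z).1 * m) ∧ (∃ m : ℤ, (g z).2.2.2.1 = (g z).1 * m) := by
    intro g hg hgk
    have hα : (g z).1 ≠ 0 := by
      intro h
      rw [h, abs_zero] at hgk
      exact hk0R.ne hgk
    constructor
    · apply mult_of_round hα
      rw [hgk]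
      have h1 := hmin (exL M * evL hB.hyp (((round ((g z).2.2.1 / (g z).1) : ℤ) : ℝ),
        ((0 : ℤ) : ℝ), (0 : M)) * g) ((exL_pres.mul (pres_ij hint hB _ 0)).mul hg)
      have e : ((exL M * evL hB.hyp (((round ((g z).2.2.1 / (g z).1) : ℤ) : ℝ),
        ((0 : ℤ) : ℝ), (0 : M)) * g) z).1 =
          (g z).2.2.1 - (g z).1 * (round ((g z).2.2.1 / (g z).1) : ℤ) := by
        show (evL hB.hyp (((round ((g z).2.2.1 / (g z).1) : ℤ) : ℝ),
          ((0 : ℤ) : ℝ), (0 : M)) (g z)).2.2.1 = _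
        rw [ev_ij hB]
      rw [e] at h1
      exact h1
    · apply mult_of_round hα
      rw [hgk]
      have h1 := hmin (exL M * lift (swL M) * evL hB.hyp (((0 : ℤ) : ℝ),
        ((round ((g z).2.2.2.1 / (g z).1) : ℤ) : ℝ), (0 : M)) * g)
        ((((exL_pres (M := M) (B := B) (L := L)).mul (lift_pres (swL_pres (M := M) (B := B)
          (L := L)))).mul (pres_ij hint hB 0 _)).mul hg)
      have e : ((exL M * lift (swL M) * evL hB.hyp (((0 : ℤ) : ℝ),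
        ((round ((g z).2.2.2.1 / (g z).1) : ℤ) : ℝ), (0 : M)) * g) z).1 =
          (g z).2.2.2.1 - (g z).1 * (round ((g z).2.2.2.1 / (g z).1) : ℤ) := by
        show (evL hB.hyp (((0 : ℤ) : ℝ),
          ((round ((g z).2.2.2.1 / (g z).1) : ℤ) : ℝ), (0 : M)) (g z)).2.2.2.1 = _
        rw [ev_ij hB]
      rw [e] at h1
      exact h1
  -- make the third coordinate zero
  obtain ⟨⟨m1, hm1⟩, ⟨m2, hm2⟩⟩ := claim1 g0 hg0 hg0k
  set α := (g0 z).1 with hα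
  have hα0 : α ≠ 0 := by
    intro h
    rw [h, abs_zero] at hg0k
    exact hk0R.ne hg0k
  set g1 := evL hB.hyp ((m1 : ℝ), (m2 : ℝ), (0 : M)) * g0 with hg1
  have hg1p : Pres (hyp (hyp B)) (hypL (hypL L)) g1 := (pres_ij hint hB _ _).mul hg0
  set β := (g0 z).2.1 + ((g0 z).2.2.1 * m2 + (g0 z).2.2.2.1 * m1) - m1 * m2 * α with hβ
  set y := (g0 z).2.2.2.2 with hy
  have hg1z : g1 z = (α, β, ((0 : ℝ), (0 : ℝ), y)) := by
    show evL hB.hyp ((m1 : ℝ), (m2 : ℝ), (0 : M)) (g0 z) = _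
    rw [ev_ij hB]
    refine Prod.ext rfl (Prod.ext rfl (Prod.ext ?_ (Prod.ext ?_ rfl)))
    · show (g0 z).2.2.1 - (g0 z).1 * m1 = 0
      rw [hm1]
      ring
    · show (g0 z).2.2.2.1 - (g0 z).1 * m2 = 0
      rw [hm2]
      ring
  -- the second coordinate
  have hβm : ∃ m : ℤ, β = α * m := by
    apply mult_of_round hα0
    rw [hg0k]
    have h1 := hmin (swL (ℝ × ℝ × M) * evL hB.hyp (((1 : ℤ) : ℝ), ((round (β / α) : ℤ) : ℝ), (0 : M)) * g1)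
      ((swL_pres.mul (pres_ij hint hB _ _)).mul hg1p)
    have e : ((swL (ℝ × ℝ × M) * evL hB.hyp (((1 : ℤ) : ℝ), ((round (β / α) : ℤ) : ℝ), (0 : M)) * g1) z).1
        = β - α * (round (β / α) : ℤ) := by
      show (evL hB.hyp (((1 : ℤ) : ℝ), ((round (β / α) : ℤ) : ℝ), (0 : M)) (g1 z)).2.1 = _
      rw [ev_ij hB, hg1z]
      push_cast
      ring
    rw [e] at h1
    exact h1
  obtain ⟨b, hb⟩ := hβm
  refine ⟨g1, hg1p, α, hα0, b, α⁻¹ • y, ?_, ?_⟩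
  · intro u hu
    have hp := (pres_l2 hint hB hu).mul hg1p
    have e : (lift (evL hB ((2 : ℝ) • u)) * g1) z = (α, β, ((0 : ℝ), B y ((2 : ℝ) • u), y)) := by
      show lift (evL hB ((2 : ℝ) • u)) (g1 z) = _
      rw [hg1z]
      show (α, β, ev B ((2 : ℝ) • u) ((0 : ℝ), (0 : ℝ), y)) = _
      simp only [ev]
      refine Prod.ext rfl (Prod.ext rfl (Prod.ext rfl (Prod.ext ?_ ?_)))
      · simp
      · simp
    obtain ⟨-, ⟨m, hm⟩⟩ := claim1 _ hp (by rw [e]; exact hg0k)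
    rw [e] at hm
    have hm' : B y ((2 : ℝ) • u) = α * m := hm
    refine ⟨m, ?_⟩
    rw [hB.smul_left, hm']
    field_simp
  · rw [hg1z]
    refine Prod.ext ?_ (Prod.ext ?_ (Prod.ext ?_ (Prod.ext ?_ ?_)))
    · simp
    · show β = α * b
      exact hb
    · simp
    · simp
    · show y = α • α⁻¹ • y
      rw [smul_inv_smul₀ hα0]

end Pool.Agent.LI39
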