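import Pool.Agent.LI39.Group
import Pool.Agent.LI39.Reduce

/-!
Every multiple of a lattice vector of bounded norm is equivalent under the orthogonal group of the
lattice either to a vector in a fixed ball or to a multiple of one of finitely many vectors.
-/

namespace Pool.Agent.LI39

variable {n : ℕ} {G : Matrix (Fin n) (Fin n) ℤ}

lemma single_mem (i : Fin n) :
    ((0 : ℝ), (0 : ℝ), (Pi.single i 1 : Fin n → ℝ)) ∈ hypL (intL n) := by
  refine ⟨⟨0, by simp⟩, ⟨0, by simp⟩, ?_⟩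
  intro j
  by_cases hj : j = i
  · subst hj
    exact ⟨1, by simp⟩
  · exact ⟨0, by simp [hj]⟩

lemma e_mem : ((1 : ℝ), (0 : ℝ), (0 : Fin n → ℝ)) ∈ hypL (intL n) :=
  ⟨⟨1, by simp⟩, ⟨0, by simp⟩, (intL n).zero_mem⟩

lemma f_mem : ((0 : ℝ), (1 : ℝ), (0 : Fin n → ℝ)) ∈ hypL (intL n) :=
  ⟨⟨0, by simp⟩, ⟨1, by simp⟩, (intL n).zero_mem⟩

/-- Solving for the coordinates by the adjugate matrix. -/
lemma solve_coord (w : Fin n → ℝ) (j : Fin n) :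
    w j * (G.det : ℝ) = ∑ i, gram G w (Pi.single i 1) * (G.adjugate i j : ℝ) := by
  have hadj : ∀ k, ∑ i, (G k i : ℝ) * (G.adjugate i j : ℝ) = if k = j then (G.det : ℝ) else 0 := by
    intro k
    have := congrFun (congrFun (Matrix.mul_adjugate G) k) j
    rw [Matrix.mul_apply, Matrix.smul_apply, Matrix.one_apply] at this
    have h : ((∑ i, G k i * G.adjugate i j : ℤ) : ℝ) =
        ((G.det • (if k = j then (1 : ℤ) else 0) : ℤ) : ℝ) := by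
      rw [this]
    push_cast at h
    rw [h]
    split_ifs <;> simp
  have h10 : ∀ i, gram G w (Pi.single i 1) = ∑ k, w k * (G k i : ℝ) := by
    intro i
    simp only [gram]
    refine Finset.sum_congr rfl fun k _ => ?_
    rw [Finset.sum_eq_single i]
    · simp
    · intro j _ hj
      simp [hj]
    · simp
  calc w j * G.det = ∑ k, w k * (if k = j then (G.det : ℝ) else 0) := by simp
    _ = ∑ k, w k * ∑ i, (G k i : ℝ) * (G.adjugate i j : ℝ) := by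
        refine Finset.sum_congr rfl fun k _ => ?_
        rw [hadj k]
    _ = ∑ k, ∑ i, w k * ((G k i : ℝ) * (G.adjugate i j : ℝ)) := by
        refine Finset.sum_congr rfl fun k _ => ?_
        rw [Finset.mul_sum]
    _ = ∑ i, ∑ k, w k * ((G k i : ℝ) * (G.adjugate i j : ℝ)) := Finset.sum_comm
    _ = ∑ i, gram G w (Pi.single i 1) * (G.adjugate i j : ℝ) := by
        refine Finset.sum_congr rfl fun i _ => ?_
        rw [h10, Finset.sum_mul]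
        refine Finset.sum_congr rfl fun k _ => ?_
        ring

lemma nondeg (hG : G.IsSymm) (hdet : G.det ≠ 0) {y : ℝ × ℝ × (Fin n → ℝ)}
    (h : ∀ u ∈ hypL (intL n), hyp (gram G) y u = 0) : y = 0 := by
  have hB0 := gram_bil hG
  have h1 := h _ e_mem
  have h2 := h _ f_mem
  simp only [hyp, mul_zero, mul_one, add_zero, zero_add, hB0.zero_right] at h1 h2
  refine Prod.ext h2 (Prod.ext h1 ?_)
  funext j
  have h3 := solve_coord (G := G) y.2.2 j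
  have h4 : ∀ i, gram G y.2.2 (Pi.single i 1) = 0 := by
    intro i
    have := h _ (single_mem i)
    simpa [hyp] using this
  simp only [h4, zero_mul, Finset.sum_const_zero] at h3
  have hdetR : (G.det : ℝ) ≠ 0 := by exact_mod_cast hdet
  exact (mul_eq_zero.mp h3).resolve_right hdetR

/-- The common denominator. -/
def den (G : Matrix (Fin n) (Fin n) ℤ) : ℕ := 2 * G.det.natAbs

lemma den_pos (hdet : G.det ≠ 0) : 0 < den G := by
  have := Int.natAbs_pos.mpr hdet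
  unfold den
  omega

lemma coords (hG : G.IsSymm) {y : ℝ × ℝ × (Fin n → ℝ)}
    (h : ∀ u ∈ hypL (intL n), ∃ m : ℤ, hyp (gram G) y ((2 : ℝ) • u) = m) :
    (∃ m : ℤ, (den G : ℝ) * y.1 = m) ∧ (∃ m : ℤ, (den G : ℝ) * y.2.1 = m) ∧
      ∀ j, ∃ m : ℤ, (den G : ℝ) * y.2.2 j = m := by
  have hB0 := gram_bil hG
  have hden : (den G : ℝ) = 2 * |(G.det : ℝ)| := by
    unfold den
    rw [Nat.cast_mul, Nat.cast_natAbs, Int.cast_abs]
    norm_num
  have habs : ∀ s : ℝ, (∃ m : ℤ, 2 * s * (G.det : ℝ) = m) → ∃ m : ℤ, (den G : ℝ) * s = m := by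
    rintro s ⟨m, hm⟩
    rw [hden]
    rcases abs_choice (G.det : ℝ) with hc | hc
    · exact ⟨m, by rw [hc, ← hm]; ring⟩
    · exact ⟨-m, by rw [hc, Int.cast_neg, ← hm]; ring⟩
  obtain ⟨m1, hm1⟩ := h _ e_mem
  obtain ⟨m2, hm2⟩ := h _ f_mem
  rw [hB0.hyp.smul_right] at hm1 hm2
  simp only [hyp, mul_zero, mul_one, add_zero, zero_add, hB0.zero_right] at hm1 hm2
  refine ⟨habs _ ⟨m2 * G.det, ?_⟩, habs _ ⟨m1 * G.det, ?_⟩, fun j => habs _ ?_⟩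
  · push_cast
    rw [← hm2]
  · push_cast
    rw [← hm1]
  · have h4 : ∀ i, ∃ m : ℤ, 2 * gram G y.2.2 (Pi.single i 1) = m := by
      intro i
      obtain ⟨m, hm⟩ := h _ (single_mem i)
      rw [hB0.hyp.smul_right] at hm
      exact ⟨m, by rw [← hm]; simp [hyp]⟩
    choose m hm using h4
    refine ⟨∑ i, m i * G.adjugate i j, ?_⟩
    rw [mul_assoc, solve_coord, Finset.mul_sum]
    push_cast
    refine Finset.sum_congr rfl fun i _ => ?_
    rw [← hm i]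
    ring

/-- Representatives of the last coordinates. -/
noncomputable def ymap (N : ℕ) (k : Fin (2 * N) × Fin (2 * N) × (Fin n → Fin (2 * N))) :
    ℝ × ℝ × (Fin n → ℝ) :=
  ((k.1 : ℕ) / (N : ℝ), (k.2.1 : ℕ) / (N : ℝ), fun i => ((k.2.2 i : ℕ) : ℝ) / (N : ℝ))

lemma red_coord {N : ℕ} (hN : 0 < N) {c : ℝ} (hc : ∃ m : ℤ, (N : ℝ) * c = m) :
    ∃ k : Fin (2 * N), c - 2 * (⌊c / 2⌋ : ℤ) = ((k : ℕ) : ℝ) / (N : ℝ) := by
  obtain ⟨m, hm⟩ := hc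
  have hNR : (0 : ℝ) < N := by exact_mod_cast hN
  have h1 := Int.floor_le (c / 2)
  have h2 := Int.lt_floor_add_one (c / 2)
  have h3 : (N : ℝ) * (c - 2 * (⌊c / 2⌋ : ℤ)) = ((m - 2 * N * ⌊c / 2⌋ : ℤ) : ℝ) := by
    push_cast
    rw [← hm]
    ring
  have h4 : 0 ≤ m - 2 * N * ⌊c / 2⌋ := by
    have : (0 : ℝ) ≤ ((m - 2 * N * ⌊c / 2⌋ : ℤ) : ℝ) := by
      rw [← h3]
      apply mul_nonneg hNR.le
      linarith
    exact_mod_cast this
  have h5 : m - 2 * N * ⌊c / 2⌋ < 2 * N := by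
    have : ((m - 2 * N * ⌊c / 2⌋ : ℤ) : ℝ) < ((2 * N : ℤ) : ℝ) := by
      rw [← h3]
      push_cast
      have : c - 2 * (⌊c / 2⌋ : ℤ) < 2 := by linarith
      nlinarith
    exact_mod_cast this
  refine ⟨⟨(m - 2 * N * ⌊c / 2⌋).toNat, by omega⟩, ?_⟩
  have h6 : (((m - 2 * N * ⌊c / 2⌋).toNat : ℕ) : ℝ) = ((m - 2 * N * ⌊c / 2⌋ : ℤ) : ℝ) := by
    have : (((m - 2 * N * ⌊c / 2⌋).toNat : ℕ) : ℤ) = m - 2 * N * ⌊c / 2⌋ := Int.toNat_of_nonneg h4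
    exact_mod_cast this
  show c - 2 * (⌊c / 2⌋ : ℤ) = (((m - 2 * N * ⌊c / 2⌋).toNat : ℕ) : ℝ) / (N : ℝ)
  rw [h6, ← h3]
  field_simp

/-- The refined normal form. -/
lemma normal2 (hG : G.IsSymm) (hdet : G.det ≠ 0) {z : V n} (hz : z ∈ lattice n) (hz0 : z ≠ 0) :
    ∃ g ∈ orth G, ∃ τ : ℝ, τ ≠ 0 ∧ ∃ b : ℤ, ∃ k,
      g z = τ • ((1 : ℝ), (b : ℝ), ((0 : ℝ), (0 : ℝ), ymap (n := n) (den G) k)) := by
  have hB0 := gram_bil hG
  have hB1 := hB0.hyp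
  have hi1 := hyp_int (gram_int (G := G))
  obtain ⟨g, hg, τ, hτ, b, y, hy, hgz⟩ := normal hi1 hB1 (fun y h => nondeg hG hdet h) hz hz0
  obtain ⟨h1, h2, h3⟩ := coords hG hy
  obtain ⟨k1, hk1⟩ := red_coord (den_pos hdet) h1
  obtain ⟨k2, hk2⟩ := red_coord (den_pos hdet) h2
  choose k3 hk3 using fun j => red_coord (den_pos hdet) (h3 j)
  set u : ℝ × ℝ × (Fin n → ℝ) := ((⌊y.1 / 2⌋ : ℤ), (⌊y.2.1 / 2⌋ : ℤ), fun j =>
    ((⌊y.2.2 j / 2⌋ : ℤ) : ℝ)) with hu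
  have huL : u ∈ hypL (intL n) := ⟨⟨_, rfl⟩, ⟨_, rfl⟩, fun j => ⟨_, rfl⟩⟩
  have hyu : y - (2 : ℝ) • u = ymap (den G) (k1, k2, k3) := by
    refine Prod.ext ?_ (Prod.ext ?_ ?_)
    · exact hk1
    · exact hk2
    · funext j
      exact hk3 j
  obtain ⟨m, hm⟩ := hy u huL
  obtain ⟨m', hm'⟩ := hi1 u huL u huL
  refine ⟨evL hB1.hyp ((0 : ℝ), (0 : ℝ), (2 : ℝ) • u) * g,
    orth_of_pres ((pres_u hi1 hB1 huL).mul hg), τ, hτ, b + m - 2 * m', (k1, k2, k3), ?_⟩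
  show ev (hyp (hyp (gram G))) ((0 : ℝ), (0 : ℝ), (2 : ℝ) • u) (g z) = _
  rw [hgz, ev_smul hB1.hyp, ← hyu]
  congr 1
  simp only [ev]
  refine Prod.ext rfl (Prod.ext ?_ ?_)
  · show (b : ℝ) + hyp (hyp (gram G)) ((0 : ℝ), (0 : ℝ), y) ((0 : ℝ), (0 : ℝ), (2 : ℝ) • u) -
      hyp (hyp (gram G)) ((0 : ℝ), (0 : ℝ), (2 : ℝ) • u) ((0 : ℝ), (0 : ℝ), (2 : ℝ) • u) / 2 * 1 =
      ((b + m - 2 * m' : ℤ) : ℝ)
    have e1 : hyp (hyp (gram G)) ((0 : ℝ), (0 : ℝ), y) ((0 : ℝ), (0 : ℝ), (2 : ℝ) • u) = m := by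
      rw [← hm]
      show (0 : ℝ) * 0 + 0 * 0 + hyp (gram G) y ((2 : ℝ) • u) = _
      ring
    have e2 : hyp (hyp (gram G)) ((0 : ℝ), (0 : ℝ), (2 : ℝ) • u) ((0 : ℝ), (0 : ℝ), (2 : ℝ) • u) =
        4 * m' := by
      show (0 : ℝ) * 0 + 0 * 0 + hyp (gram G) ((2 : ℝ) • u) ((2 : ℝ) • u) = _
      rw [hB1.smul_left, hB1.smul_right, hm']
      ring
    rw [e1, e2]
    push_cast
    ring
  · simp

end Pool.Agent.LI39
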