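import Pool.Agent.LI39.Group

/-!
The density argument.
-/

namespace Pool.Agent.LI39

variable {n : ℕ} {G : Matrix (Fin n) (Fin n) ℤ}

/-- A closed invariant set that contains a vector that is not a multiple of a lattice vector
contains all vectors of the same norm. -/
lemma level_set (hG : G.IsSymm) (hdet : G.det ≠ 0) (Γ : Subgroup (V n ≃ₗ[ℝ] V n))
    (hΓ : Γ.relIndex (orth G) ≠ 0) {Z : Set (V n)} (hcl : IsClosed Z)
    (hinv : ∀ g ∈ Γ, ∀ x ∈ Z, g x ∈ Z) {v : V n} (hv : v ∈ Z)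
    (hirr : ¬ ∃ (t : ℝ) (z : V n), z ∈ lattice n ∧ v = t • z) (w : V n)
    (hw : form G w w = form G v v) : w ∈ Z := by
  obtain ⟨d, hd, hI⟩ := inv_of_group hG Γ hΓ
  exact (hI Z hcl hinv).level (lat hG hd) hd hv
    (fun h => hirr (ratDir_multiple hG hdet hd h)) w hw

lemma form_bil (hG : G.IsSymm) : SymBilin (form G) := (gram_bil hG).hyp.hyp.hyp

/-- `A` contains the classes that come from one Kaehler structure: for an orthogonal decomposition
of the space into `N` (where the form is at most zero) and `P` (where it is at least zero) it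
contains every `u + ρ` with `u ∈ N`, `ρ ∈ P` and `q + (u, u) > 0`. -/
def KaehlerAt (G : Matrix (Fin n) (Fin n) ℤ) (q : ℝ) (A : Set (V n)) : Prop :=
  ∃ N P : Submodule ℝ (V n), N ⊔ P = ⊤ ∧ (∀ u ∈ N, ∀ ρ ∈ P, form G u ρ = 0) ∧
    (∀ u ∈ N, form G u u ≤ 0) ∧ (∀ ρ ∈ P, 0 ≤ form G ρ ρ) ∧
    ∀ u ∈ N, ∀ ρ ∈ P, 0 < q + form G u u → u + ρ ∈ A

/-- The orthogonal decomposition provides classes of every level. -/
lemma exists_level (hG : G.IsSymm) {κ : ℝ} {A : Set (V n)} (hA : KaehlerAt G κ A)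
    {c : ℝ} (hκ : 0 < κ) (hc : 0 < κ + c) : ∃ w : V n, form G w w = c ∧ w ∈ A := by
  obtain ⟨N, P, hNP, horth, hN, hP, hK⟩ := hA
  have hB := form_bil hG
  -- a vector of norm 2 and a vector of norm -2
  have hval : ∀ s : ℝ, form G ((1 : ℝ), s, 0) ((1 : ℝ), s, 0) = 2 * s := by
    intro s
    simp only [form]
    rw [hyp]
    simp only [(gram_bil hG).hyp.hyp.zero_left]
    ring
  have hdec : ∀ v : V n, ∃ u ∈ N, ∃ ρ ∈ P, u + ρ = v ∧
      form G v v = form G u u + form G ρ ρ := by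
    intro v
    have hv : v ∈ N ⊔ P := by rw [hNP]; trivial
    obtain ⟨u, hu, ρ, hρ, h⟩ := Submodule.mem_sup.mp hv
    refine ⟨u, hu, ρ, hρ, h, ?_⟩
    rw [← h, hB.add_left, hB.add_right, hB.add_right, hB.symm ρ u, horth u hu ρ hρ]
    ring
  by_cases h0 : 0 ≤ c
  · obtain ⟨u, hu, ρ, hρ, h1, h2⟩ := hdec ((1 : ℝ), 1, 0)
    rw [hval] at h2
    have h3 := hN u hu
    have h4 : 0 < form G ρ ρ := by linarith
    refine ⟨√(c / form G ρ ρ) • ρ, ?_, ?_⟩
    · rw [hB.smul_left, hB.smul_right, ← mul_assoc, Real.mul_self_sqrt (by positivity)]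
      field_simp
    · have h5 := hK 0 N.zero_mem (√(c / form G ρ ρ) • ρ) (P.smul_mem _ hρ)
        (by rw [hB.zero_left]; linarith)
      rwa [zero_add] at h5
  · push Not at h0
    obtain ⟨u, hu, ρ, hρ, h1, h2⟩ := hdec ((1 : ℝ), -1, 0)
    rw [hval] at h2
    have h3 := hP ρ hρ
    have h4 : form G u u < 0 := by linarith
    have h5 : 0 ≤ c / form G u u := (div_pos_of_neg_of_neg h0 h4).le
    have h6 : form G (√(c / form G u u) • u) (√(c / form G u u) • u) = c := by
      rw [hB.smul_left, hB.smul_right, ← mul_assoc, Real.mul_self_sqrt h5]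
      exact div_mul_cancel₀ c h4.ne
    refine ⟨√(c / form G u u) • u, h6, ?_⟩
    have h7 := hK (√(c / form G u u) • u) (N.smul_mem _ hu) 0 P.zero_mem
      (by rw [h6]; linarith)
    rwa [add_zero] at h7

end Pool.Agent.LI39
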