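import Pool.Agent.LI39.Dich
import Pool.Agent.LI39.Final

/-!
The dichotomy: multiples of lattice vectors of bounded norm are equivalent to vectors in a ball or
lie on finitely many lines.
-/

namespace Pool.Agent.LI39

variable {n : ℕ} {G : Matrix (Fin n) (Fin n) ℤ}

/-- The normal vectors. -/
noncomputable def nv (G : Matrix (Fin n) (Fin n) ℤ)
    (b : ℤ) (k : Fin (2 * den G) × Fin (2 * den G) × (Fin n → Fin (2 * den G))) : V n :=
  ((1 : ℝ), (b : ℝ), ((0 : ℝ), (0 : ℝ), ymap (den G) k))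

lemma nv_multiple (hdet : G.det ≠ 0) (b : ℤ) (k) :
    ∃ (t : ℝ) (z : V n), z ∈ lattice n ∧ nv G b k = t • z := by
  have hN : (0 : ℝ) < den G := by exact_mod_cast den_pos hdet
  refine ⟨((den G : ℝ))⁻¹, (den G : ℝ) • nv G b k, ?_, by rw [inv_smul_smul₀ hN.ne']⟩
  refine ⟨⟨den G, ?_⟩, ⟨den G * b, ?_⟩, ⟨0, ?_⟩, ⟨0, ?_⟩, ⟨(k.1 : ℕ), ?_⟩, ⟨(k.2.1 : ℕ), ?_⟩, ?_⟩
  · simp [nv]
  · simp [nv]
  · simp [nv]
  · simp [nv]
  · simp [nv, ymap]
    field_simp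
  · simp [nv, ymap]
    field_simp
  · intro i
    refine ⟨((k.2.2 i : ℕ) : ℤ), ?_⟩
    simp [nv, ymap]
    field_simp

lemma form_nv (hG : G.IsSymm) (b : ℤ) (k) :
    form G (nv G b k) (nv G b k) = 2 * b + hyp (gram G) (ymap (den G) k) (ymap (den G) k) := by
  show (1 : ℝ) * b + b * 1 + ((0 : ℝ) * 0 + 0 * 0 +
    hyp (gram G) (ymap (den G) k) (ymap (den G) k)) = _
  ring

lemma norm_le_of {a b p r R : ℝ} {y : ℝ × ℝ × (Fin n → ℝ)} (h1 : |a| ≤ R) (h2 : |b| ≤ R)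
    (h3 : |p| ≤ R) (h4 : |r| ≤ R) (h5 : ‖y‖ ≤ R) : ‖((a, b, (p, r, y)) : V n)‖ ≤ R := by
  rw [norm_prod_le_iff, norm_prod_le_iff, norm_prod_le_iff, norm_prod_le_iff]
  exact ⟨h1, h2, h3, h4, h5⟩

lemma small_case (hG : G.IsSymm) {τ : ℝ} (hτ0 : τ ≠ 0) (hτ : |τ| < 1) (b : ℤ) (k) {C Q Y : ℝ}
    (hQ : |hyp (gram G) (ymap (den G) k) (ymap (den G) k)| ≤ Q) (hY : ‖ymap (n := n) (den G) k‖ ≤ Y)
    (hC : |τ ^ 2 * (2 * b + hyp (gram G) (ymap (den G) k) (ymap (den G) k))| ≤ C) :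
    ∃ g ∈ orth G, ‖g (τ • nv G b k)‖ ≤ 2 + C + Q + Y := by
  have hB1 := (gram_bil hG).hyp
  have hi1 := hyp_int (gram_int (G := G))
  have hQ0 : 0 ≤ Q := (abs_nonneg _).trans hQ
  have hY0 : 0 ≤ Y := (norm_nonneg _).trans hY
  have hC0 : 0 ≤ C := (abs_nonneg _).trans hC
  have hτp : 0 < |τ| := abs_pos.mpr hτ0
  set i : ℤ := ⌈1 / |τ|⌉ with hi
  have hi1' : 1 / |τ| ≤ i := Int.le_ceil _
  have hi2' : (i : ℝ) < 1 / |τ| + 1 := Int.ceil_lt_add_one _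
  have hipos : (0 : ℝ) < i := lt_of_lt_of_le (by positivity) hi1'
  have hA1 : 1 ≤ |τ| * i := by
    rw [div_le_iff₀ hτp] at hi1'
    linarith
  have hA2 : |τ| * i ≤ 2 := by
    have : |τ| * i < |τ| * (1 / |τ| + 1) := mul_lt_mul_of_pos_left hi2' hτp
    have e : |τ| * (1 / |τ| + 1) = 1 + |τ| := by field_simp
    linarith
  set A : ℝ := -(τ * i) with hA
  have hAabs : |A| = |τ| * i := by
    rw [hA, abs_neg, abs_mul, abs_of_pos hipos]
  have hA0 : A ≠ 0 := by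
    rw [← abs_pos, hAabs]
    linarith
  set j : ℤ := round (τ * b / A) with hj
  have hround : |τ * b / A - j| ≤ 1 / 2 := abs_sub_round _
  refine ⟨evL hB1.hyp (((0 : ℤ) : ℝ), (j : ℝ), (0 : ℝ × ℝ × (Fin n → ℝ))) *
    exL (ℝ × ℝ × (Fin n → ℝ)) *
    evL hB1.hyp ((i : ℝ), ((0 : ℤ) : ℝ), (0 : ℝ × ℝ × (Fin n → ℝ))), orth_of_pres
      (((pres_ij hi1 hB1 0 j).mul exL_pres).mul (pres_ij hi1 hB1 i 0)), ?_⟩
  have e : (evL hB1.hyp (((0 : ℤ) : ℝ), (j : ℝ), (0 : ℝ × ℝ × (Fin n → ℝ))) *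
    exL (ℝ × ℝ × (Fin n → ℝ)) *
    evL hB1.hyp ((i : ℝ), ((0 : ℤ) : ℝ), (0 : ℝ × ℝ × (Fin n → ℝ)))) (τ • nv G b k) =
      (A, τ * j, (τ, τ * b - A * j, τ • ymap (den G) k)) := by
    show evL hB1.hyp (((0 : ℤ) : ℝ), (j : ℝ), (0 : ℝ × ℝ × (Fin n → ℝ)))
      (exL (ℝ × ℝ × (Fin n → ℝ)) (evL hB1.hyp ((i : ℝ), ((0 : ℤ) : ℝ),
        (0 : ℝ × ℝ × (Fin n → ℝ))) (τ • nv G b k))) = _
    rw [ev_ij hB1, ev_ij hB1]
    refine Prod.ext ?_ (Prod.ext ?_ (Prod.ext ?_ (Prod.ext ?_ ?_)))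
    · show τ * 0 - τ * 1 * i = A
      rw [hA]
      ring
    · show (τ * 0 - τ * 1 * ((0 : ℤ) : ℝ)) + ((τ * 1) * j +
        (τ * b + (τ * 0 * ((0 : ℤ) : ℝ) + τ * 0 * i) - i * ((0 : ℤ) : ℝ) * (τ * 1)) *
          ((0 : ℤ) : ℝ)) - ((0 : ℤ) : ℝ) * j * (τ * 0 - τ * 1 * i) = τ * j
      push_cast
      ring
    · show τ * 1 - (τ * 0 - τ * 1 * i) * ((0 : ℤ) : ℝ) = τ
      push_cast
      ring
    · show (τ * b + (τ * 0 * ((0 : ℤ) : ℝ) + τ * 0 * i) - i * ((0 : ℤ) : ℝ) * (τ * 1)) -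
        (τ * 0 - τ * 1 * i) * j = τ * b - A * j
      rw [hA]
      push_cast
      ring
    · rfl
  rw [e]
  -- bound of τ b
  have hτ2 : τ ^ 2 < 1 := by
    rw [← sq_abs]
    nlinarith
  have hb : τ ^ 2 * |(b : ℝ)| ≤ (C + Q) / 2 := by
    have h1 : |τ ^ 2 * (2 * (b : ℝ))| ≤ C + Q := by
      have e1 : τ ^ 2 * (2 * (b : ℝ)) = τ ^ 2 * (2 * b + hyp (gram G) (ymap (den G) k)
        (ymap (den G) k)) - τ ^ 2 * hyp (gram G) (ymap (den G) k) (ymap (den G) k) := by ring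
      rw [e1]
      refine (abs_sub _ _).trans (add_le_add hC ?_)
      rw [abs_mul, abs_of_nonneg (sq_nonneg τ)]
      calc τ ^ 2 * |hyp (gram G) (ymap (den G) k) (ymap (den G) k)| ≤ 1 * Q := by
            apply mul_le_mul hτ2.le hQ (abs_nonneg _) zero_le_one
        _ = Q := one_mul _
    rw [abs_mul, abs_mul, abs_of_nonneg (sq_nonneg τ), abs_two] at h1
    linarith
  have hA1' : 1 ≤ |A| := by rw [hAabs]; exact hA1
  refine norm_le_of ?_ ?_ ?_ ?_ ?_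
  · rw [hAabs]
    linarith
  · -- τ j
    have h1 : |(j : ℝ)| ≤ |τ| * |(b : ℝ)| + 1 / 2 := by
      have h2 : |(j : ℝ)| ≤ |τ * b / A| + |τ * b / A - j| := by
        have : (j : ℝ) = τ * b / A - (τ * b / A - j) := by ring
        calc |(j : ℝ)| = |τ * b / A - (τ * b / A - j)| := by rw [← this]
          _ ≤ _ := abs_sub _ _
      have h3 : |τ * b / A| ≤ |τ| * |(b : ℝ)| := by
        rw [abs_div, abs_mul]
        exact div_le_self (by positivity) hA1'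
      linarith
    rw [abs_mul]
    calc |τ| * |(j : ℝ)| ≤ |τ| * (|τ| * |(b : ℝ)| + 1 / 2) :=
          mul_le_mul_of_nonneg_left h1 hτp.le
      _ = τ ^ 2 * |(b : ℝ)| + |τ| / 2 := by rw [← sq_abs]; ring
      _ ≤ 2 + C + Q + Y := by linarith
  · linarith
  · have e1 : τ * b - A * j = A * (τ * b / A - j) := by field_simp
    rw [e1, abs_mul, hAabs]
    calc |τ| * i * |τ * b / A - j| ≤ 2 * (1 / 2) :=
          mul_le_mul hA2 hround (abs_nonneg _) zero_le_two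
      _ ≤ 2 + C + Q + Y := by linarith
  · rw [norm_smul, Real.norm_eq_abs]
    calc |τ| * ‖ymap (n := n) (den G) k‖ ≤ 1 * Y :=
          mul_le_mul hτ.le hY (norm_nonneg _) zero_le_one
      _ ≤ 2 + C + Q + Y := by linarith

/-- The dichotomy. -/
lemma dich (hG : G.IsSymm) (hdet : G.det ≠ 0) (C : ℝ) : ∃ R : ℝ, ∃ S : Set (V n), S.Finite ∧
    (∀ s ∈ S, ∃ (t : ℝ) (z : V n), z ∈ lattice n ∧ s = t • z) ∧
    ∀ z ∈ lattice n, ∀ t : ℝ, |form G (t • z) (t • z)| ≤ C →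
      ∃ g ∈ orth G, (‖g (t • z)‖ ≤ R ∨ ∃ s ∈ S, ∃ t' : ℝ, g (t • z) = t' • s) := by
  set Q : ℝ := ∑ k, |hyp (gram G) (ymap (n := n) (den G) k) (ymap (den G) k)| with hQ
  set Y : ℝ := ∑ k, ‖ymap (n := n) (den G) k‖ with hY
  have hQk : ∀ k, |hyp (gram G) (ymap (n := n) (den G) k) (ymap (den G) k)| ≤ Q := fun k =>
    Finset.single_le_sum (f := fun k => |hyp (gram G) (ymap (n := n) (den G) k)
      (ymap (den G) k)|) (fun _ _ => abs_nonneg _) (Finset.mem_univ k)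
  have hYk : ∀ k, ‖ymap (n := n) (den G) k‖ ≤ Y := fun k =>
    Finset.single_le_sum (f := fun k => ‖ymap (n := n) (den G) k‖)
      (fun _ _ => norm_nonneg _) (Finset.mem_univ k)
  have hQ0 : 0 ≤ Q := Finset.sum_nonneg fun _ _ => abs_nonneg _
  have hY0 : 0 ≤ Y := Finset.sum_nonneg fun _ _ => norm_nonneg _
  have hB := form_bil hG
  set m0 : ℤ := ⌈|C| + Q⌉ with hm0
  refine ⟨2 + |C| + Q + Y, (fun q : ℤ × _ => nv G q.1 q.2) ''
    ((Set.Icc (-m0) m0) ×ˢ Set.univ), ?_, ?_, ?_⟩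
  · exact ((Set.finite_Icc _ _).prod Set.finite_univ).image _
  · rintro s ⟨⟨b, k⟩, -, rfl⟩
    exact nv_multiple hdet b k
  · intro z hz t hc
    by_cases h0 : t • z = 0
    · refine ⟨1, (orth G).one_mem, Or.inl ?_⟩
      rw [h0, map_zero, norm_zero]
      positivity
    have ht : t ≠ 0 := by
      rintro rfl
      exact h0 (zero_smul _ _)
    have hz0 : z ≠ 0 := by
      rintro rfl
      exact h0 (smul_zero _)
    obtain ⟨g, hg, τ0, hτ0, b, k, hgz⟩ := normal2 hG hdet hz hz0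
    have hgz' : g z = τ0 • nv G b k := hgz
    have hgt : g (t • z) = (t * τ0) • nv G b k := by
      rw [map_smul, hgz', smul_smul]
    have hτ : t * τ0 ≠ 0 := mul_ne_zero ht hτ0
    set τ := t * τ0 with hτdef
    have hform : form G (t • z) (t • z) =
        τ ^ 2 * (2 * b + hyp (gram G) (ymap (den G) k) (ymap (den G) k)) := by
      rw [← hg.1 (t • z) (t • z), hgt, hB.smul_left, hB.smul_right, form_nv hG]
      ring
    rw [hform] at hc
    have hc' : |τ ^ 2 * (2 * b + hyp (gram G) (ymap (den G) k) (ymap (den G) k))| ≤ |C| :=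
      hc.trans (le_abs_self C)
    by_cases h1 : |τ| < 1
    · obtain ⟨g', hg', hn⟩ := small_case hG hτ h1 b k (hQk k) (hYk k) hc'
      refine ⟨g' * g, (orth G).mul_mem hg' hg, Or.inl ?_⟩
      show ‖g' (g (t • z))‖ ≤ _
      rw [hgt]
      exact hn
    · push Not at h1
      refine ⟨g, hg, Or.inr ⟨nv G b k, ⟨(b, k), ⟨?_, Set.mem_univ _⟩, rfl⟩, τ, hgt⟩⟩
      have h2 : 1 ≤ τ ^ 2 := by
        rw [← sq_abs]
        nlinarith
      have h3 : |2 * (b : ℝ) + hyp (gram G) (ymap (den G) k) (ymap (den G) k)| ≤ |C| := by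
        rw [abs_mul, abs_of_nonneg (sq_nonneg τ)] at hc'
        have h4 := abs_nonneg (2 * (b : ℝ) + hyp (gram G) (ymap (den G) k) (ymap (den G) k))
        nlinarith
      have h4 : |2 * (b : ℝ)| ≤ |C| + Q := by
        have e1 : 2 * (b : ℝ) = (2 * (b : ℝ) + hyp (gram G) (ymap (den G) k) (ymap (den G) k)) -
          hyp (gram G) (ymap (den G) k) (ymap (den G) k) := by ring
        rw [e1]
        exact (abs_sub _ _).trans (add_le_add h3 (hQk k))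
      have h5 : |(b : ℝ)| ≤ m0 := by
        rw [abs_mul, abs_two] at h4
        have := Int.le_ceil (|C| + Q)
        have h6 := abs_nonneg (b : ℝ)
        linarith
      rw [abs_le] at h5
      constructor
      · have : ((-m0 : ℤ) : ℝ) ≤ b := by push_cast; exact h5.1
        exact_mod_cast this
      · exact_mod_cast h5.2

end Pool.Agent.LI39
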