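import Pool.Agent.LI39.Dich

/-!
Lattice vectors of divisibility one can be moved into the first hyperbolic plane by Eichler
transvections (a form of the Eichler criterion).
-/

namespace Pool.Agent.LI39

variable {M : Type*} [AddCommGroup M] [Module ℝ M] {B : M → M → ℝ} {L : AddSubgroup M}

/-- The transvection along the other isotropic vector. -/
noncomputable def fvL (hB : SymBilin B) (u : M) : (ℝ × ℝ × M) ≃ₗ[ℝ] (ℝ × ℝ × M) :=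
  swL M * evL hB u * swL M

lemma fv_ij (hB : SymBilin B) (i j : ℝ) (v : ℝ × ℝ × (ℝ × ℝ × M)) :
    fvL hB.hyp (i, j, (0 : M)) v =
      (v.1 + (v.2.2.1 * j + v.2.2.2.1 * i) - i * j * v.2.1, v.2.1,
        (v.2.2.1 - v.2.1 * i, v.2.2.2.1 - v.2.1 * j, v.2.2.2.2)) := by
  show sw (evL hB.hyp (i, j, (0 : M)) (sw v)) = _
  rw [ev_ij hB]
  rfl

/-- Weyl element, first kind. -/
noncomputable def wp (hB : SymBilin B) : (ℝ × ℝ × (ℝ × ℝ × M)) ≃ₗ[ℝ] (ℝ × ℝ × (ℝ × ℝ × M)) :=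
  fvL hB.hyp ((0 : ℝ), (1 : ℝ), (0 : M)) * evL hB.hyp ((1 : ℝ), (0 : ℝ), (0 : M)) *
    fvL hB.hyp ((0 : ℝ), (1 : ℝ), (0 : M))

/-- Weyl element, second kind. -/
noncomputable def wr (hB : SymBilin B) : (ℝ × ℝ × (ℝ × ℝ × M)) ≃ₗ[ℝ] (ℝ × ℝ × (ℝ × ℝ × M)) :=
  fvL hB.hyp ((1 : ℝ), (0 : ℝ), (0 : M)) * evL hB.hyp ((0 : ℝ), (1 : ℝ), (0 : M)) *
    fvL hB.hyp ((1 : ℝ), (0 : ℝ), (0 : M))

lemma wp_apply (hB : SymBilin B) (v : ℝ × ℝ × (ℝ × ℝ × M)) :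
    wp hB v = (v.2.2.1, v.2.2.2.1, (-v.1, -v.2.1, v.2.2.2.2)) := by
  show fvL hB.hyp ((0 : ℝ), (1 : ℝ), (0 : M)) (evL hB.hyp ((1 : ℝ), (0 : ℝ), (0 : M))
    (fvL hB.hyp ((0 : ℝ), (1 : ℝ), (0 : M)) v)) = _
  rw [fv_ij hB, ev_ij hB, fv_ij hB]
  refine Prod.ext ?_ (Prod.ext ?_ (Prod.ext ?_ (Prod.ext ?_ rfl)))
  all_goals ring

lemma wr_apply (hB : SymBilin B) (v : ℝ × ℝ × (ℝ × ℝ × M)) :
    wr hB v = (v.2.2.2.1, v.2.2.1, (-v.2.1, -v.1, v.2.2.2.2)) := by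
  show fvL hB.hyp ((1 : ℝ), (0 : ℝ), (0 : M)) (evL hB.hyp ((0 : ℝ), (1 : ℝ), (0 : M))
    (fvL hB.hyp ((1 : ℝ), (0 : ℝ), (0 : M)) v)) = _
  rw [fv_ij hB, ev_ij hB, fv_ij hB]
  refine Prod.ext ?_ (Prod.ext ?_ (Prod.ext ?_ (Prod.ext ?_ rfl)))
  all_goals ring

lemma eichler (hint : ∀ x ∈ L, ∀ y ∈ L, ∃ m : ℤ, B x y = m) (hB : SymBilin B)
    (heven : ∀ u ∈ L, ∃ m : ℤ, B u u = 2 * m)
    (Γ : Subgroup ((ℝ × ℝ × (ℝ × ℝ × M)) ≃ₗ[ℝ] (ℝ × ℝ × (ℝ × ℝ × M))))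
    (h1 : ∀ u ∈ hypL L, evL hB.hyp u ∈ Γ) (h2 : ∀ u ∈ hypL L, fvL hB.hyp u ∈ Γ)
    (h3 : ∀ u ∈ L, lift (evL hB u) ∈ Γ) {z y0 : ℝ × ℝ × (ℝ × ℝ × M)}
    (hz : z ∈ hypL (hypL L)) (hy0 : y0 ∈ hypL (hypL L)) (hzy : hyp (hyp B) z y0 = 1) :
    ∃ γ ∈ Γ, Pres (hyp (hyp B)) (hypL (hypL L)) γ ∧
      ∃ a b : ℝ, γ z = (a, b, ((0 : ℝ), (0 : ℝ), (0 : M))) := by
  -- good elements
  have hij : ∀ i j : ℤ, ((i : ℝ), (j : ℝ), (0 : M)) ∈ hypL L := fun i j =>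
    ⟨⟨i, rfl⟩, ⟨j, rfl⟩, L.zero_mem⟩
  have ga : ∀ i j : ℤ, evL hB.hyp ((i : ℝ), (j : ℝ), (0 : M)) ∈ Γ ∧
      Pres (hyp (hyp B)) (hypL (hypL L)) (evL hB.hyp ((i : ℝ), (j : ℝ), (0 : M))) := fun i j =>
    ⟨h1 _ (hij i j), pres_ij hint hB i j⟩
  have gb : ∀ i j : ℤ, fvL hB.hyp ((i : ℝ), (j : ℝ), (0 : M)) ∈ Γ ∧
      Pres (hyp (hyp B)) (hypL (hypL L)) (fvL hB.hyp ((i : ℝ), (j : ℝ), (0 : M))) := fun i j =>
    ⟨h2 _ (hij i j), (swL_pres.mul (pres_ij hint hB i j)).mul swL_pres⟩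
  have gc : ∀ u ∈ L, lift (evL hB u) ∈ Γ ∧
      Pres (hyp (hyp B)) (hypL (hypL L)) (lift (evL hB u)) := fun u hu =>
    ⟨h3 u hu, lift_pres (evL_pres_even hint hB hu (heven u hu))⟩
  have gmul : ∀ {g g' : (ℝ × ℝ × (ℝ × ℝ × M)) ≃ₗ[ℝ] (ℝ × ℝ × (ℝ × ℝ × M))},
      (g ∈ Γ ∧ Pres (hyp (hyp B)) (hypL (hypL L)) g) →
      (g' ∈ Γ ∧ Pres (hyp (hyp B)) (hypL (hypL L)) g') →
      (g * g' ∈ Γ ∧ Pres (hyp (hyp B)) (hypL (hypL L)) (g * g')) := fun h h' =>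
    ⟨Γ.mul_mem h.1 h'.1, h.2.mul h'.2⟩
  have gwp : wp hB ∈ Γ ∧ Pres (hyp (hyp B)) (hypL (hypL L)) (wp hB) := by
    have a1 := ga 1 0
    have b1 := gb 0 1
    push_cast at a1 b1
    exact gmul (gmul b1 a1) b1
  have gwr : wr hB ∈ Γ ∧ Pres (hyp (hyp B)) (hypL (hypL L)) (wr hB) := by
    have a1 := ga 0 1
    have b1 := gb 1 0
    push_cast at a1 b1
    exact gmul (gmul b1 a1) b1
  -- a good element with nonzero first coordinate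
  have hne : ∃ g, (g ∈ Γ ∧ Pres (hyp (hyp B)) (hypL (hypL L)) g) ∧ (g z).1 ≠ 0 := by
    by_cases c1 : z.1 = 0
    · by_cases c2 : z.2.1 = 0
      · by_cases c3 : z.2.2.1 = 0
        · by_cases c4 : z.2.2.2.1 = 0
          · refine ⟨wr hB * lift (evL hB y0.2.2.2.2), gmul gwr (gc _ hy0.2.2.2.2), ?_⟩
            show (wr hB (lift (evL hB y0.2.2.2.2) z)).1 ≠ 0
            rw [wr_apply]
            show z.2.2.2.1 + B z.2.2.2.2 y0.2.2.2.2 - B y0.2.2.2.2 y0.2.2.2.2 / 2 * z.2.2.1 ≠ 0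
            have e : hyp (hyp B) z y0 = B z.2.2.2.2 y0.2.2.2.2 := by
              simp only [hyp, c1, c2, c3, c4]
              ring
            rw [e] at hzy
            rw [c3, c4, hzy]
            norm_num
          · refine ⟨wr hB, gwr, ?_⟩
            rw [wr_apply]
            exact c4
        · refine ⟨wp hB, gwp, ?_⟩
          rw [wp_apply]
          exact c3
      · refine ⟨wr hB * wp hB, gmul gwr gwp, ?_⟩
        show (wr hB (wp hB z)).1 ≠ 0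
        rw [wr_apply, wp_apply]
        exact neg_ne_zero.mpr c2
    · exact ⟨1, ⟨Γ.one_mem, ⟨fun _ _ => rfl, fun _ => Iff.rfl⟩⟩, c1⟩
  -- minimal first coordinate
  have hfst : ∀ g, Pres (hyp (hyp B)) (hypL (hypL L)) g → ∃ k : ℕ, |(g z).1| = k := by
    intro g hg
    obtain ⟨⟨m, hm⟩, -⟩ := (hg.2 z).mpr hz
    exact ⟨m.natAbs, by rw [hm, Nat.cast_natAbs, Int.cast_abs]⟩
  classical
  have hex : ∃ k : ℕ, 0 < k ∧ ∃ g, (g ∈ Γ ∧ Pres (hyp (hyp B)) (hypL (hypL L)) g) ∧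
      |(g z).1| = k := by
    obtain ⟨g, hg, hgne⟩ := hne
    obtain ⟨k, hk⟩ := hfst g hg.2
    refine ⟨k, ?_, g, hg, hk⟩
    rw [Nat.pos_iff_ne_zero]
    rintro rfl
    apply hgne
    rw [Nat.cast_zero, abs_eq_zero] at hk
    exact hk
  obtain ⟨hk0, g0, hg0, hg0k⟩ := Nat.find_spec hex
  set k0 := Nat.find hex with hk0def
  have hmin : ∀ g, (g ∈ Γ ∧ Pres (hyp (hyp B)) (hypL (hypL L)) g) →
      (g z).1 = 0 ∨ (k0 : ℝ) ≤ |(g z).1| := by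
    intro g hg
    by_cases h : (g z).1 = 0
    · exact Or.inl h
    · right
      obtain ⟨k, hk⟩ := hfst g hg.2
      rw [hk]
      have hkpos : 0 < k := by
        rw [Nat.pos_iff_ne_zero]
        rintro rfl
        rw [Nat.cast_zero, abs_eq_zero] at hk
        exact h hk
      exact_mod_cast Nat.find_min' hex ⟨hkpos, g, hg, hk⟩
  have hk0R : (0 : ℝ) < k0 := by exact_mod_cast hk0
  have claim1 : ∀ g, (g ∈ Γ ∧ Pres (hyp (hyp B)) (hypL (hypL L)) g) → |(g z).1| = k0 →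
      (∃ m : ℤ, (g z).2.2.1 = (g z).1 * m) ∧ (∃ m : ℤ, (g z).2.2.2.1 = (g z).1 * m) := by
    intro g hg hgk
    have hα : (g z).1 ≠ 0 := by
      intro h
      rw [h, abs_zero] at hgk
      exact hk0R.ne hgk
    constructor
    · apply mult_of_round hα
      rw [hgk]
      have h1 := hmin (wp hB * evL hB.hyp (((round ((g z).2.2.1 / (g z).1) : ℤ) : ℝ),
        ((0 : ℤ) : ℝ), (0 : M)) * g) (gmul (gmul gwp (ga _ 0)) hg)
      have e : ((wp hB * evL hB.hyp (((round ((g z).2.2.1 / (g z).1) : ℤ) : ℝ),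
        ((0 : ℤ) : ℝ), (0 : M)) * g) z).1 =
          (g z).2.2.1 - (g z).1 * (round ((g z).2.2.1 / (g z).1) : ℤ) := by
        show (wp hB (evL hB.hyp (((round ((g z).2.2.1 / (g z).1) : ℤ) : ℝ),
          ((0 : ℤ) : ℝ), (0 : M)) (g z))).1 = _
        rw [wp_apply, ev_ij hB]
      rw [e] at h1
      exact h1
    · apply mult_of_round hα
      rw [hgk]
      have h1 := hmin (wr hB * evL hB.hyp (((0 : ℤ) : ℝ),
        ((round ((g z).2.2.2.1 / (g z).1) : ℤ) : ℝ), (0 : M)) * g)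
        (gmul (gmul gwr (ga 0 _)) hg)
      have e : ((wr hB * evL hB.hyp (((0 : ℤ) : ℝ),
        ((round ((g z).2.2.2.1 / (g z).1) : ℤ) : ℝ), (0 : M)) * g) z).1 =
          (g z).2.2.2.1 - (g z).1 * (round ((g z).2.2.2.1 / (g z).1) : ℤ) := by
        show (wr hB (evL hB.hyp (((0 : ℤ) : ℝ),
          ((round ((g z).2.2.2.1 / (g z).1) : ℤ) : ℝ), (0 : M)) (g z))).1 = _
        rw [wr_apply, ev_ij hB]
      rw [e] at h1
      exact h1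
  obtain ⟨⟨m1, hm1⟩, ⟨m2, hm2⟩⟩ := claim1 g0 hg0 hg0k
  set α := (g0 z).1 with hα
  have hα0 : α ≠ 0 := by
    intro h
    rw [h, abs_zero] at hg0k
    exact hk0R.ne hg0k
  set g1 := evL hB.hyp ((m1 : ℝ), (m2 : ℝ), (0 : M)) * g0 with hg1
  have hg1p : g1 ∈ Γ ∧ Pres (hyp (hyp B)) (hypL (hypL L)) g1 := gmul (ga _ _) hg0
  set β := (g0 z).2.1 + ((g0 z).2.2.1 * m2 + (g0 z).2.2.2.1 * m1) - m1 * m2 * α with hβ
  set y := (g0 z).2.2.2.2 with hy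
  have hg1z : g1 z = (α, β, ((0 : ℝ), (0 : ℝ), y)) := by
    show evL hB.hyp ((m1 : ℝ), (m2 : ℝ), (0 : M)) (g0 z) = _
    rw [ev_ij hB]
    refine Prod.ext rfl (Prod.ext rfl (Prod.ext ?_ (Prod.ext ?_ rfl)))
    · show (g0 z).2.2.1 - (g0 z).1 * m1 = 0
      rw [hm1]
      ring
    · show (g0 z).2.2.2.1 - (g0 z).1 * m2 = 0
      rw [hm2]
      ring
  -- the second coordinate
  have hβm : ∃ m : ℤ, β = α * m := by
    apply mult_of_round hα0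
    rw [hg0k]
    have h1 := hmin (wr hB * wp hB * evL hB.hyp (((1 : ℤ) : ℝ), ((round (β / α) : ℤ) : ℝ),
      (0 : M)) * g1) (gmul (gmul (gmul gwr gwp) (ga _ _)) hg1p)
    have e : ((wr hB * wp hB * evL hB.hyp (((1 : ℤ) : ℝ), ((round (β / α) : ℤ) : ℝ),
      (0 : M)) * g1) z).1 = -(β - α * (round (β / α) : ℤ)) := by
      show (wr hB (wp hB (evL hB.hyp (((1 : ℤ) : ℝ), ((round (β / α) : ℤ) : ℝ),
        (0 : M)) (g1 z)))).1 = _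
      rw [wr_apply, wp_apply, ev_ij hB, hg1z]
      push_cast
      ring
    rw [e, abs_neg, neg_eq_zero] at h1
    exact h1
  obtain ⟨b, hb⟩ := hβm
  have hBy : ∀ u ∈ L, ∃ m : ℤ, B y u = α * m := by
    intro u hu
    have hp := gmul (gc u hu) hg1p
    have e : (lift (evL hB u) * g1) z = (α, β, ((0 : ℝ), B y u, y)) := by
      show lift (evL hB u) (g1 z) = _
      rw [hg1z]
      show (α, β, ev B u ((0 : ℝ), (0 : ℝ), y)) = _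
      simp only [ev]
      refine Prod.ext rfl (Prod.ext rfl (Prod.ext rfl (Prod.ext ?_ ?_)))
      · simp
      · simp
    obtain ⟨-, ⟨m, hm⟩⟩ := claim1 _ hp (by rw [e]; exact hg0k)
    rw [e] at hm
    exact ⟨m, hm⟩
  -- divisibility one
  have hone : ∃ m : ℤ, α * m = 1 := by
    have h5 := hg1p.2.1 z y0
    rw [hzy, hg1z] at h5
    obtain ⟨⟨c1, hc1⟩, ⟨c2, hc2⟩, ⟨c3, hc3⟩, ⟨c4, hc4⟩, hyL⟩ := (hg1p.2.2 y0).mpr hy0
    obtain ⟨m, hm⟩ := hBy _ hyL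
    refine ⟨c2 + b * c1 + m, ?_⟩
    rw [← h5]
    simp only [hyp]
    rw [hm, hc1, hc2, hb]
    push_cast
    ring
  obtain ⟨m, hm⟩ := hone
  obtain ⟨⟨a0, ha0⟩, -, -, -, hyL⟩ := (hg1p.2.2 z).mpr hz
  rw [hg1z] at ha0 hyL
  have ha0' : α = a0 := ha0
  have hyL' : y ∈ L := hyL
  have hsq : α * α = 1 := by
    rw [ha0'] at hm ⊢
    have h6 : a0 * m = 1 := by exact_mod_cast hm
    have h7 : a0 * a0 = 1 := by
      rcases Int.isUnit_iff.mp (IsUnit.of_mul_eq_one _ h6) with h | h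
      · rw [h]; rfl
      · rw [h]; rfl
    exact_mod_cast h7
  have huL : α • y ∈ L := by
    rw [ha0', Int.cast_smul_eq_zsmul ℝ]
    exact L.zsmul_mem hyL' _
  have hlast : evL hB.hyp ((0 : ℝ), (0 : ℝ), α • y) ∈ Γ ∧
      Pres (hyp (hyp B)) (hypL (hypL L)) (evL hB.hyp ((0 : ℝ), (0 : ℝ), α • y)) := by
    refine ⟨h1 _ ⟨⟨0, by simp⟩, ⟨0, by simp⟩, huL⟩, evL_pres_even (hyp_int hint) hB.hyp
      ⟨⟨0, by simp⟩, ⟨0, by simp⟩, huL⟩ ?_⟩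
    obtain ⟨m, hm⟩ := heven _ huL
    refine ⟨m, ?_⟩
    rw [← hm]
    simp only [hyp]
    ring
  refine ⟨evL hB.hyp ((0 : ℝ), (0 : ℝ), α • y) * g1, (gmul hlast hg1p).1, (gmul hlast hg1p).2,
    α, (ev (hyp B) ((0 : ℝ), (0 : ℝ), α • y) (g1 z)).2.1, ?_⟩
  show ev (hyp B) ((0 : ℝ), (0 : ℝ), α • y) (g1 z) = _
  rw [hg1z]
  refine Prod.ext rfl (Prod.ext rfl ?_)
  show ((0 : ℝ), (0 : ℝ), y) - α • ((0 : ℝ), (0 : ℝ), α • y) = _
  refine Prod.ext ?_ (Prod.ext ?_ ?_)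
  · simp
  · simp
  · show y - α • α • y = 0
    rw [smul_smul, hsq, one_smul, sub_self]

end Pool.Agent.LI39
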