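import Pool.Agent.LI39.Dense

/-!
Lattices `U ⊕ U ⊕ U ⊕ (ℤ^n, G)`, finite index subgroups of the orthogonal group, and the density
argument for sets of classes that are open and invariant.
-/

namespace Pool.Agent.LI39

/-- `ℤ ⊕ ℤ ⊕ L`, the lattice that goes with `hyp`. -/
def hypL {W : Type*} [AddCommGroup W] (L : AddSubgroup W) : AddSubgroup (ℝ × ℝ × W) where
  carrier := {v | (∃ a : ℤ, v.1 = a) ∧ (∃ b : ℤ, v.2.1 = b) ∧ v.2.2 ∈ L}
  zero_mem' := ⟨⟨0, by simp⟩, ⟨0, by simp⟩, L.zero_mem⟩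
  add_mem' := by
    rintro x y ⟨⟨a, ha⟩, ⟨b, hb⟩, hx⟩ ⟨⟨a', ha'⟩, ⟨b', hb'⟩, hy⟩
    exact ⟨⟨a + a', by simp [ha, ha']⟩, ⟨b + b', by simp [hb, hb']⟩, L.add_mem hx hy⟩
  neg_mem' := by
    rintro x ⟨⟨a, ha⟩, ⟨b, hb⟩, hx⟩
    exact ⟨⟨-a, by simp [ha]⟩, ⟨-b, by simp [hb]⟩, L.neg_mem hx⟩

/-- The integer vectors in `ℝ^n`. -/
def intL (n : ℕ) : AddSubgroup (Fin n → ℝ) where
  carrier := {w | ∀ i, ∃ m : ℤ, w i = m}
  zero_mem' := fun _ => ⟨0, by simp⟩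
  add_mem' := by
    intro x y hx hy i
    obtain ⟨a, ha⟩ := hx i
    obtain ⟨b, hb⟩ := hy i
    exact ⟨a + b, by simp [ha, hb]⟩
  neg_mem' := by
    intro x hx i
    obtain ⟨a, ha⟩ := hx i
    exact ⟨-a, by simp [ha]⟩

/-- The form on `ℝ^n` with Gram matrix `G`. -/
def gram {n : ℕ} (G : Matrix (Fin n) (Fin n) ℤ) (v w : Fin n → ℝ) : ℝ :=
  ∑ i, ∑ j, v i * (G i j : ℝ) * w j

/-- The real vector space of `U ⊕ U ⊕ U ⊕ (ℤ^n, G)`. -/
abbrev V (n : ℕ) : Type := ℝ × ℝ × (ℝ × ℝ × (ℝ × ℝ × (Fin n → ℝ)))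

/-- The lattice `ℤ^(6 + n)` in `V n`. -/
def lattice (n : ℕ) : AddSubgroup (V n) := hypL (hypL (hypL (intL n)))

/-- The form of `U ⊕ U ⊕ U ⊕ (ℤ^n, G)`. -/
def form {n : ℕ} (G : Matrix (Fin n) (Fin n) ℤ) : V n → V n → ℝ := hyp (hyp (hyp (gram G)))

/-- The orthogonal group of the lattice `U ⊕ U ⊕ U ⊕ (ℤ^n, G)`. -/
def orth {n : ℕ} (G : Matrix (Fin n) (Fin n) ℤ) : Subgroup (V n ≃ₗ[ℝ] V n) where
  carrier := {g | (∀ x y, form G (g x) (g y) = form G x y) ∧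
    ∀ x, g x ∈ lattice n ↔ x ∈ lattice n}
  mul_mem' := by
    rintro g g' ⟨h1, h2⟩ ⟨h1', h2'⟩
    refine ⟨fun x y => ?_, fun x => ?_⟩
    · show form G (g (g' x)) (g (g' y)) = form G x y
      rw [h1, h1']
    · show g (g' x) ∈ lattice n ↔ x ∈ lattice n
      rw [h2, h2']
  one_mem' := ⟨fun _ _ => rfl, fun _ => Iff.rfl⟩
  inv_mem' := by
    rintro g ⟨h1, h2⟩
    refine ⟨fun x y => ?_, fun x => ?_⟩
    · show form G (g.symm x) (g.symm y) = form G x y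
      rw [← h1, g.apply_symm_apply, g.apply_symm_apply]
    · show g.symm x ∈ lattice n ↔ x ∈ lattice n
      rw [← h2, g.apply_symm_apply]

section transvections

variable {M : Type*} [AddCommGroup M] [Module ℝ M] {B : M → M → ℝ}

lemma ev_add (hB : SymBilin B) (u u' : M) (v : ℝ × ℝ × M) :
    ev B (u + u') v = ev B u (ev B u' v) := by
  simp only [ev]
  refine Prod.ext rfl (Prod.ext ?_ ?_)
  · simp only [hB.add_left, hB.add_right, hB.sub_left, hB.smul_left]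
    rw [hB.symm u u']
    ring
  · simp only [smul_add]
    abel

lemma ev_zero (hB : SymBilin B) (v : ℝ × ℝ × M) : ev B 0 v = v := by
  simp only [ev, hB.zero_right]
  refine Prod.ext rfl (Prod.ext ?_ ?_)
  · simp
  · simp

lemma ev_map_add (hB : SymBilin B) (u : M) (v w : ℝ × ℝ × M) :
    ev B u (v + w) = ev B u v + ev B u w := by
  simp only [ev]
  refine Prod.ext ?_ (Prod.ext ?_ ?_)
  · simp
  · simp only [Prod.fst_add, Prod.snd_add, hB.add_left]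
    ring
  · simp only [Prod.fst_add, Prod.snd_add, add_smul]
    abel

/-- Eichler transvections as linear automorphisms. -/
noncomputable def evL (hB : SymBilin B) (u : M) : (ℝ × ℝ × M) ≃ₗ[ℝ] (ℝ × ℝ × M) where
  toFun := ev B u
  map_add' := ev_map_add hB u
  map_smul' t v := ev_smul hB u t v
  invFun := ev B (-u)
  left_inv v := by
    rw [← ev_add hB, neg_add_cancel, ev_zero hB]
  right_inv v := by
    rw [← ev_add hB, add_neg_cancel, ev_zero hB]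

/-- The interchange of the two isotropic vectors as a linear automorphism. -/
def swL (M : Type*) [AddCommGroup M] [Module ℝ M] : (ℝ × ℝ × M) ≃ₗ[ℝ] (ℝ × ℝ × M) where
  toFun := sw
  map_add' _ _ := rfl
  map_smul' _ _ := rfl
  invFun := sw
  left_inv _ := rfl
  right_inv _ := rfl

/-- Extension by the identity of a hyperbolic plane. -/
def lift (g : M ≃ₗ[ℝ] M) : (ℝ × ℝ × M) ≃ₗ[ℝ] (ℝ × ℝ × M) where
  toFun v := (v.1, v.2.1, g v.2.2)
  map_add' v w := by simp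
  map_smul' t v := by simp
  invFun v := (v.1, v.2.1, g.symm v.2.2)
  left_inv v := by simp
  right_inv v := by simp

lemma pow_of_add {H : Type*} [Group H] (φ : M → H) (h0 : φ 0 = 1)
    (h : ∀ u u', φ (u + u') = φ u * φ u') (k : ℕ) (u : M) : φ ((k : ℝ) • u) = φ u ^ k := by
  induction k with
  | zero => simp [h0]
  | succ k ih =>
    rw [pow_succ, ← ih, ← h]
    congr 1
    push_cast
    rw [add_smul, one_smul]

lemma evL_add (hB : SymBilin B) (u u' : M) : evL hB (u + u') = evL hB u * evL hB u' := by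
  ext1 v
  exact ev_add hB u u' v

lemma evL_zero (hB : SymBilin B) : evL hB (0 : M) = 1 := by
  ext1 v
  exact ev_zero hB v

lemma lift_mul (g g' : M ≃ₗ[ℝ] M) : lift (g * g') = lift g * lift g' := rfl

lemma lift_one : lift (1 : M ≃ₗ[ℝ] M) = 1 := rfl

/-- Isometries that preserve the lattice `L`. -/
def Pres (B : M → M → ℝ) (L : AddSubgroup M) (g : M ≃ₗ[ℝ] M) : Prop :=
  (∀ x y, B (g x) (g y) = B x y) ∧ ∀ x, g x ∈ L ↔ x ∈ L

variable {L : AddSubgroup M}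

lemma ev_mem (hint : ∀ x ∈ L, ∀ y ∈ L, ∃ m : ℤ, B x y = m) (hB : SymBilin B) {x : M}
    (hx : x ∈ L) {v : ℝ × ℝ × M} (hv : v ∈ hypL L) : ev B ((2 : ℝ) • x) v ∈ hypL L := by
  obtain ⟨⟨a, ha⟩, ⟨b, hb⟩, hy⟩ := hv
  obtain ⟨m1, hm1⟩ := hint _ hy _ hx
  obtain ⟨m2, hm2⟩ := hint _ hx _ hx
  refine ⟨⟨a, ha⟩, ⟨b + 2 * m1 - 2 * m2 * a, ?_⟩, ?_⟩
  · simp only [ev, hB.smul_left, hB.smul_right, hm1, hm2, ha, hb]
    push_cast
    ring
  · show v.2.2 - v.1 • (2 : ℝ) • x ∈ L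
    have : v.1 • (2 : ℝ) • x = (a * 2 : ℤ) • x := by
      rw [ha, smul_smul, ← Int.cast_smul_eq_zsmul ℝ]
      push_cast
      rfl
    rw [this]
    exact L.sub_mem hy (L.zsmul_mem hx _)

lemma evL_pres (hint : ∀ x ∈ L, ∀ y ∈ L, ∃ m : ℤ, B x y = m) (hB : SymBilin B) {x : M}
    (hx : x ∈ L) : Pres (hyp B) (hypL L) (evL hB ((2 : ℝ) • x)) := by
  refine ⟨fun v w => hyp_ev hB _ v w, fun v => ⟨fun h => ?_, fun h => ?_⟩⟩
  · have h1 := ev_mem hint hB (L.neg_mem hx) h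
    rw [smul_neg] at h1
    have h2 : ev B (-((2 : ℝ) • x)) (evL hB ((2 : ℝ) • x) v) = v :=
      (evL hB ((2 : ℝ) • x)).left_inv v
    rwa [h2] at h1
  · exact ev_mem hint hB hx h

lemma swL_pres : Pres (hyp B) (hypL L) (swL M) := by
  refine ⟨fun v w => hyp_sw B v w, fun v => ⟨fun h => ?_, fun h => ?_⟩⟩
  · exact ⟨h.2.1, h.1, h.2.2⟩
  · exact ⟨h.2.1, h.1, h.2.2⟩

lemma lift_pres {g : M ≃ₗ[ℝ] M} (hg : Pres B L g) : Pres (hyp B) (hypL L) (lift g) := by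
  refine ⟨fun v w => ?_, fun v => ⟨fun h => ?_, fun h => ?_⟩⟩
  · simp only [hyp, lift]
    change _ + B (g v.2.2) (g w.2.2) = _
    rw [hg.1]
    rfl
  · exact ⟨h.1, h.2.1, (hg.2 _).mp h.2.2⟩
  · exact ⟨h.1, h.2.1, (hg.2 _).mpr h.2.2⟩

lemma Pres.mul {g g' : M ≃ₗ[ℝ] M} (h : Pres B L g) (h' : Pres B L g') : Pres B L (g * g') := by
  refine ⟨fun x y => ?_, fun x => ?_⟩
  · show B (g (g' x)) (g (g' y)) = B x y
    rw [h.1, h'.1]
  · show g (g' x) ∈ L ↔ x ∈ L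
    rw [h.2, h'.2]

omit [Module ℝ M] in
lemma hyp_int (hint : ∀ x ∈ L, ∀ y ∈ L, ∃ m : ℤ, B x y = m) :
    ∀ x ∈ hypL L, ∀ y ∈ hypL L, ∃ m : ℤ, hyp B x y = m := by
  rintro x ⟨⟨a, ha⟩, ⟨b, hb⟩, hx⟩ y ⟨⟨a', ha'⟩, ⟨b', hb'⟩, hy⟩
  obtain ⟨m, hm⟩ := hint _ hx _ hy
  exact ⟨a * b' + b * a' + m, by simp only [hyp, ha, hb, ha', hb', hm]; push_cast; ring⟩

end transvections

section gram

variable {n : ℕ} {G : Matrix (Fin n) (Fin n) ℤ}

lemma gram_bil (hG : G.IsSymm) : SymBilin (gram G) where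
  add_left x y z := by
    simp only [gram, Pi.add_apply, add_mul, Finset.sum_add_distrib]
  smul_left t x y := by
    simp only [gram, Pi.smul_apply, smul_eq_mul, Finset.mul_sum]
    refine Finset.sum_congr rfl fun i _ => Finset.sum_congr rfl fun j _ => ?_
    ring
  symm x y := by
    simp only [gram]
    rw [Finset.sum_comm]
    refine Finset.sum_congr rfl fun i _ => Finset.sum_congr rfl fun j _ => ?_
    rw [← hG.apply i j]
    ring

lemma gram_int : ∀ x ∈ intL n, ∀ y ∈ intL n, ∃ m : ℤ, gram G x y = m := by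
  intro x hx y hy
  choose a ha using hx
  choose b hb using hy
  refine ⟨∑ i, ∑ j, a i * G i j * b j, ?_⟩
  simp only [gram, ha, hb]
  push_cast
  rfl

lemma gram_cont : Continuous fun w : Fin n → ℝ => gram G w w := by
  unfold gram
  fun_prop

/-- The lattice `d • (ℤ² ⊕ ℤ^n)`. -/
def dL (n : ℕ) (d : ℤ) : AddSubgroup (ℝ × ℝ × (Fin n → ℝ)) :=
  (hypL (intL n)).map (DistribSMul.toAddMonoidHom _ (d : ℝ))

lemma mem_dL {d : ℤ} {x : ℝ × ℝ × (Fin n → ℝ)} :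
    x ∈ dL n d ↔ ∃ y ∈ hypL (intL n), (d : ℝ) • y = x := by
  unfold dL
  rw [AddSubgroup.mem_map]
  rfl

lemma dL_span {d : ℤ} (hd : d ≠ 0) :
    Submodule.span ℝ ((dL n d : AddSubgroup _) : Set (ℝ × ℝ × (Fin n → ℝ))) = ⊤ := by
  have hdR : (d : ℝ) ≠ 0 := by exact_mod_cast hd
  rw [eq_top_iff]
  rintro ⟨s, t, w⟩ -
  have hmem : ∀ y ∈ hypL (intL n), y ∈
      Submodule.span ℝ ((dL n d : AddSubgroup _) : Set (ℝ × ℝ × (Fin n → ℝ))) := by
    intro y hy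
    have h1 : (d : ℝ) • y ∈
        Submodule.span ℝ ((dL n d : AddSubgroup _) : Set (ℝ × ℝ × (Fin n → ℝ))) :=
      Submodule.subset_span (mem_dL.mpr ⟨y, hy, rfl⟩)
    have h2 := Submodule.smul_mem _ ((d : ℝ)⁻¹) h1
    rwa [smul_smul, inv_mul_cancel₀ hdR, one_smul] at h2
  have h1 : ((1 : ℝ), (0 : ℝ), (0 : Fin n → ℝ)) ∈ hypL (intL n) :=
    ⟨⟨1, by simp⟩, ⟨0, by simp⟩, (intL n).zero_mem⟩
  have h2 : ((0 : ℝ), (1 : ℝ), (0 : Fin n → ℝ)) ∈ hypL (intL n) :=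
    ⟨⟨0, by simp⟩, ⟨1, by simp⟩, (intL n).zero_mem⟩
  have h3 : ∀ i : Fin n, ((0 : ℝ), (0 : ℝ), (Pi.single i 1 : Fin n → ℝ)) ∈ hypL (intL n) := by
    intro i
    refine ⟨⟨0, by simp⟩, ⟨0, by simp⟩, ?_⟩
    intro j
    by_cases hj : j = i
    · subst hj
      exact ⟨1, by simp⟩
    · exact ⟨0, by simp [hj]⟩
  have e : ((s, t, w) : ℝ × ℝ × (Fin n → ℝ)) = s • ((1 : ℝ), (0 : ℝ), (0 : Fin n → ℝ)) +
      t • ((0 : ℝ), (1 : ℝ), (0 : Fin n → ℝ)) +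
      ∑ i, w i • ((0 : ℝ), (0 : ℝ), (Pi.single i 1 : Fin n → ℝ)) := by
    refine Prod.ext ?_ (Prod.ext ?_ ?_)
    · simp [Prod.fst_sum]
    · simp [Prod.fst_sum, Prod.snd_sum]
    · funext j
      simp [Prod.snd_sum, Finset.sum_apply, Pi.single_apply]
  rw [e]
  refine Submodule.add_mem _ (Submodule.add_mem _ (Submodule.smul_mem _ _ (hmem _ h1))
    (Submodule.smul_mem _ _ (hmem _ h2))) (Submodule.sum_mem _ fun i _ =>
    Submodule.smul_mem _ _ (hmem _ (h3 i)))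

lemma lat (hG : G.IsSymm) {d : ℤ} (hd : d ≠ 0) : Lat (hyp (gram G)) (dL n d) where
  bil := (gram_bil hG).hyp
  cont := by
    unfold hyp
    have h1 : Continuous fun w : ℝ × ℝ × (Fin n → ℝ) => gram G w.2.2 w.2.2 :=
      gram_cont.comp (by fun_prop)
    have h2 : Continuous fun w : ℝ × ℝ × (Fin n → ℝ) => w.1 * w.2.1 + w.2.1 * w.1 := by
      fun_prop
    exact h2.add h1
  int := by
    intro u hu
    obtain ⟨y, hy, rfl⟩ := mem_dL.mp hu
    obtain ⟨m, hm⟩ := hyp_int (gram_int (G := G)) y hy y hy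
    refine ⟨d * (d * m), ?_⟩
    rw [(gram_bil hG).hyp.smul_left, (gram_bil hG).hyp.smul_right, hm]
    push_cast
    rfl
  span := dL_span hd
  pair := by
    refine ⟨((d : ℝ), 0, 0), mem_dL.mpr ⟨(1, 0, 0), ⟨⟨1, by simp⟩, ⟨0, by simp⟩,
      (intL n).zero_mem⟩, by simp⟩, ((0 : ℝ), (d : ℝ), 0), mem_dL.mpr ⟨(0, 1, 0), ⟨⟨0, by simp⟩,
      ⟨1, by simp⟩, (intL n).zero_mem⟩, by simp⟩, d * d, mul_ne_zero hd hd, ?_, ?_, ?_⟩
    · simp [hyp, (gram_bil hG).zero_left]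
    · simp [hyp, (gram_bil hG).zero_left]
    · simp [hyp, (gram_bil hG).zero_left]

end gram

end Pool.Agent.LI39
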