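import Pool.Agent.LI39.Accum
import Pool.Agent.LI39.Main

/-!
Rational lines are isolated in a closed invariant set that does not contain a whole level set.
-/

namespace Pool.Agent.LI39

open Filter Topology

variable {W : Type*} [AddCommGroup W] [Module ℝ W]
variable {B : W → W → ℝ} {Λ : AddSubgroup W} {d : ℤ} {Z : Set (ℝ × ℝ × (ℝ × ℝ × W))}

/-- Interchange of the isotropic vectors of the second plane. -/
def sw2 (v : ℝ × ℝ × (ℝ × ℝ × W)) : ℝ × ℝ × (ℝ × ℝ × W) := (v.1, v.2.1, sw v.2.2)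

omit [Module ℝ W] in
lemma RatDir.div {a b p r : ℝ} {y : W} (h : RatDir B Λ (a, b, (p, r, y))) :
    (∃ q : ℚ, b / a = q) ∧ (∃ q : ℚ, p / a = q) ∧ (∃ q : ℚ, r / a = q) ∧
    ∀ u ∈ Λ, ∃ q : ℚ, B y u / a = q := by
  obtain ⟨t, ht, ⟨q1, h1⟩, ⟨q2, h2⟩, ⟨q3, h3⟩, ⟨q4, h4⟩, h5⟩ := h
  have h1' : t * a = q1 := h1
  have key : ∀ s : ℝ, (∃ q : ℚ, t * s = q) → ∃ q : ℚ, s / a = q := by
    rintro s ⟨q, hq⟩
    refine ⟨q / q1, ?_⟩
    push_cast
    rw [← hq, ← h1', mul_div_mul_left _ _ ht]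
  exact ⟨key b ⟨q2, h2⟩, key p ⟨q3, h3⟩, key r ⟨q4, h4⟩, fun u hu => key _ (h5 u hu)⟩

omit [Module ℝ W] in
lemma RatDir.sw {v : ℝ × ℝ × (ℝ × ℝ × W)} (h : RatDir B Λ v) :
    RatDir B Λ (Pool.Agent.LI39.sw v) := by
  obtain ⟨t, ht, h1, h2, h3, h4, h5⟩ := h
  exact ⟨t, ht, h2, h1, h3, h4, h5⟩

omit [Module ℝ W] in
lemma RatDir.sw2 {v : ℝ × ℝ × (ℝ × ℝ × W)} (h : RatDir B Λ v) :
    RatDir B Λ (Pool.Agent.LI39.sw2 v) := by
  obtain ⟨t, ht, h1, h2, h3, h4, h5⟩ := h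
  exact ⟨t, ht, h1, h2, h4, h3, h5⟩

lemma pair_rat (hB : SymBilin B) (hint : ∀ u ∈ Λ, ∃ m : ℤ, B u u = m) {u u' : W} (hu : u ∈ Λ)
    (hu' : u' ∈ Λ) : ∃ q : ℚ, B u u' = q := by
  obtain ⟨m1, h1⟩ := hint u hu
  obtain ⟨m2, h2⟩ := hint u' hu'
  obtain ⟨m3, h3⟩ := hint (u + u') (Λ.add_mem hu hu')
  refine ⟨(m3 - m1 - m2) / 2, ?_⟩
  push_cast
  rw [← h1, ← h2, ← h3, hB.add_left, hB.add_right, hB.add_right, hB.symm u' u]
  ring

lemma RatDir.e2 (hB : SymBilin B) (hint : ∀ u ∈ Λ, ∃ m : ℤ, B u u = m)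
    {v : ℝ × ℝ × (ℝ × ℝ × W)} (h : RatDir B Λ v) {u : W} (hu : u ∈ Λ) :
    RatDir B Λ (v.1, v.2.1, ev B u v.2.2) := by
  obtain ⟨t, ht, h1, h2, ⟨q3, h3⟩, ⟨q4, h4⟩, h5⟩ := h
  refine ⟨t, ht, h1, h2, ⟨q3, h3⟩, ?_, ?_⟩
  · obtain ⟨q, hq⟩ := h5 u hu
    obtain ⟨m, hm⟩ := hint u hu
    refine ⟨q4 + q - m / 2 * q3, ?_⟩
    push_cast
    rw [← h4, ← hq, ← h3, ← hm]
    simp only [ev]
    ring
  · intro u' hu'
    obtain ⟨q, hq⟩ := h5 u' hu'
    obtain ⟨m, hm⟩ := pair_rat hB hint hu hu'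
    refine ⟨q - m * q3, ?_⟩
    push_cast
    rw [← hq, ← h3, ← hm]
    simp only [ev, hB.sub_left, hB.smul_left]
    ring

lemma RatDir.e1 (hB : SymBilin B) (hint : ∀ u ∈ Λ, ∃ m : ℤ, B u u = m)
    {v : ℝ × ℝ × (ℝ × ℝ × W)} (h : RatDir B Λ v) {u : W} (hu : u ∈ Λ) (i j : ℤ) :
    RatDir B Λ (ev (hyp B) ((d : ℝ) * i, (d : ℝ) * j, u) v) := by
  obtain ⟨t, ht, ⟨q1, h1⟩, ⟨q2, h2⟩, ⟨q3, h3⟩, ⟨q4, h4⟩, h5⟩ := h
  refine ⟨t, ht, ⟨q1, h1⟩, ?_, ?_, ?_, ?_⟩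
  · obtain ⟨q, hq⟩ := h5 u hu
    obtain ⟨m, hm⟩ := hint u hu
    refine ⟨q2 + (q3 * (d * j) + q4 * (d * i) + q) -
      (d * i * (d * j) + d * j * (d * i) + m) / 2 * q1, ?_⟩
    push_cast
    rw [← h1, ← h2, ← h3, ← h4, ← hq, ← hm]
    simp only [ev, hyp]
    ring
  · refine ⟨q3 - q1 * (d * i), ?_⟩
    push_cast
    rw [← h1, ← h3]
    simp only [ev, Prod.fst_sub, Prod.smul_fst, smul_eq_mul]
    ring
  · refine ⟨q4 - q1 * (d * j), ?_⟩
    push_cast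
    rw [← h1, ← h4]
    simp only [ev, Prod.fst_sub, Prod.smul_fst, smul_eq_mul, Prod.snd_sub, Prod.smul_snd]
    ring
  · intro u' hu'
    obtain ⟨q, hq⟩ := h5 u' hu'
    obtain ⟨m, hm⟩ := pair_rat hB hint hu hu'
    refine ⟨q - m * q1, ?_⟩
    push_cast
    rw [← hq, ← h1, ← hm]
    simp only [ev, Prod.snd_sub, Prod.smul_snd, hB.sub_left, hB.smul_left]
    ring

variable [TopologicalSpace W] [ContinuousAdd W] [ContinuousSMul ℝ W]

omit [ContinuousAdd W] [ContinuousSMul ℝ W] in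
lemma Inv.swap2 (h : Inv B Λ d Z) : Inv B Λ d (sw2 ⁻¹' Z) where
  closed := by
    refine h.closed.preimage ?_
    unfold sw2 sw
    fun_prop
  e1 z hz i j u hu := by
    have h1 := h.e1 (sw2 z) hz j i u hu
    show sw2 (ev (hyp B) ((d : ℝ) * i, (d : ℝ) * j, u) z) ∈ Z
    convert h1 using 1
    simp only [ev, sw2, sw, hyp]
    refine Prod.ext rfl (Prod.ext ?_ (Prod.ext ?_ (Prod.ext ?_ ?_)))
    · ring
    · rfl
    · rfl
    · rfl
  f1 z hz i j u hu := by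
    have h1 := h.f1 (sw2 z) hz j i u hu
    show sw2 (fv (hyp B) ((d : ℝ) * i, (d : ℝ) * j, u) z) ∈ Z
    convert h1 using 1
    simp only [fv, sw2, sw, hyp]
    refine Prod.ext ?_ (Prod.ext rfl (Prod.ext ?_ (Prod.ext ?_ ?_)))
    · ring
    · rfl
    · rfl
    · rfl
  e2 z hz u hu := h.f2 (sw2 z) hz u hu
  f2 z hz u hu := h.e2 (sw2 z) hz u hu

omit [AddCommGroup W] [Module ℝ W] [TopologicalSpace W] [ContinuousAdd W] [ContinuousSMul ℝ W] in
lemma hyp_sw2 (v : ℝ × ℝ × (ℝ × ℝ × W)) :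
    hyp (hyp B) (sw2 v) (sw2 v) = hyp (hyp B) v v := by
  simp only [hyp, sw2, sw]
  ring

omit [ContinuousSMul ℝ W] in
lemma cont_left (hB : SymBilin B) (hc : Continuous fun w => B w w) (u : W) :
    Continuous fun w => B w u := by
  have h1 : (fun w => B w u) = fun w => (B (w + u) (w + u) - B w w - B u u) / 2 := by
    funext w
    rw [hB.add_left, hB.add_right, hB.add_right, hB.symm u w]
    ring
  rw [h1]
  have h2 : Continuous fun w => B (w + u) (w + u) := hc.comp (by fun_prop)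
  exact ((h2.sub hc).sub continuous_const).div_const 2

lemma ev_cont (hB : SymBilin B) (hc : Continuous fun w => B w w) (u : W) :
    Continuous (ev B u) := by
  have h1 : Continuous fun v : ℝ × ℝ × W => B v.2.2 u :=
    (cont_left hB hc u).comp (by fun_prop)
  have h2 : Continuous fun v : ℝ × ℝ × W => v.2.1 := by fun_prop
  have h3 : Continuous fun v : ℝ × ℝ × W => B u u / 2 * v.1 := by fun_prop
  have h4 : Continuous fun v : ℝ × ℝ × W => v.2.2 + (-v.1) • u := by fun_prop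
  have h5 : Continuous fun v : ℝ × ℝ × W => v.1 := by fun_prop
  have h6 := h5.prodMk (((h2.add h1).sub h3).prodMk h4)
  convert h6 using 1
  funext v
  simp only [ev, neg_smul, ← sub_eq_add_neg]
  rfl

variable [FirstCountableTopology W]
variable {F : Type*} [TopologicalSpace F] [FirstCountableTopology F]
variable {Y : Set (F × (ℝ × ℝ × (ℝ × ℝ × W)))}

lemma sw_cont : Continuous (sw : ℝ × ℝ × (ℝ × ℝ × W) → _) := by
  unfold sw
  fun_prop

lemma sw2_cont : Continuous (sw2 : ℝ × ℝ × (ℝ × ℝ × W) → _) := by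
  unfold sw2 sw
  fun_prop

lemma InvF.swap (h : InvF B Λ d Y) :
    InvF B Λ d ((fun z : F × (ℝ × ℝ × (ℝ × ℝ × W)) => (z.1, sw z.2)) ⁻¹' Y) where
  closed := h.closed.preimage (continuous_fst.prodMk (sw_cont.comp continuous_snd))
  inv f := (h.inv f).swap

lemma InvF.swap2 (h : InvF B Λ d Y) :
    InvF B Λ d ((fun z : F × (ℝ × ℝ × (ℝ × ℝ × W)) => (z.1, sw2 z.2)) ⁻¹' Y) where
  closed := h.closed.preimage (continuous_fst.prodMk (sw2_cont.comp continuous_snd))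
  inv f := (h.inv f).swap2

/-- The case of a nonzero first coordinate. -/
lemma InvF.isol_a (hL : Lat B Λ) (hZ : InvF B Λ d Y) (hd : d ≠ 0) (T : Finset W)
    (hT : ∀ u ∈ T, u ∈ Λ) (hnd : ∀ y : W, (∀ u ∈ T, B y u = 0) → y = 0) {f0 : F}
    {a b p r : ℝ} {y : W} (ha : a ≠ 0) (hr : RatDir B Λ (a, b, (p, r, y)))
    (hcl : ((f0, (a, b, (p, r, y))) : F × (ℝ × ℝ × (ℝ × ℝ × W))) ∈
      closure {z | z ∈ Y ∧ ¬ ∃ t : ℝ, z.2 = t • ((a, b, (p, r, y)) : ℝ × ℝ × (ℝ × ℝ × W))})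
    (w : ℝ × ℝ × (ℝ × ℝ × W))
    (hw : hyp (hyp B) w w = hyp (hyp B) (a, b, (p, r, y)) (a, b, (p, r, y))) : (f0, w) ∈ Y := by
  have hB := hL.bil
  obtain ⟨hqb, hqp, hqr, hqy⟩ := hr.div
  set v : ℝ × ℝ × (ℝ × ℝ × W) := (a, b, (p, r, y)) with hv
  set P1 : Set (F × (ℝ × ℝ × (ℝ × ℝ × W))) :=
    {z | z ∈ Y ∧ z.2.1 ≠ 0 ∧ z.2.2.2.1 / z.2.1 ≠ p / a} with hP1
  set P2 : Set (F × (ℝ × ℝ × (ℝ × ℝ × W))) :=
    {z | z ∈ Y ∧ z.2.1 ≠ 0 ∧ z.2.2.2.2.1 / z.2.1 ≠ r / a} with hP2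
  set P3 : W → Set (F × (ℝ × ℝ × (ℝ × ℝ × W))) := fun u => {z | z ∈ Y ∧ z.2.1 ≠ 0 ∧
    z.2.2.2.1 / z.2.1 = p / a ∧ z.2.2.2.2.1 / z.2.1 = r / a ∧
    B z.2.2.2.2.2 u / z.2.1 ≠ B y u / a} with hP3
  set P4 : Set (F × (ℝ × ℝ × (ℝ × ℝ × W))) := {z | z ∈ Y ∧ z.2.1 ≠ 0 ∧
    z.2.2.2.1 / z.2.1 = p / a ∧ z.2.2.2.2.1 / z.2.1 = r / a ∧ z.2.2.1 / z.2.1 ≠ b / a} with hP4
  have hopen : IsOpen {z : F × (ℝ × ℝ × (ℝ × ℝ × W)) | z.2.1 ≠ 0} :=
    isOpen_ne_fun (by fun_prop) (by fun_prop)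
  have h1 : (f0, v) ∈ closure ({z : F × (ℝ × ℝ × (ℝ × ℝ × W)) | z.2.1 ≠ 0} ∩
      {z | z ∈ Y ∧ ¬ ∃ t : ℝ, z.2 = t • v}) := hopen.inter_closure ⟨ha, hcl⟩
  have hsub : ({z : F × (ℝ × ℝ × (ℝ × ℝ × W)) | z.2.1 ≠ 0} ∩
      {z | z ∈ Y ∧ ¬ ∃ t : ℝ, z.2 = t • v}) ⊆ P1 ∪ (P2 ∪ ((⋃ u ∈ T, P3 u) ∪ P4)) := by
    rintro ⟨f, z⟩ ⟨hz1, hzZ, hz⟩
    have hz1' : z.1 ≠ 0 := hz1
    have hz' : ¬ ∃ t : ℝ, z = t • v := hz
    by_cases c1 : z.2.2.1 / z.1 = p / a
    · by_cases c2 : z.2.2.2.1 / z.1 = r / a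
      · by_cases c3 : ∃ u ∈ T, B z.2.2.2.2 u / z.1 ≠ B y u / a
        · obtain ⟨u, hu, hc⟩ := c3
          right; right; left
          exact Set.mem_biUnion hu ⟨hzZ, hz1', c1, c2, hc⟩
        · push Not at c3
          right; right; right
          refine ⟨hzZ, hz1', c1, c2, fun c4 => hz' ⟨z.1 / a, ?_⟩⟩
          have c4' : z.2.1 / z.1 = b / a := c4
          have hy3 : z.2.2.2.2 + (-(z.1 / a)) • y = 0 := by
            apply hnd
            intro u hu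
            rw [hB.add_left, hB.smul_left]
            have := c3 u hu
            field_simp at this ⊢
            linarith
          refine Prod.ext ?_ (Prod.ext ?_ (Prod.ext ?_ (Prod.ext ?_ ?_)))
          · show z.1 = z.1 / a * a
            field_simp
          · show z.2.1 = z.1 / a * b
            field_simp at c4' ⊢
            linarith
          · show z.2.2.1 = z.1 / a * p
            field_simp at c1 ⊢
            linarith
          · show z.2.2.2.1 = z.1 / a * r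
            field_simp at c2 ⊢
            linarith
          · show z.2.2.2.2 = (z.1 / a) • y
            rw [neg_smul, ← sub_eq_add_neg] at hy3
            exact sub_eq_zero.mp hy3
      · right; left
        exact ⟨hzZ, hz1', c2⟩
    · left
      exact ⟨hzZ, hz1', c1⟩
  have h2 := closure_mono hsub h1
  rw [closure_union, closure_union, closure_union, Finset.closure_biUnion] at h2
  -- the second case as a lemma
  have case2 : ∀ r' : ℝ, ∀ y' : W, ∀ b' : ℝ, (∃ q : ℚ, r' / a = q) →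
      (∀ u ∈ Λ, ∃ q : ℚ, B y' u / a = q) →
      ((f0, (a, b', (p, r', y'))) : F × (ℝ × ℝ × (ℝ × ℝ × W))) ∈
        closure {z | z ∈ Y ∧ z.2.1 ≠ 0 ∧ z.2.2.2.2.1 / z.2.1 ≠ r' / a} →
      hyp (hyp B) w w = hyp (hyp B) (a, b', (p, r', y')) (a, b', (p, r', y')) →
      (f0, w) ∈ Y := by
    intro r' y' b' hqr' hqy' hcl' hw'
    have h3 : ((f0, (a, b', (r', p, y'))) : F × (ℝ × ℝ × (ℝ × ℝ × W))) ∈
        closure {z | z ∈ ((fun z : F × (ℝ × ℝ × (ℝ × ℝ × W)) => (z.1, sw2 z.2)) ⁻¹' Y) ∧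
          z.2.1 ≠ 0 ∧ z.2.2.2.1 / z.2.1 ≠ r' / a} := by
      refine map_mem_closure (f := fun z : F × (ℝ × ℝ × (ℝ × ℝ × W)) => (z.1, sw2 z.2))
        (continuous_fst.prodMk (sw2_cont.comp continuous_snd)) hcl' ?_
      rintro z ⟨hz1, hz2, hz3⟩
      exact ⟨hz1, hz2, hz3⟩
    have h4 := (hZ.swap2).accum hL hd ha h3 hqr' hqy' (sw2 w) (by
      rw [hyp_sw2, hw']
      exact (hyp_sw2 (a, b', (p, r', y'))).symm)
    exact h4
  rcases h2 with h2 | h2 | h2 | h2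
  · exact hZ.accum hL hd ha h2 hqp hqy w hw
  · exact case2 r y b hqr hqy h2 hw
  · simp only [Set.mem_iUnion] at h2
    obtain ⟨u, hu, h3⟩ := h2
    have huΛ := hT u hu
    have hf : Continuous fun z : F × (ℝ × ℝ × (ℝ × ℝ × W)) =>
        (z.1, (z.2.1, z.2.2.1, ev B u z.2.2.2)) := by
      have h5 : Continuous fun z : F × (ℝ × ℝ × (ℝ × ℝ × W)) => ev B u z.2.2.2 :=
        (ev_cont hB hL.cont u).comp (by fun_prop)
      exact continuous_fst.prodMk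
        ((by fun_prop : Continuous fun z : F × (ℝ × ℝ × (ℝ × ℝ × W)) => z.2.1).prodMk
        ((by fun_prop : Continuous fun z : F × (ℝ × ℝ × (ℝ × ℝ × W)) => z.2.2.1).prodMk h5))
    have h4 : ((f0, (a, b, (p, r + B y u - B u u / 2 * p, y - p • u))) :
        F × (ℝ × ℝ × (ℝ × ℝ × W))) ∈
        closure {z | z ∈ Y ∧ z.2.1 ≠ 0 ∧
          z.2.2.2.2.1 / z.2.1 ≠ (r + B y u - B u u / 2 * p) / a} := by
      refine map_mem_closure (f := fun z : F × (ℝ × ℝ × (ℝ × ℝ × W)) =>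
        (z.1, (z.2.1, z.2.2.1, ev B u z.2.2.2))) hf h3 ?_
      rintro ⟨f, z⟩ ⟨hz1, hz2, hz3, hz4, hz5⟩
      refine ⟨(hZ.inv f).e2 z hz1 u huΛ, hz2, ?_⟩
      show (z.2.2.2.1 + B z.2.2.2.2 u - B u u / 2 * z.2.2.1) / z.1 ≠ _
      intro h6
      apply hz5
      have hz3' : z.2.2.1 / z.1 = p / a := hz3
      have hz4' : z.2.2.2.1 / z.1 = r / a := hz4
      show B z.2.2.2.2 u / z.1 = _
      have e1 : (z.2.2.2.1 + B z.2.2.2.2 u - B u u / 2 * z.2.2.1) / z.1 =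
          z.2.2.2.1 / z.1 + B z.2.2.2.2 u / z.1 - B u u / 2 * (z.2.2.1 / z.1) := by ring
      have e2 : (r + B y u - B u u / 2 * p) / a = r / a + B y u / a - B u u / 2 * (p / a) := by
        ring
      rw [e1, e2, hz3', hz4'] at h6
      linarith
    have hr' := hr.e2 hB hL.int huΛ
    have hdiv : (∃ q : ℚ, b / a = q) ∧ (∃ q : ℚ, p / a = q) ∧
        (∃ q : ℚ, (r + B y u - B u u / 2 * p) / a = q) ∧
        ∀ u' ∈ Λ, ∃ q : ℚ, B (y - p • u) u' / a = q := hr'.div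
    refine case2 _ _ b hdiv.2.2.1 hdiv.2.2.2 h4 ?_
    rw [hw]
    have := hyp_ev hB u (p, r, y) (p, r, y)
    show a * b + b * a + hyp B (p, r, y) (p, r, y) = a * b + b * a +
      hyp B (ev B u (p, r, y)) (ev B u (p, r, y))
    rw [this]
  · -- the last case
    have hdR : (d : ℝ) ≠ 0 := by exact_mod_cast hd
    obtain ⟨i, hi⟩ : ∃ i : ℤ, p - a * (d * i) ≠ 0 := by
      by_contra hcon
      push Not at hcon
      have e0 := hcon 0
      have e1 := hcon 1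
      apply ha
      have : a * d = 0 := by
        push_cast at e0 e1
        linarith
      exact (mul_eq_zero.mp this).resolve_right hdR
    obtain ⟨j, hj⟩ : ∃ j : ℤ, b + (p * (d * j) + r * (d * i)) - (d * i) * (d * j) * a ≠ 0 := by
      by_contra hcon
      push Not at hcon
      have e0 := hcon 0
      have e1 := hcon 1
      have : (p - a * (d * i)) * d = 0 := by
        push_cast at e0 e1
        linarith
      exact hi ((mul_eq_zero.mp this).resolve_right hdR)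
    set U : ℝ × ℝ × W := ((d : ℝ) * i, (d : ℝ) * j, 0) with hU
    set C : ℝ := p / a * (d * j) + r / a * (d * i) - (d * i) * (d * j) with hC
    have hcontE : Continuous (ev (hyp B) U) := ev_cont hB.hyp (hyp_cont hL.cont) U
    have hf : Continuous fun z : ℝ × ℝ × (ℝ × ℝ × W) => sw (ev (hyp B) U z) :=
      sw_cont.comp hcontE
    have hfF : Continuous fun z : F × (ℝ × ℝ × (ℝ × ℝ × W)) => (z.1, sw (ev (hyp B) U z.2)) :=
      continuous_fst.prodMk (hf.comp continuous_snd)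
    have hev : ∀ z : ℝ × ℝ × (ℝ × ℝ × W), sw (ev (hyp B) U z) =
        (z.2.1 + (z.2.2.1 * (d * j) + z.2.2.2.1 * (d * i)) - (d * i) * (d * j) * z.1, z.1,
          (z.2.2.1 - z.1 * (d * i), z.2.2.2.1 - z.1 * (d * j), z.2.2.2.2)) := by
      intro z
      simp only [sw, ev, hyp, hU, hB.zero_right]
      refine Prod.ext ?_ (Prod.ext rfl (Prod.ext ?_ (Prod.ext ?_ ?_)))
      · simp only
        ring
      · simp
      · simp
      · simp
    have hopen2 : IsOpen {z : F × (ℝ × ℝ × (ℝ × ℝ × W)) | (sw (ev (hyp B) U z.2)).1 ≠ 0} :=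
      isOpen_ne_fun (continuous_fst.comp (hf.comp continuous_snd)) continuous_const
    have hvU : (f0, v) ∈ {z : F × (ℝ × ℝ × (ℝ × ℝ × W)) | (sw (ev (hyp B) U z.2)).1 ≠ 0} := by
      show (sw (ev (hyp B) U v)).1 ≠ 0
      rw [hev]
      exact hj
    have h5 : (f0, v) ∈ closure ({z : F × (ℝ × ℝ × (ℝ × ℝ × W)) |
        (sw (ev (hyp B) U z.2)).1 ≠ 0} ∩ P4) := hopen2.inter_closure ⟨hvU, h2⟩
    have h6 : (f0, sw (ev (hyp B) U v)) ∈ closure {z | z ∈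
        ((fun z : F × (ℝ × ℝ × (ℝ × ℝ × W)) => (z.1, sw z.2)) ⁻¹' Y) ∧ z.2.1 ≠ 0 ∧
        z.2.2.2.1 / z.2.1 ≠ (sw (ev (hyp B) U v)).2.2.1 / (sw (ev (hyp B) U v)).1} := by
      refine map_mem_closure (f := fun z : F × (ℝ × ℝ × (ℝ × ℝ × W)) =>
        (z.1, sw (ev (hyp B) U z.2))) hfF h5 ?_
      rintro ⟨f, z⟩ ⟨hz0, hz1, hz2', hz3', hz4', hz5'⟩
      have hz2 : z.1 ≠ 0 := hz2'
      have hz3 : z.2.2.1 / z.1 = p / a := hz3'
      have hz4 : z.2.2.2.1 / z.1 = r / a := hz4'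
      have hz5 : z.2.1 / z.1 ≠ b / a := hz5'
      refine ⟨(hZ.inv f).e1 z hz1 i j 0 Λ.zero_mem, hz0, ?_⟩
      have hz0' : (sw (ev (hyp B) U z)).1 ≠ 0 := hz0
      have hvU' : (sw (ev (hyp B) U v)).1 ≠ 0 := hvU
      show (sw (ev (hyp B) U z)).2.2.1 / (sw (ev (hyp B) U z)).1 ≠ _
      rw [hev] at hz0' hvU'
      rw [hev, hev]
      simp only [hv] at hz0' hvU' ⊢
      -- normalised quantities
      have e1 : z.2.2.1 = p / a * z.1 := by rw [← hz3]; field_simp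
      have e2 : z.2.2.2.1 = r / a * z.1 := by rw [← hz4]; field_simp
      have f1 : z.2.1 + (z.2.2.1 * (d * j) + z.2.2.2.1 * (d * i)) - (d * i) * (d * j) * z.1 =
          z.1 * (z.2.1 / z.1 + C) := by
        rw [e1, e2, hC]
        field_simp
        ring
      have f2 : b + (p * (d * j) + r * (d * i)) - (d * i) * (d * j) * a = a * (b / a + C) := by
        rw [hC]
        field_simp
        ring
      have f3 : z.2.2.1 - z.1 * (d * i) = z.1 * (p / a - d * i) := by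
        rw [e1]
        ring
      have f4 : p - a * (d * i) = a * (p / a - d * i) := by field_simp
      rw [f1, f2, f3, f4, mul_div_mul_left _ _ hz2, mul_div_mul_left _ _ ha]
      rw [f1] at hz0'
      rw [f2] at hvU'
      have g1 : z.2.1 / z.1 + C ≠ 0 := right_ne_zero_of_mul hz0'
      have g2 : b / a + C ≠ 0 := right_ne_zero_of_mul hvU'
      have g3 : p / a - d * i ≠ 0 := by
        rw [f4] at hi
        exact right_ne_zero_of_mul hi
      intro hcon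
      rw [div_eq_div_iff g1 g2] at hcon
      have := mul_left_cancel₀ g3 hcon
      apply hz5
      linarith
    have hr' : RatDir B Λ (sw (ev (hyp B) U v)) := (hr.e1 hB hL.int Λ.zero_mem i j).sw
    rw [hev] at h6 hr'
    have hdiv := hr'.div
    have h7 := hZ.swap.accum hL hd hj h6 hdiv.2.1 hdiv.2.2.2 (sw w) (by
      rw [hyp_sw, hw, ← hyp_ev hB.hyp U, ← hyp_sw (hyp B) (ev (hyp B) U (a, b, (p, r, y))), hev])
    exact h7

/-- A nonzero vector of rational direction that is a limit of vectors of other directions in a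
closed invariant family forces the family to contain its whole level set. -/
lemma InvF.isol (hL : Lat B Λ) (hZ : InvF B Λ d Y) (hd : d ≠ 0) (T : Finset W)
    (hT : ∀ u ∈ T, u ∈ Λ) (hnd : ∀ y : W, (∀ u ∈ T, B y u = 0) → y = 0) {f0 : F}
    {v : ℝ × ℝ × (ℝ × ℝ × W)} (hv0 : v ≠ 0) (hr : RatDir B Λ v)
    (hcl : (f0, v) ∈ closure {z | z ∈ Y ∧ ¬ ∃ t : ℝ, z.2 = t • v})
    (w : ℝ × ℝ × (ℝ × ℝ × W)) (hw : hyp (hyp B) w w = hyp (hyp B) v v) : (f0, w) ∈ Y := by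
  have hB := hL.bil
  obtain ⟨a, b, p, r, y⟩ := v
  by_cases ha : a = 0
  · by_cases hb : b = 0
    · subst ha
      subst hb
      have hex : ∃ i j : ℤ, ∃ u ∈ Λ, hyp B (p, r, y) ((d : ℝ) * i, (d : ℝ) * j, u) ≠ 0 := by
        by_contra hcon
        push Not at hcon
        apply hv0
        have hdR : (d : ℝ) ≠ 0 := by exact_mod_cast hd
        have hp := hcon 0 1 0 Λ.zero_mem
        have hr' := hcon 1 0 0 Λ.zero_mem
        simp only [hyp, Int.cast_zero, mul_zero, Int.cast_one, mul_one, add_zero,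
          hB.zero_right, zero_add] at hp hr'
        have hp0 : p = 0 := (mul_eq_zero.mp hp).resolve_right hdR
        have hr0 : r = 0 := (mul_eq_zero.mp hr').resolve_right hdR
        have hy0 : y = 0 := by
          apply hnd
          intro u hu
          have h := hcon 0 0 u (hT u hu)
          simpa only [hyp, Int.cast_zero, mul_zero, add_zero, zero_add] using h
        rw [hp0, hr0, hy0]
        rfl
      obtain ⟨i, j, u, hu, hne⟩ := hex
      set U : ℝ × ℝ × W := ((d : ℝ) * i, (d : ℝ) * j, u) with hU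
      set g := swL (ℝ × ℝ × W) * evL hB.hyp U * swL (ℝ × ℝ × W) with hg
      have hgf : ∀ z, g z = fv (hyp B) U z := fun z => rfl
      have hcont : Continuous fun z : F × (ℝ × ℝ × (ℝ × ℝ × W)) => (z.1, g z.2) :=
        continuous_fst.prodMk ((sw_cont.comp ((ev_cont hB.hyp (hyp_cont hL.cont) U).comp
          sw_cont)).comp continuous_snd)
      have e1 : g ((0 : ℝ), (0 : ℝ), (p, r, y)) = (hyp B (p, r, y) U, 0, (p, r, y)) := by
        rw [hgf]
        simp only [fv]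
        refine Prod.ext ?_ (Prod.ext rfl ?_)
        · simp
        · simp
      have hcl' : (f0, g ((0 : ℝ), (0 : ℝ), (p, r, y))) ∈ closure {z | z ∈ Y ∧
          ¬ ∃ t : ℝ, z.2 = t • g ((0 : ℝ), (0 : ℝ), (p, r, y))} := by
        refine map_mem_closure (f := fun z : F × (ℝ × ℝ × (ℝ × ℝ × W)) => (z.1, g z.2))
          hcont hcl ?_
        rintro ⟨f, z⟩ ⟨hz1, hz2⟩
        refine ⟨(hZ.inv f).f1 z hz1 i j u hu, ?_⟩
        rintro ⟨t, ht⟩
        apply hz2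
        refine ⟨t, ?_⟩
        have ht' : g z = t • g ((0 : ℝ), (0 : ℝ), (p, r, y)) := ht
        rw [← map_smul] at ht'
        exact g.injective ht'
      rw [e1] at hcl'
      refine hZ.isol_a hL hd T hT hnd hne ?_ hcl' w ?_
      · obtain ⟨t, ht, h1, h2, ⟨q3, h3⟩, ⟨q4, h4⟩, h5⟩ := hr
        refine ⟨t, ht, ?_, h2, ⟨q3, h3⟩, ⟨q4, h4⟩, h5⟩
        obtain ⟨q, hq⟩ := h5 u hu
        refine ⟨q3 * (d * j) + q4 * (d * i) + q, ?_⟩
        push_cast
        rw [← h3, ← h4, ← hq]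
        simp only [hyp, hU]
        ring
      · rw [hw]
        simp [hyp]
    · have hcl' : ((f0, (b, a, (p, r, y))) : F × (ℝ × ℝ × (ℝ × ℝ × W))) ∈ closure {z | z ∈
          ((fun z : F × (ℝ × ℝ × (ℝ × ℝ × W)) => (z.1, sw z.2)) ⁻¹' Y) ∧
          ¬ ∃ t : ℝ, z.2 = t • ((b, a, (p, r, y)) : ℝ × ℝ × (ℝ × ℝ × W))} := by
        refine map_mem_closure (f := fun z : F × (ℝ × ℝ × (ℝ × ℝ × W)) => (z.1, sw z.2))
          (continuous_fst.prodMk (sw_cont.comp continuous_snd)) hcl ?_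
        rintro z ⟨hz1, hz2⟩
        refine ⟨hz1, ?_⟩
        rintro ⟨t, ht⟩
        exact hz2 ⟨t, congrArg sw ht⟩
      refine hZ.swap.isol_a hL hd T hT hnd hb hr.sw hcl' (sw w) ?_
      rw [hyp_sw, hw]
      exact (hyp_sw (hyp B) (a, b, (p, r, y)) (a, b, (p, r, y))).symm
  · exact hZ.isol_a hL hd T hT hnd ha hr hcl w hw

end Pool.Agent.LI39
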