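import Pool.Agent.LI39.Dich2
import Pool.Agent.LI39.Isol

/-!
Finitely many exceptional lines up to the group, in every compact range of norms.
-/

namespace Pool.Agent.LI39

open Filter Topology

variable {n : ℕ} {G : Matrix (Fin n) (Fin n) ℤ}

lemma cosets (Γ : Subgroup (V n ≃ₗ[ℝ] V n)) (hΓ : Γ.relIndex (orth G) ≠ 0) :
    ∃ H : Set (V n ≃ₗ[ℝ] V n), H.Finite ∧ (∀ h ∈ H, h ∈ orth G) ∧
      ∀ g ∈ orth G, ∃ h ∈ H, ∃ γ ∈ Γ, γ ∈ orth G ∧ g = h * γ := by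
  have hfin : Finite ((orth G) ⧸ (Γ.subgroupOf (orth G))) := by
    apply Nat.finite_of_card_ne_zero
    exact hΓ
  refine ⟨Set.range fun q : (orth G) ⧸ (Γ.subgroupOf (orth G)) =>
    ((Quotient.out q : orth G) : V n ≃ₗ[ℝ] V n), Set.finite_range _, ?_, ?_⟩
  · rintro h ⟨q, rfl⟩
    exact (Quotient.out q : orth G).2
  · intro g hg
    set q : (orth G) ⧸ (Γ.subgroupOf (orth G)) := QuotientGroup.mk (⟨g, hg⟩ : orth G) with hq
    have h1 : (QuotientGroup.mk (Quotient.out q : orth G) : (orth G) ⧸ (Γ.subgroupOf (orth G))) =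
        QuotientGroup.mk (⟨g, hg⟩ : orth G) := by
      rw [QuotientGroup.out_eq']
    rw [QuotientGroup.eq] at h1
    refine ⟨_, ⟨q, rfl⟩, ((Quotient.out q : orth G) : V n ≃ₗ[ℝ] V n)⁻¹ * g, ?_, ?_, ?_⟩
    · exact h1
    · exact (orth G).mul_mem ((orth G).inv_mem (Quotient.out q : orth G).2) hg
    · rw [mul_inv_cancel_left]

/-- The finite set of test vectors for the last coordinates. -/
lemma test_set (hG : G.IsSymm) (hdet : G.det ≠ 0) {d : ℤ} (hd : d ≠ 0) :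
    ∃ T : Finset (ℝ × ℝ × (Fin n → ℝ)), (∀ u ∈ T, u ∈ dL n d) ∧
      ∀ y, (∀ u ∈ T, hyp (gram G) y u = 0) → y = 0 := by
  classical
  have hdR : (d : ℝ) ≠ 0 := by exact_mod_cast hd
  have hB := (gram_bil hG).hyp
  refine ⟨({(d : ℝ) • ((1 : ℝ), (0 : ℝ), (0 : Fin n → ℝ)),
    (d : ℝ) • ((0 : ℝ), (1 : ℝ), (0 : Fin n → ℝ))} : Finset _) ∪
    Finset.univ.image (fun i : Fin n => (d : ℝ) • ((0 : ℝ), (0 : ℝ),
      (Pi.single i 1 : Fin n → ℝ))), ?_, ?_⟩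
  · intro u hu
    rw [Finset.mem_union, Finset.mem_insert, Finset.mem_singleton, Finset.mem_image] at hu
    rcases hu with (rfl | rfl) | ⟨i, -, rfl⟩
    · exact mem_dL.mpr ⟨_, e_mem, rfl⟩
    · exact mem_dL.mpr ⟨_, f_mem, rfl⟩
    · exact mem_dL.mpr ⟨_, single_mem i, rfl⟩
  · intro y hy
    have h1 := hy ((d : ℝ) • ((1 : ℝ), (0 : ℝ), (0 : Fin n → ℝ))) (by simp)
    have h2 := hy ((d : ℝ) • ((0 : ℝ), (1 : ℝ), (0 : Fin n → ℝ))) (by simp)
    have h3 : ∀ i : Fin n, hyp (gram G) y ((d : ℝ) • ((0 : ℝ), (0 : ℝ),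
        (Pi.single i 1 : Fin n → ℝ))) = 0 := fun i =>
      hy _ (Finset.mem_union_right _ (Finset.mem_image_of_mem _ (Finset.mem_univ i)))
    rw [hB.smul_right] at h1 h2
    have h1' := (mul_eq_zero.mp h1).resolve_left hdR
    have h2' := (mul_eq_zero.mp h2).resolve_left hdR
    have h3' : ∀ i : Fin n, hyp (gram G) y ((0 : ℝ), (0 : ℝ),
        (Pi.single i 1 : Fin n → ℝ)) = 0 := by
      intro i
      have := h3 i
      rw [hB.smul_right] at this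
      exact (mul_eq_zero.mp this).resolve_left hdR
    have hB0 := gram_bil hG
    simp only [hyp, mul_zero, mul_one, add_zero, zero_add, hB0.zero_right] at h1' h2'
    refine Prod.ext h2' (Prod.ext h1' ?_)
    funext j
    have h4 := solve_coord (G := G) y.2.2 j
    have h5 : ∀ i, gram G y.2.2 (Pi.single i 1) = 0 := by
      intro i
      have := h3' i
      simpa [hyp] using this
    simp only [h5, zero_mul, Finset.sum_const_zero] at h4
    have hdetR : (G.det : ℝ) ≠ 0 := by exact_mod_cast hdet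
    exact (mul_eq_zero.mp h4).resolve_right hdetR

lemma ratDir_of_multiple {d : ℤ} {z : V n} (hz : z ∈ lattice n) {t : ℝ} (ht : t • z ≠ 0) :
    RatDir (hyp (gram G)) (dL n d) (t • z) := by
  have ht0 : t ≠ 0 := by
    rintro rfl
    exact ht (zero_smul _ _)
  obtain ⟨⟨a, ha⟩, ⟨b, hb⟩, ⟨p, hp⟩, ⟨r, hr⟩, hy⟩ := hz
  refine ⟨t⁻¹, inv_ne_zero ht0, ⟨a, ?_⟩, ⟨b, ?_⟩, ⟨p, ?_⟩, ⟨r, ?_⟩, ?_⟩
  · show t⁻¹ * (t * z.1) = _
    rw [inv_mul_cancel_left₀ ht0, ha]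
    simp
  · show t⁻¹ * (t * z.2.1) = _
    rw [inv_mul_cancel_left₀ ht0, hb]
    simp
  · show t⁻¹ * (t * z.2.2.1) = _
    rw [inv_mul_cancel_left₀ ht0, hp]
    simp
  · show t⁻¹ * (t * z.2.2.2.1) = _
    rw [inv_mul_cancel_left₀ ht0, hr]
    simp
  · intro u hu
    obtain ⟨u', hu', rfl⟩ := mem_dL.mp hu
    obtain ⟨m, hm⟩ := hyp_int (gram_int (G := G)) _ hy u' hu'
    refine ⟨d * m, ?_⟩
    have e : hyp (gram G) (t • z).2.2.2.2 ((d : ℝ) • u') =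
        t * (d * hyp (gram G) z.2.2.2.2 u') := by
      simp only [hyp, gram, Prod.smul_fst, Prod.smul_snd, Pi.smul_apply, smul_eq_mul,
        mul_add, Finset.mul_sum]
      congr 1
      · ring
      · refine Finset.sum_congr rfl fun i _ => Finset.sum_congr rfl fun j _ => ?_
        ring
    rw [e, inv_mul_cancel_left₀ ht0, hm]
    push_cast
    rfl

/-- Main finiteness statement for closed invariant families. -/
theorem finite_lines (hG : G.IsSymm) (hdet : G.det ≠ 0) (Γ : Subgroup (V n ≃ₗ[ℝ] V n))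
    (hΓ : Γ.relIndex (orth G) ≠ 0) {F : Type*} [TopologicalSpace F] [FirstCountableTopology F]
    {Z : Set (F × V n)} (hcl : IsClosed Z) (hinv : ∀ g ∈ Γ, ∀ f x, (f, x) ∈ Z → (f, g x) ∈ Z)
    {q : F → ℝ} (hq : Continuous q) {K : Set F} (hK : IsCompact K)
    (h0 : ∀ f ∈ K, (f, (0 : V n)) ∉ Z)
    (hlev : ∀ f ∈ K, ∀ c : ℝ, 0 < q f + c → ∃ w : V n, form G w w = c ∧ (f, w) ∉ Z)
    {ε : ℝ} (hε : 0 < ε) :
    ∃ S : Set (V n), S.Finite ∧ S ⊆ lattice n ∧ ∀ f ∈ K, ∀ v, (f, v) ∈ Z →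
      ε ≤ q f + form G v v → form G v v ≤ 1 / ε →
      ∃ γ ∈ Γ, γ ∈ orth G ∧ ∃ s ∈ S, ∃ t : ℝ, v = t • γ s := by
  classical
  have hB := form_bil hG
  obtain ⟨d, hd, hI⟩ := inv_of_group hG Γ hΓ
  have hsl : ∀ f : F, IsClosed {x | (f, x) ∈ Z} := fun f => hcl.preimage (by fun_prop)
  have hIF : InvF (hyp (gram G)) (dL n d) d Z :=
    ⟨hcl, fun f => hI _ (hsl f) (fun g hg x hx => hinv g hg f x hx)⟩
  have hL := lat hG hd
  obtain ⟨T, hT, hTnd⟩ := test_set hG hdet hd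
  -- all vectors in the range are multiples of lattice vectors
  have hrat : ∀ f ∈ K, ∀ v, (f, v) ∈ Z → ε ≤ q f + form G v v →
      ∃ (t : ℝ) (z : V n), z ∈ lattice n ∧ v = t • z := by
    intro f hf v hv h1
    by_contra hcon
    obtain ⟨w, hw, hwZ⟩ := hlev f hf (form G v v) (lt_of_lt_of_le hε h1)
    exact hwZ (level_set hG hdet Γ hΓ (hsl f) (fun g hg x hx => hinv g hg f x hx) hv hcon w hw)
  -- isolated lines
  have hiso : ∀ a : F × V n, a.1 ∈ K → a ∈ Z → ε ≤ q a.1 + form G a.2 a.2 →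
      ∃ U ∈ 𝓝 a, ∀ x ∈ U, x ∈ Z → ∃ t : ℝ, x.2 = t • a.2 := by
    rintro ⟨f, v⟩ hf hv h1
    obtain ⟨t, z, hz, htz⟩ := hrat f hf v hv h1
    have htz' : v = t • z := htz
    subst htz'
    have hne : t • z ≠ 0 := by
      intro h
      rw [h] at hv
      exact h0 f hf hv
    obtain ⟨w, hw, hwZ⟩ := hlev f hf (form G (t • z) (t • z)) (lt_of_lt_of_le hε h1)
    have hnot : (f, t • z) ∉ closure {x | x ∈ Z ∧ ¬ ∃ t' : ℝ, x.2 = t' • (t • z)} :=
      fun hcl' => hwZ (hIF.isol hL hd T hT hTnd hne (ratDir_of_multiple hz hne) hcl' w hw)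
    rw [mem_closure_iff_nhds] at hnot
    push Not at hnot
    obtain ⟨U, hU, hUe⟩ := hnot
    refine ⟨U, hU, fun x hx hxZ => ?_⟩
    by_contra hcon
    have hxm : x ∈ U ∩ {x | x ∈ Z ∧ ∀ t' : ℝ, x.2 ≠ t' • (t • z)} :=
      ⟨hx, hxZ, fun t' h => hcon ⟨t', h⟩⟩
    rw [hUe] at hxm
    exact hxm
  -- a bound for the norms
  obtain ⟨M, hM⟩ : ∃ M : ℝ, ∀ f ∈ K, q f ≤ M := by
    obtain ⟨M, hM⟩ := (hK.image hq).bddAbove
    exact ⟨M, fun f hf => hM ⟨f, hf, rfl⟩⟩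
  obtain ⟨R, S0, hS0, hS0m, hdich⟩ := dich hG hdet (max |M| |1 / ε|)
  obtain ⟨H, hH, hHorth, hcos⟩ := cosets (G := G) Γ hΓ
  -- the compact set
  have hcontg : ∀ g : V n ≃ₗ[ℝ] V n, Continuous fun x => g x := fun g =>
    LinearMap.continuous_of_finiteDimensional (g : V n →ₗ[ℝ] V n)
  set D : Set (V n) := ⋃ h ∈ H, (fun x => (h⁻¹ : V n ≃ₗ[ℝ] V n) x) '' Metric.closedBall 0 R
    with hD
  have hDc : IsCompact D := hH.isCompact_biUnion fun h _ =>
    (isCompact_closedBall _ _).image (hcontg h⁻¹)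
  have hformc : Continuous fun v : V n => form G v v := hyp_cont (hyp_cont hL.cont)
  have hformc2 : Continuous fun a : F × V n => form G a.2 a.2 := hformc.comp continuous_snd
  have hqc2 : Continuous fun a : F × V n => q a.1 := hq.comp continuous_fst
  set A : Set (F × V n) := (K ×ˢ D) ∩ (Z ∩ {a | ε ≤ q a.1 + form G a.2 a.2}) with hA
  have hAc : IsCompact A :=
    (hK.prod hDc).inter_right (hcl.inter (isClosed_le continuous_const (hqc2.add hformc2)))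
  choose! U hU hUline using hiso
  obtain ⟨E, hE, hAE⟩ := hAc.elim_nhds_subcover U (fun x hx => hU x hx.1.1 hx.2.1 hx.2.2)
  -- the choice of lattice vectors
  set ρ : V n → V n := fun x => if h : ∃ z : V n, z ∈ lattice n ∧ ∃ t : ℝ, x = t • z
    then h.choose else 0 with hρ
  have hρmem : ∀ x, ρ x ∈ lattice n := by
    intro x
    by_cases h : ∃ z : V n, z ∈ lattice n ∧ ∃ t : ℝ, x = t • z
    · simp only [hρ, dif_pos h]
      exact h.choose_spec.1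
    · simp only [hρ, dif_neg h]
      exact (lattice n).zero_mem
  have hρs : ∀ x, (∃ (t : ℝ) (z : V n), z ∈ lattice n ∧ x = t • z) → ∃ t : ℝ, x = t • ρ x := by
    rintro x ⟨t, z, hz, hx⟩
    have h : ∃ z : V n, z ∈ lattice n ∧ ∃ t : ℝ, x = t • z := ⟨z, hz, t, hx⟩
    have e : ρ x = h.choose := by simp only [hρ, dif_pos h]
    rw [e]
    exact h.choose_spec.2
  refine ⟨ρ '' (((fun a : F × V n => a.2) '' (E : Set (F × V n))) ∪
    ⋃ h ∈ H, (fun x => (h⁻¹ : V n ≃ₗ[ℝ] V n) x) '' S0), ?_, ?_, ?_⟩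
  · refine Set.Finite.image _ ((E.finite_toSet.image _).union ?_)
    exact hH.biUnion fun h _ => hS0.image _
  · rintro _ ⟨x, -, rfl⟩
    exact hρmem x
  · intro f hf v hv h1 h2
    obtain ⟨t, z, hz, rfl⟩ := hrat f hf v hv h1
    obtain ⟨g, hg, hcase⟩ := hdich z hz t (by
      rw [abs_le]
      constructor
      · have h3 := hM f hf
        have h4 := le_abs_self M
        have h5 := le_max_left |M| |1 / ε|
        linarith
      · have h4 := le_abs_self (1 / ε)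
        have h5 := le_max_right |M| |1 / ε|
        linarith)
    obtain ⟨h, hh, γ, hγ, hγo, rfl⟩ := hcos g hg
    have hγv : γ (t • z) = (h⁻¹ : V n ≃ₗ[ℝ] V n) ((h * γ) (t • z)) := by
      show _ = h.symm (h (γ (t • z)))
      rw [h.symm_apply_apply]
    have hback : ∀ x : V n, (∃ t' : ℝ, γ (t • z) = t' • x) → ∃ t' : ℝ, t • z = t' • γ⁻¹ x := by
      rintro x ⟨t', ht'⟩
      refine ⟨t', ?_⟩
      have e : t • z = γ⁻¹ (γ (t • z)) := (γ.symm_apply_apply _).symm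
      rw [e, ht', map_smul]
    rcases hcase with hcase | ⟨s, hs, t', hst⟩
    · have hmem : ((f, γ (t • z)) : F × V n) ∈ A := by
        refine ⟨⟨hf, ?_⟩, hinv γ hγ _ _ hv, ?_⟩
        · show γ (t • z) ∈ D
          rw [hγv]
          refine Set.mem_biUnion hh ⟨_, ?_, rfl⟩
          rw [mem_closedBall_zero_iff]
          exact hcase
        · show ε ≤ q f + form G (γ (t • z)) (γ (t • z))
          rw [hγo.1]
          exact h1
      obtain ⟨x, hxE, hxU⟩ := Set.mem_iUnion₂.mp (hAE hmem)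
      have hxA := hE x hxE
      obtain ⟨t1, ht1⟩ := hUline x hxA.1.1 hxA.2.1 hxA.2.2 _ hxU hmem.2.1
      obtain ⟨t2, ht2⟩ := hρs x.2 (hrat x.1 hxA.1.1 x.2 hxA.2.1 hxA.2.2)
      have ht1' : γ (t • z) = t1 • x.2 := ht1
      obtain ⟨t3, ht3⟩ := hback (ρ x.2) ⟨t1 * t2, by rw [ht1', mul_smul, ← ht2]⟩
      exact ⟨γ⁻¹, Γ.inv_mem hγ, (orth G).inv_mem hγo, ρ x.2,
        ⟨x.2, Or.inl ⟨x, hxE, rfl⟩, rfl⟩, t3, ht3⟩
    · obtain ⟨t1, z1, hz1, hs1⟩ := hS0m s hs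
      set x : V n := (h⁻¹ : V n ≃ₗ[ℝ] V n) s with hx
      have hxr : ∃ (t : ℝ) (z : V n), z ∈ lattice n ∧ x = t • z := by
        refine ⟨t1, (h⁻¹ : V n ≃ₗ[ℝ] V n) z1, ?_, ?_⟩
        · exact (((orth G).inv_mem (hHorth h hh)).2 z1).mpr hz1
        · rw [hx, hs1, map_smul]
      obtain ⟨t2, ht2⟩ := hρs x hxr
      obtain ⟨t3, ht3⟩ := hback (ρ x) ⟨t' * t2, by
        rw [hγv, hst, map_smul, mul_smul, ← ht2]⟩
      exact ⟨γ⁻¹, Γ.inv_mem hγ, (orth G).inv_mem hγo, ρ x,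
        ⟨x, Or.inr (Set.mem_biUnion hh ⟨s, hs, rfl⟩), rfl⟩, t3, ht3⟩

/-- Exceptional classes lie on finitely many lines up to the group. -/
theorem exceptional (hG : G.IsSymm) (hdet : G.det ≠ 0) (Γ : Subgroup (V n ≃ₗ[ℝ] V n))
    (hΓ : Γ.relIndex (orth G) ≠ 0) {F : Type*} [TopologicalSpace F] [FirstCountableTopology F]
    {q : F → ℝ} (hq : Continuous q) {Symp : Set (F × V n)} (hopen : IsOpen Symp)
    (hmon : ∀ γ ∈ Γ, ∀ f v, (f, v) ∈ Symp → (f, γ v) ∈ Symp)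
    {K : Set F} (hK : IsCompact K)
    (hKa : ∀ f ∈ K, 0 < q f ∧ KaehlerAt G (q f) {v | (f, v) ∈ Symp})
    {ε : ℝ} (hε : 0 < ε) :
    ∃ S : Set (V n), S.Finite ∧ S ⊆ lattice n ∧ ∀ f ∈ K, ∀ v,
      ε ≤ q f + form G v v → form G v v ≤ 1 / ε → (f, v) ∉ Symp →
      ∃ γ ∈ Γ, γ ∈ orth G ∧ ∃ s ∈ S, ∃ t : ℝ, v = t • γ s := by
  have hinv : ∀ g ∈ Γ, ∀ f x, (f, x) ∈ Sympᶜ → (f, g x) ∈ Sympᶜ := by
    intro g hg f x hx hgx
    apply hx
    have h := hmon g⁻¹ (Γ.inv_mem hg) f (g x) hgx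
    have e : g⁻¹ (g x) = x := g.symm_apply_apply x
    rwa [e] at h
  obtain ⟨S, h1, h2, h3⟩ := finite_lines hG hdet Γ hΓ (Z := Sympᶜ) hopen.isClosed_compl hinv hq hK
    (fun f hf hcon => by
      obtain ⟨hqf, N, P, -, -, -, -, hNP⟩ := hKa f hf
      apply hcon
      have := hNP 0 N.zero_mem 0 P.zero_mem (by rw [(form_bil hG).zero_left]; linarith)
      rw [add_zero] at this
      exact this)
    (fun f hf c hc => by
      obtain ⟨hqf, hk⟩ := hKa f hf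
      obtain ⟨w, hw, hws⟩ := exists_level hG hk hqf hc
      exact ⟨w, hw, fun h => h hws⟩) hε
  exact ⟨S, h1, h2, fun f hf v hv1 hv2 hv => h3 f hf v hv hv1 hv2⟩

end Pool.Agent.LI39
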