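import Pool.Agent.LI39.Main

/-!
From a finite index subgroup of the orthogonal group of the lattice to Eichler transvections of
some level, and rational directions as multiples of lattice vectors.
-/

namespace Pool.Agent.LI39

variable {n : ℕ} {G : Matrix (Fin n) (Fin n) ℤ}

lemma orth_of_pres {g : V n ≃ₗ[ℝ] V n}
    (h : Pres (hyp (hyp (hyp (gram G)))) (hypL (hypL (hypL (intL n)))) g) : g ∈ orth G := h

lemma swL_sq {M : Type*} [AddCommGroup M] [Module ℝ M] : swL M * swL M = 1 := rfl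

lemma inv_of_group (hG : G.IsSymm) (Γ : Subgroup (V n ≃ₗ[ℝ] V n))
    (hΓ : Γ.relIndex (orth G) ≠ 0) :
    ∃ d : ℤ, d ≠ 0 ∧ ∀ Z : Set (V n), IsClosed Z → (∀ g ∈ Γ, ∀ x ∈ Z, g x ∈ Z) →
      Inv (hyp (gram G)) (dL n d) d Z := by
  have hB0 := gram_bil hG
  have hB1 := hB0.hyp
  have hB2 := hB1.hyp
  have hi0 := gram_int (G := G)
  have hi1 := hyp_int hi0
  have hi2 := hyp_int hi1
  set J : ℕ := (Γ.relIndex (orth G)).factorial with hJ
  have hJ0 : J ≠ 0 := Nat.factorial_ne_zero _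
  have hpow : ∀ g ∈ orth G, g ^ J ∈ Γ := by
    intro g hg
    exact (Subgroup.pow_mem_of_relIndex_ne_zero_of_dvd hΓ hg
      (fun m hm hle => Nat.dvd_factorial hm hle)).1
  have hd1 : ((2 * J : ℤ) : ℝ) = (J : ℝ) * 2 := by push_cast; ring
  -- conversion of the vectors
  have conv1 : ∀ u ∈ dL n (2 * J : ℤ), ∃ y ∈ hypL (intL n), u = (J : ℝ) • ((2 : ℝ) • y) := by
    intro u hu
    obtain ⟨y, hy, rfl⟩ := mem_dL.mp hu
    exact ⟨y, hy, by rw [hd1, mul_smul]⟩
  have conv2 : ∀ i j : ℤ, ∀ u ∈ dL n (2 * J : ℤ), ∃ y ∈ hypL (hypL (intL n)),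
      (((2 * J : ℤ) : ℝ) * i, ((2 * J : ℤ) : ℝ) * j, u) = (J : ℝ) • ((2 : ℝ) • y) := by
    intro i j u hu
    obtain ⟨y, hy, rfl⟩ := conv1 u hu
    refine ⟨((i : ℝ), (j : ℝ), y), ⟨⟨i, rfl⟩, ⟨j, rfl⟩, hy⟩, ?_⟩
    rw [hd1]
    refine Prod.ext ?_ (Prod.ext ?_ rfl)
    · simp
      ring
    · simp
      ring
  refine ⟨2 * J, by positivity, fun Z hcl hinv => ⟨hcl, ?_, ?_, ?_, ?_⟩⟩
  · intro z hz i j u hu
    obtain ⟨y, hy, e⟩ := conv2 i j u hu
    rw [e]
    have hg : evL hB2 ((J : ℝ) • ((2 : ℝ) • y)) ∈ Γ := by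
      rw [pow_of_add (fun u => evL hB2 u) (evL_zero hB2) (evL_add hB2)]
      exact hpow _ (orth_of_pres (evL_pres hi2 hB2 hy))
    exact hinv _ hg _ hz
  · intro z hz i j u hu
    obtain ⟨y, hy, e⟩ := conv2 i j u hu
    rw [e]
    have hg : swL _ * evL hB2 ((J : ℝ) • ((2 : ℝ) • y)) * swL _ ∈ Γ := by
      rw [pow_of_add (fun u => swL _ * evL hB2 u * swL _)]
      · exact hpow _ (orth_of_pres ((swL_pres.mul (evL_pres hi2 hB2 hy)).mul swL_pres))
      · show swL _ * evL hB2 0 * swL _ = 1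
        rw [evL_zero hB2]
        rfl
      · intro u u'
        show swL _ * evL hB2 (u + u') * swL _ = (swL _ * evL hB2 u * swL _) *
          (swL _ * evL hB2 u' * swL _)
        rw [evL_add hB2]
        rfl
    exact hinv _ hg _ hz
  · intro z hz u hu
    obtain ⟨y, hy, e⟩ := conv1 u hu
    rw [e]
    have hg : lift (evL hB1 ((J : ℝ) • ((2 : ℝ) • y))) ∈ Γ := by
      rw [pow_of_add (fun u => lift (evL hB1 u))]
      · exact hpow _ (orth_of_pres (lift_pres (evL_pres hi1 hB1 hy)))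
      · show lift (evL hB1 0) = 1
        rw [evL_zero hB1]
        rfl
      · intro u u'
        show lift (evL hB1 (u + u')) = lift (evL hB1 u) * lift (evL hB1 u')
        rw [evL_add hB1]
        rfl
    exact hinv _ hg _ hz
  · intro z hz u hu
    obtain ⟨y, hy, e⟩ := conv1 u hu
    rw [e]
    have hg : lift (swL _ * evL hB1 ((J : ℝ) • ((2 : ℝ) • y)) * swL _) ∈ Γ := by
      rw [pow_of_add (fun u => lift (swL _ * evL hB1 u * swL _))]
      · exact hpow _ (orth_of_pres (lift_pres ((swL_pres.mul (evL_pres hi1 hB1 hy)).mul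
          swL_pres)))
      · show lift (swL _ * evL hB1 0 * swL _) = 1
        rw [evL_zero hB1]
        rfl
      · intro u u'
        show lift (swL _ * evL hB1 (u + u') * swL _) = lift (swL _ * evL hB1 u * swL _) *
          lift (swL _ * evL hB1 u' * swL _)
        rw [evL_add hB1]
        rfl
    exact hinv _ hg _ hz

lemma common_den {ι : Type*} [Fintype ι] (q : ι → ℚ) :
    ∃ D : ℕ, D ≠ 0 ∧ ∀ i, ∃ m : ℤ, (D : ℝ) * (q i : ℝ) = m := by
  refine ⟨∏ i, (q i).den, Finset.prod_ne_zero_iff.mpr fun i _ => (q i).den_ne_zero, fun i => ?_⟩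
  obtain ⟨k, hk⟩ := Finset.dvd_prod_of_mem (fun i => (q i).den) (Finset.mem_univ i)
  refine ⟨k * (q i).num, ?_⟩
  rw [hk]
  have h1 : ((q i).den : ℚ) * q i = (q i).num := by
    rw [mul_comm]
    exact Rat.mul_den_eq_num (q i)
  have h2 : ((q i).den : ℝ) * (q i : ℝ) = (q i).num := by
    exact_mod_cast h1
  push_cast
  rw [← h2]
  ring

/-- Vectors of rational direction are real multiples of lattice vectors. -/
lemma ratDir_multiple (hG : G.IsSymm) (hdet : G.det ≠ 0) {d : ℤ} (hd : d ≠ 0) {v : V n}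
    (hv : RatDir (hyp (gram G)) (dL n d) v) : ∃ (t : ℝ) (z : V n), z ∈ lattice n ∧ v = t • z := by
  obtain ⟨a, b, p, r, e, f, w⟩ := v
  obtain ⟨t, ht, ⟨q1, h1⟩, ⟨q2, h2⟩, ⟨q3, h3⟩, ⟨q4, h4⟩, h5⟩ := hv
  have hdR : (d : ℝ) ≠ 0 := by exact_mod_cast hd
  have hB0 := gram_bil hG
  obtain ⟨q5, hq5⟩ := h5 ((0 : ℝ), (d : ℝ), 0) (mem_dL.mpr ⟨(0, 1, 0), ⟨⟨0, by simp⟩,
    ⟨1, by simp⟩, (intL n).zero_mem⟩, by simp⟩)
  obtain ⟨q6, hq6⟩ := h5 ((d : ℝ), (0 : ℝ), 0) (mem_dL.mpr ⟨(1, 0, 0), ⟨⟨1, by simp⟩,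
    ⟨0, by simp⟩, (intL n).zero_mem⟩, by simp⟩)
  have h7 : ∀ i : Fin n, ∃ q : ℚ, t * gram G w ((d : ℝ) • Pi.single i (1 : ℝ)) = q := by
    intro i
    obtain ⟨q, hq⟩ := h5 ((0 : ℝ), (0 : ℝ), (d : ℝ) • Pi.single i (1 : ℝ))
      (mem_dL.mpr ⟨(0, 0, Pi.single i 1), ⟨⟨0, by simp⟩, ⟨0, by simp⟩, by
        intro j
        by_cases hj : j = i
        · subst hj
          exact ⟨1, by simp⟩
        · exact ⟨0, by simp [hj]⟩⟩, by simp⟩)
    refine ⟨q, ?_⟩
    rw [← hq]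
    simp [hyp]
  choose q7 hq7 using h7
  -- the coordinates of `t • w` are rational
  have h8 : ∀ i, t * (∑ k, w k * (G k i : ℝ)) = ((q7 i / d : ℚ) : ℝ) := by
    intro i
    have h9 := hq7 i
    rw [hB0.smul_right] at h9
    have h10 : gram G w (Pi.single i 1) = ∑ k, w k * (G k i : ℝ) := by
      simp only [gram]
      refine Finset.sum_congr rfl fun k _ => ?_
      rw [Finset.sum_eq_single i]
      · simp
      · intro j _ hj
        simp [hj]
      · simp
    rw [h10] at h9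
    push_cast
    rw [← h9]
    field_simp
  have hdetR : (G.det : ℝ) ≠ 0 := by exact_mod_cast hdet
  have h9 : ∀ j, t * w j = (((∑ i, (q7 i / d) * (G.adjugate i j : ℚ)) / G.det : ℚ) : ℝ) := by
    intro j
    have hadj : ∀ k, ∑ i, (G k i : ℝ) * (G.adjugate i j : ℝ) = if k = j then (G.det : ℝ) else 0 := by
      intro k
      have := congrFun (congrFun (Matrix.mul_adjugate G) k) j
      rw [Matrix.mul_apply, Matrix.smul_apply, Matrix.one_apply] at this
      have h : ((∑ i, G k i * G.adjugate i j : ℤ) : ℝ) =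
          ((G.det • (if k = j then (1 : ℤ) else 0) : ℤ) : ℝ) := by
        rw [this]
      push_cast at h
      rw [h]
      split_ifs <;> simp
    have : t * w j * G.det = ∑ i, ((q7 i / d : ℚ) : ℝ) * (G.adjugate i j : ℝ) := by
      calc t * w j * G.det = ∑ k, t * w k * (if k = j then (G.det : ℝ) else 0) := by
            simp
        _ = ∑ k, t * w k * ∑ i, (G k i : ℝ) * (G.adjugate i j : ℝ) := by
            refine Finset.sum_congr rfl fun k _ => ?_
            rw [hadj k]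
        _ = ∑ k, ∑ i, t * w k * ((G k i : ℝ) * (G.adjugate i j : ℝ)) := by
            refine Finset.sum_congr rfl fun k _ => ?_
            rw [Finset.mul_sum]
        _ = ∑ i, ∑ k, t * w k * ((G k i : ℝ) * (G.adjugate i j : ℝ)) := Finset.sum_comm
        _ = ∑ i, (t * (∑ k, w k * (G k i : ℝ))) * (G.adjugate i j : ℝ) := by
            refine Finset.sum_congr rfl fun i _ => ?_
            rw [Finset.mul_sum, Finset.sum_mul]
            refine Finset.sum_congr rfl fun k _ => ?_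
            ring
        _ = ∑ i, ((q7 i / d : ℚ) : ℝ) * (G.adjugate i j : ℝ) := by
            refine Finset.sum_congr rfl fun i _ => ?_
            rw [h8]
    rw [Rat.cast_div]
    rw [eq_div_iff (by exact_mod_cast hdet)]
    push_cast
    push_cast at this
    exact this
  have h5' : t * e = ((q5 / d : ℚ) : ℝ) := by
    simp [hyp, hB0.zero_right] at hq5
    push_cast
    rw [← hq5]
    field_simp
  have h6' : t * f = ((q6 / d : ℚ) : ℝ) := by
    simp [hyp, hB0.zero_right] at hq6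
    push_cast
    rw [← hq6]
    field_simp
  obtain ⟨D, hD, hall⟩ := common_den (Sum.elim ![q1, q2, q3, q4, q5 / d, q6 / d]
    (fun j : Fin n => (∑ i, (q7 i / d) * (G.adjugate i j : ℚ)) / G.det))
  have hDR : (D : ℝ) ≠ 0 := by exact_mod_cast hD
  refine ⟨((D : ℝ) * t)⁻¹, ((D : ℝ) * t) • ((a, b, p, r, e, f, w) : V n), ?_, ?_⟩
  · refine ⟨?_, ?_, ?_, ?_, ?_, ?_, ?_⟩
    · obtain ⟨m, hm⟩ := hall (Sum.inl 0)
      refine ⟨m, ?_⟩
      rw [← hm]
      show (D : ℝ) * t * a = D * (q1 : ℝ)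
      rw [← h1]
      show (D : ℝ) * t * a = D * (t * a)
      ring
    · obtain ⟨m, hm⟩ := hall (Sum.inl 1)
      refine ⟨m, ?_⟩
      rw [← hm]
      show (D : ℝ) * t * b = D * (q2 : ℝ)
      rw [← h2]
      show (D : ℝ) * t * b = D * (t * b)
      ring
    · obtain ⟨m, hm⟩ := hall (Sum.inl 2)
      refine ⟨m, ?_⟩
      rw [← hm]
      show (D : ℝ) * t * p = D * (q3 : ℝ)
      rw [← h3]
      show (D : ℝ) * t * p = D * (t * p)
      ring
    · obtain ⟨m, hm⟩ := hall (Sum.inl 3)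
      refine ⟨m, ?_⟩
      rw [← hm]
      show (D : ℝ) * t * r = D * (q4 : ℝ)
      rw [← h4]
      show (D : ℝ) * t * r = D * (t * r)
      ring
    · obtain ⟨m, hm⟩ := hall (Sum.inl 4)
      refine ⟨m, ?_⟩
      rw [← hm]
      show (D : ℝ) * t * e = D * ((q5 / d : ℚ) : ℝ)
      rw [← h5']
      ring
    · obtain ⟨m, hm⟩ := hall (Sum.inl 5)
      refine ⟨m, ?_⟩
      rw [← hm]
      show (D : ℝ) * t * f = D * ((q6 / d : ℚ) : ℝ)
      rw [← h6']
      ring
    · intro j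
      obtain ⟨m, hm⟩ := hall (Sum.inr j)
      refine ⟨m, ?_⟩
      rw [← hm]
      show (D : ℝ) * t * w j =
        D * (((∑ i, (q7 i / d) * (G.adjugate i j : ℚ)) / G.det : ℚ) : ℝ)
      rw [← h9]
      ring
  · rw [inv_smul_smul₀ (mul_ne_zero hDR ht)]

end Pool.Agent.LI39
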