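import Mathlib

/-!
Period domains of type IV: if the Kaehler structures have dense periods, then every class of the
positive cone is reached.
-/

namespace Pool.Agent.LI39

/-- The form of signature `(2, m)`. -/
def sig {m : ℕ} (v w : ℝ × ℝ × (Fin m → ℝ)) : ℝ :=
  v.1 * w.1 + v.2.1 * w.2.1 - ∑ i, v.2.2 i * w.2.2 i

/-- Orthogonal frames of positive planes: the points `x + i y` over the period domain. -/
def Frames (m : ℕ) : Set ((ℝ × ℝ × (Fin m → ℝ)) × (ℝ × ℝ × (Fin m → ℝ))) :=
  {p | 0 < sig p.1 p.1 ∧ sig p.2 p.2 = sig p.1 p.1 ∧ sig p.1 p.2 = 0}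

variable {m : ℕ}

lemma sig_add_left (x y z : ℝ × ℝ × (Fin m → ℝ)) : sig (x + y) z = sig x z + sig y z := by
  simp only [sig, Prod.fst_add, Prod.snd_add, Pi.add_apply, add_mul, Finset.sum_add_distrib]
  ring

lemma sig_smul_left (t : ℝ) (x y : ℝ × ℝ × (Fin m → ℝ)) : sig (t • x) y = t * sig x y := by
  simp only [sig, Prod.smul_fst, Prod.smul_snd, Pi.smul_apply, smul_eq_mul, mul_assoc,
    ← Finset.mul_sum]
  ring

lemma sig_symm (x y : ℝ × ℝ × (Fin m → ℝ)) : sig x y = sig y x := by
  simp only [sig]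
  have : ∑ i, x.2.2 i * y.2.2 i = ∑ i, y.2.2 i * x.2.2 i :=
    Finset.sum_congr rfl fun i _ => mul_comm _ _
  rw [this]
  ring

lemma sig_add_right (x y z : ℝ × ℝ × (Fin m → ℝ)) : sig x (y + z) = sig x y + sig x z := by
  rw [sig_symm x, sig_add_left, sig_symm y, sig_symm z]

lemma sig_smul_right (t : ℝ) (x y : ℝ × ℝ × (Fin m → ℝ)) : sig x (t • y) = t * sig x y := by
  rw [sig_symm x, sig_smul_left, sig_symm y]

/-- Every vector has a frame for which its component orthogonal to the plane is large enough. -/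
lemma exists_frame {q : ℝ} (hq : 0 < q) (v : ℝ × ℝ × (Fin m → ℝ)) (hv : 0 < q + sig v v) :
    ∃ p ∈ Frames m, sig v p.1 ^ 2 + sig v p.2 ^ 2 < (q + sig v v) * sig p.1 p.1 := by
  obtain ⟨a, b, w⟩ := v
  set S : ℝ := ∑ i, w i * w i with hS
  have hS0 : 0 ≤ S := Finset.sum_nonneg fun i _ => mul_self_nonneg _
  set R : ℝ := a * a + b * b with hR
  have hR0 : 0 ≤ R := add_nonneg (mul_self_nonneg _) (mul_self_nonneg _)
  have hvv : sig ((a, b, w) : ℝ × ℝ × (Fin m → ℝ)) (a, b, w) = R - S := rfl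
  have hgen : ∀ (c t : ℝ), sig ((a, b, w) : ℝ × ℝ × (Fin m → ℝ)) (a * c, b * c, t • w) =
      R * c - t * S := by
    intro c t
    simp only [sig, Pi.smul_apply, smul_eq_mul, hS, Finset.mul_sum]
    have : ∑ i, w i * (t * w i) = ∑ i, t * (w i * w i) :=
      Finset.sum_congr rfl fun i _ => by ring
    rw [this, hR]
    ring
  have hgen2 : ∀ (t : ℝ), sig ((a, b, t • w) : ℝ × ℝ × (Fin m → ℝ)) (a, b, t • w) =
      R - t ^ 2 * S := by
    intro t
    simp only [sig, Pi.smul_apply, smul_eq_mul, hS, Finset.mul_sum]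
    have : ∑ i, t * w i * (t * w i) = ∑ i, t ^ 2 * (w i * w i) :=
      Finset.sum_congr rfl fun i _ => by ring
    rw [this]
  have hJ : ∀ (c t : ℝ), sig ((a, b, t • w) : ℝ × ℝ × (Fin m → ℝ)) (-(c * b), c * a, 0) = 0 := by
    intro c t
    simp only [sig, Pi.zero_apply, mul_zero, Finset.sum_const_zero]
    ring
  have hJ1 : ∀ (c : ℝ), sig ((a, b, w) : ℝ × ℝ × (Fin m → ℝ)) (-(c * b), c * a, 0) = 0 := by
    intro c
    simp only [sig, Pi.zero_apply, mul_zero, Finset.sum_const_zero]
    ring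
  have hJJ : ∀ (c : ℝ), sig ((-(c * b), c * a, 0) : ℝ × ℝ × (Fin m → ℝ)) (-(c * b), c * a, 0) =
      c ^ 2 * R := by
    intro c
    simp only [sig, Pi.zero_apply, mul_zero, Finset.sum_const_zero, hR]
    ring
  have hgen1 : ∀ t : ℝ, sig ((a, b, w) : ℝ × ℝ × (Fin m → ℝ)) (a, b, t • w) = R - t * S := by
    intro t
    have := hgen 1 t
    simpa using this
  -- the standard frame
  have hstd : (((1 : ℝ), (0 : ℝ), (0 : Fin m → ℝ)), ((0 : ℝ), (1 : ℝ), (0 : Fin m → ℝ))) ∈
      Frames m := by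
    refine ⟨?_, ?_, ?_⟩ <;> simp [sig]
  rw [hvv] at hv
  -- a frame from a parameter `t`
  have key : ∀ t : ℝ, 0 < R → 0 < R - t ^ 2 * S →
      (R - t * S) ^ 2 < (q + (R - S)) * (R - t ^ 2 * S) →
      ∃ p ∈ Frames m, sig ((a, b, w) : ℝ × ℝ × (Fin m → ℝ)) p.1 ^ 2 +
        sig ((a, b, w) : ℝ × ℝ × (Fin m → ℝ)) p.2 ^ 2 <
        (q + sig ((a, b, w) : ℝ × ℝ × (Fin m → ℝ)) (a, b, w)) * sig p.1 p.1 := by
    intro t hR1 hpos hlt
    set c : ℝ := √((R - t ^ 2 * S) / R) with hc
    have hc2 : c ^ 2 * R = R - t ^ 2 * S := by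
      rw [hc, Real.sq_sqrt (by positivity)]
      field_simp
    refine ⟨((a, b, t • w), (-(c * b), c * a, 0)), ⟨?_, ?_, ?_⟩, ?_⟩
    · rw [hgen2]
      exact hpos
    · rw [hgen2, hJJ, hc2]
    · exact hJ c t
    · rw [hgen1, hJ1, hgen2, hvv]
      simpa using hlt
  rcases lt_trichotomy R S with hlt | heq | hgt
  · by_cases hR1 : R = 0
    · have ha : a = 0 := mul_self_eq_zero.mp (by
        linarith [mul_self_nonneg a, mul_self_nonneg b])
      have hb : b = 0 := mul_self_eq_zero.mp (by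
        linarith [mul_self_nonneg a, mul_self_nonneg b])
      refine ⟨_, hstd, ?_⟩
      rw [hvv]
      subst ha hb
      simp only [sig, Pi.zero_apply, mul_zero, Finset.sum_const_zero]
      norm_num
      linarith
    · have hRp : 0 < R := lt_of_le_of_ne hR0 (Ne.symm hR1)
      have hSp : 0 < S := hRp.trans hlt
      refine key (R / S) hRp ?_ ?_
      · have : R - (R / S) ^ 2 * S = R * (S - R) / S := by
          field_simp
        rw [this]
        have : 0 < S - R := by linarith
        positivity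
      · have e1 : R - R / S * S = 0 := by
          field_simp
          ring
        have e2 : R - (R / S) ^ 2 * S = R * (S - R) / S := by
          field_simp
        rw [e1, e2]
        have : 0 < S - R := by linarith
        have h3 : 0 < q + (R - S) := hv
        have : 0 < (q + (R - S)) * (R * (S - R) / S) := by positivity
        simpa using this
  · by_cases hR1 : R = 0
    · have ha : a = 0 := mul_self_eq_zero.mp (by
        linarith [mul_self_nonneg a, mul_self_nonneg b])
      have hb : b = 0 := mul_self_eq_zero.mp (by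
        linarith [mul_self_nonneg a, mul_self_nonneg b])
      refine ⟨_, hstd, ?_⟩
      rw [hvv]
      subst ha hb
      simp only [sig, Pi.zero_apply, mul_zero, Finset.sum_const_zero]
      norm_num
      linarith
    · have hRp : 0 < R := lt_of_le_of_ne hR0 (Ne.symm hR1)
      -- t = R / (R + q)
      have hRq : 0 < R + q := by linarith
      have ht1 : R / (R + q) < 1 := by
        rw [div_lt_one hRq]
        linarith
      have ht0 : 0 < R / (R + q) := by positivity
      set t := R / (R + q) with ht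
      have htq : 1 - t = q / (R + q) := by
        rw [ht]
        field_simp
        ring
      have h1 : 0 < R * (1 - t) := mul_pos hRp (by linarith)
      refine key t hRp ?_ ?_
      · rw [← heq]
        have e3 : R - t ^ 2 * R = R * (1 - t) * (1 + t) := by ring
        rw [e3]
        exact mul_pos h1 (by linarith)
      · rw [← heq]
        have e1 : (R - t * R) ^ 2 = (R * (1 - t)) * (R * (1 - t)) := by ring
        have e2 : (q + (R - R)) * (R - t ^ 2 * R) = (q * (1 + t)) * (R * (1 - t)) := by ring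
        rw [e1, e2]
        have h2 : R * (1 - t) < q := by
          rw [htq]
          rw [mul_div_assoc', div_lt_iff₀ hRq]
          nlinarith
        have h3 : R * (1 - t) < q * (1 + t) := by
          have := mul_pos hq ht0
          linarith
        exact mul_lt_mul_of_pos_right h3 h1
  · refine key 1 (by linarith) (by linarith) ?_
    have : 0 < R - S := by linarith
    nlinarith

/-- Dense periods give the whole cone. -/
theorem dense_periods {q : ℝ} (hq : 0 < q) {A : Set (ℝ × ℝ × (Fin m → ℝ))}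
    {D : Set ((ℝ × ℝ × (Fin m → ℝ)) × (ℝ × ℝ × (Fin m → ℝ)))} (hD : D ⊆ Frames m)
    (hdense : Frames m ⊆ closure D)
    (hK : ∀ p ∈ D, ∀ u, sig u p.1 = 0 → sig u p.2 = 0 → 0 < q + sig u u →
      ∀ s t : ℝ, u + s • p.1 + t • p.2 ∈ A) {v : ℝ × ℝ × (Fin m → ℝ)}
    (hv : 0 < q + sig v v) : v ∈ A := by
  obtain ⟨p0, hp0, hlt⟩ := exists_frame hq v hv
  have hc : Continuous fun p : (ℝ × ℝ × (Fin m → ℝ)) × (ℝ × ℝ × (Fin m → ℝ)) =>
      sig v p.1 ^ 2 + sig v p.2 ^ 2 := by
    unfold sig
    fun_prop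
  have hc2 : Continuous fun p : (ℝ × ℝ × (Fin m → ℝ)) × (ℝ × ℝ × (Fin m → ℝ)) =>
      (q + sig v v) * sig p.1 p.1 := by
    unfold sig
    fun_prop
  have hopen : IsOpen {p : (ℝ × ℝ × (Fin m → ℝ)) × (ℝ × ℝ × (Fin m → ℝ)) |
      sig v p.1 ^ 2 + sig v p.2 ^ 2 < (q + sig v v) * sig p.1 p.1} := isOpen_lt hc hc2
  obtain ⟨p, hp, hpD⟩ := mem_closure_iff.mp (hdense hp0) _ hopen hlt
  obtain ⟨h1, h2, h3⟩ := hD hpD
  have hn : sig p.1 p.1 ≠ 0 := h1.ne'
  have hp' : sig v p.1 ^ 2 + sig v p.2 ^ 2 < (q + sig v v) * sig p.1 p.1 := hp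
  have h3' : sig p.2 p.1 = 0 := by rw [sig_symm, h3]
  set s := sig v p.1 / sig p.1 p.1 with hs
  set t := sig v p.2 / sig p.1 p.1 with ht
  have hs' : s * sig p.1 p.1 = sig v p.1 := by rw [hs]; field_simp
  have ht' : t * sig p.1 p.1 = sig v p.2 := by rw [ht]; field_simp
  set u := v + (-s) • p.1 + (-t) • p.2 with hu
  have hu1 : sig u p.1 = 0 := by
    rw [hu, sig_add_left, sig_add_left, sig_smul_left, sig_smul_left, h3']
    linarith
  have hu2 : sig u p.2 = 0 := by
    rw [hu, sig_add_left, sig_add_left, sig_smul_left, sig_smul_left, h3, h2]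
    linarith
  have huu : sig u u = sig v v - (sig v p.1 ^ 2 + sig v p.2 ^ 2) / sig p.1 p.1 := by
    have e1 : sig u u = sig u v := by
      conv_lhs => rw [hu, sig_add_right, sig_add_right, sig_smul_right, sig_smul_right]
      rw [← hu, hu1, hu2]
      ring
    rw [e1, hu, sig_add_left, sig_add_left, sig_smul_left, sig_smul_left, sig_symm p.1 v,
      sig_symm p.2 v, hs, ht]
    field_simp
    ring
  have hpos : 0 < q + sig u u := by
    rw [huu]
    have h4 : (sig v p.1 ^ 2 + sig v p.2 ^ 2) / sig p.1 p.1 < q + sig v v := by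
      rw [div_lt_iff₀ h1]
      exact hp'
    linarith
  have h5 := hK p hpD u hu1 hu2 hpos s t
  have e : u + s • p.1 + t • p.2 = v := by
    rw [hu]
    module
  rwa [e] at h5

end Pool.Agent.LI39
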