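import Pool.Agent.LI39.Finite

/-!
The definitions used in the statements of the results, over a type with named instances (so that
the statements stay short).
-/

namespace Pool.Agent.LI39

/-- The real vector space `L ⊗ ℝ` of the lattice `L = U ⊕ U ⊕ U ⊕ ℤ^n`. -/
def LR (n : ℕ) : Type := ℝ × ℝ × (ℝ × ℝ × (ℝ × ℝ × (Fin n → ℝ)))

instance instLRGroup (n : ℕ) : AddCommGroup (LR n) := inferInstanceAs (AddCommGroup (V n))

instance instLRModule (n : ℕ) : Module ℝ (LR n) := inferInstanceAs (Module ℝ (V n))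

instance instLRTop (n : ℕ) : TopologicalSpace (LR n) := inferInstanceAs (TopologicalSpace (V n))

/-- The form of `L = U ⊕ U ⊕ U ⊕ (ℤ^n, G)` on `L ⊗ ℝ`. -/
def formL {n : ℕ} (G : Matrix (Fin n) (Fin n) ℤ) : LR n → LR n → ℝ := hyp (hyp (hyp (gram G)))

/-- The lattice `L` in `L ⊗ ℝ`: the vectors with integral coordinates. -/
def latticeL (n : ℕ) : Set (LR n) :=
  ((hypL (hypL (hypL (intL n))) : AddSubgroup (V n)) : Set (V n))

/-- `g` is an automorphism of the lattice `L`: it preserves the form and `L`. -/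
def IsAutL {n : ℕ} (G : Matrix (Fin n) (Fin n) ℤ) (g : LR n ≃ₗ[ℝ] LR n) : Prop :=
  (∀ x y, formL G (g x) (g y) = formL G x y) ∧ ∀ x, g x ∈ latticeL n ↔ x ∈ latticeL n

variable {n : ℕ} {G : Matrix (Fin n) (Fin n) ℤ}

lemma IsAutL.mul {g h : LR n ≃ₗ[ℝ] LR n} (hg : IsAutL G g) (hh : IsAutL G h) :
    IsAutL G (g * h) := by
  refine ⟨fun x y => ?_, fun x => ?_⟩
  · show formL G (g (h x)) (g (h y)) = formL G x y
    rw [hg.1, hh.1]
  · show g (h x) ∈ latticeL n ↔ x ∈ latticeL n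
    rw [hg.2, hh.2]

lemma IsAutL.one : IsAutL G (1 : LR n ≃ₗ[ℝ] LR n) := ⟨fun _ _ => rfl, fun _ => Iff.rfl⟩

lemma IsAutL.inv {g : LR n ≃ₗ[ℝ] LR n} (hg : IsAutL G g) : IsAutL G g⁻¹ := by
  refine ⟨fun x y => ?_, fun x => ?_⟩
  · show formL G (g.symm x) (g.symm y) = formL G x y
    rw [← hg.1, g.apply_symm_apply, g.apply_symm_apply]
  · show g.symm x ∈ latticeL n ↔ x ∈ latticeL n
    rw [← hg.2, g.apply_symm_apply]

/-- The orthogonal group `O(L)`, acting on `L ⊗ ℝ`. -/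
def OL {n : ℕ} (G : Matrix (Fin n) (Fin n) ℤ) : Subgroup (LR n ≃ₗ[ℝ] LR n) where
  carrier := {g | IsAutL G g}
  mul_mem' := IsAutL.mul
  one_mem' := IsAutL.one
  inv_mem' := IsAutL.inv

/-- `V = N ⊕ P` is an orthogonal decomposition, the form is at most zero on `N` and at least zero
on `P`, and `A` contains every `u + ρ` with `u ∈ N`, `ρ ∈ P` and `q + (u, u) > 0`. -/
def KaehlerDec {n : ℕ} (G : Matrix (Fin n) (Fin n) ℤ) (q : ℝ) (A : Set (LR n))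
    (N P : Submodule ℝ (LR n)) : Prop :=
  N ⊔ P = ⊤ ∧ (∀ u ∈ N, ∀ ρ ∈ P, formL G u ρ = 0) ∧
    (∀ u ∈ N, formL G u u ≤ 0) ∧ (∀ ρ ∈ P, 0 ≤ formL G ρ ρ) ∧
    ∀ u ∈ N, ∀ ρ ∈ P, 0 < q + formL G u u → u + ρ ∈ A

/-- The union of the lines through the vectors `γ s` with `γ ∈ Γ`, `s ∈ S`. -/
def Lines {n : ℕ} (Γ : Subgroup (LR n ≃ₗ[ℝ] LR n)) (S : Set (LR n)) : Set (LR n) :=
  {v | ∃ γ ∈ Γ, ∃ s ∈ S, ∃ t : ℝ, v = t • γ s}

end Pool.Agent.LI39
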