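import Mathlib

/-!
Bohr sets of rank two are syndetic (pigeonhole), and irrational numbers have small nonzero multiples
modulo one.
-/

namespace Pool.Agent.LI39

lemma exists_colour (N : ℕ) (x : ℝ) :
    ∃ k : Fin (N + 1), (k : ℝ) ≤ (N + 1) * Int.fract x ∧ (N + 1) * Int.fract x < k + 1 := by
  have h0 : 0 ≤ Int.fract x := Int.fract_nonneg x
  have h1 : Int.fract x < 1 := Int.fract_lt_one x
  have hN : (0 : ℝ) < (N : ℝ) + 1 := by positivity
  have hnn : 0 ≤ ((N : ℝ) + 1) * Int.fract x := by positivity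
  refine ⟨⟨⌊((N : ℝ) + 1) * Int.fract x⌋₊, ?_⟩, ?_, ?_⟩
  · rw [Nat.floor_lt hnn]
    push_cast
    nlinarith
  · exact Nat.floor_le hnn
  · exact Nat.lt_floor_add_one _

lemma syndetic (p c ε : ℝ) (hε : 0 < ε) : ∃ G : ℝ, 0 ≤ G ∧ ∀ X : ℤ, ∃ n a b : ℤ,
    |(X : ℝ) - n| ≤ G ∧ |(n : ℝ) * p - a| < ε ∧ |(n : ℝ) * c - b| < ε := by
  obtain ⟨N, hN⟩ := exists_nat_one_div_lt hε
  choose f hf using exists_colour N
  have key : ∀ x y : ℝ, f x = f y → |Int.fract x - Int.fract y| < ε := by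
    intro x y hxy
    have hx := hf x
    have hy := hf y
    rw [hxy] at hx
    have hN' : (0 : ℝ) < (N : ℝ) + 1 := by positivity
    have h1 : |((N : ℝ) + 1) * (Int.fract x - Int.fract y)| < 1 := by
      rw [abs_lt]
      constructor <;> nlinarith [hx.1, hx.2, hy.1, hy.2]
    rw [abs_mul, abs_of_pos hN'] at h1
    have h2 : |Int.fract x - Int.fract y| < 1 / ((N : ℝ) + 1) := by
      rw [lt_div_iff₀ hN']
      linarith
    linarith
  let φ : ℤ → Fin (N + 1) × Fin (N + 1) := fun m => (f ((m : ℝ) * p), f ((m : ℝ) * c))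
  classical
  let t : Fin (N + 1) × Fin (N + 1) → ℤ := fun s =>
    if h : ∃ m : ℤ, φ m = s then h.choose else 0
  refine ⟨∑ s, |(t s : ℝ)|, Finset.sum_nonneg fun _ _ => abs_nonneg _, fun X => ?_⟩
  have hex : ∃ m : ℤ, φ m = φ X := ⟨X, rfl⟩
  have hj : φ (t (φ X)) = φ X := by
    have : t (φ X) = hex.choose := by
      simp only [t]
      rw [dif_pos hex]
    rw [this]
    exact hex.choose_spec
  set j := t (φ X) with hjdef
  have hj1 : f ((X : ℝ) * p) = f ((j : ℝ) * p) := (congrArg Prod.fst hj).symm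
  have hj2 : f ((X : ℝ) * c) = f ((j : ℝ) * c) := (congrArg Prod.snd hj).symm
  refine ⟨X - j, ⌊(X : ℝ) * p⌋ - ⌊(j : ℝ) * p⌋, ⌊(X : ℝ) * c⌋ - ⌊(j : ℝ) * c⌋, ?_, ?_, ?_⟩
  · have : ((X : ℝ) - ((X - j : ℤ) : ℝ)) = j := by push_cast; ring
    rw [this, hjdef]
    exact Finset.single_le_sum (f := fun s => |(t s : ℝ)|) (fun _ _ => abs_nonneg _)
      (Finset.mem_univ (φ X))
  · have h := key _ _ hj1
    have e : (((X - j : ℤ) : ℝ) * p - ((⌊(X : ℝ) * p⌋ - ⌊(j : ℝ) * p⌋ : ℤ) : ℝ)) =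
        Int.fract ((X : ℝ) * p) - Int.fract ((j : ℝ) * p) := by
      simp only [Int.fract]
      push_cast
      ring
    rw [e]
    exact h
  · have h := key _ _ hj2
    have e : (((X - j : ℤ) : ℝ) * c - ((⌊(X : ℝ) * c⌋ - ⌊(j : ℝ) * c⌋ : ℤ) : ℝ)) =
        Int.fract ((X : ℝ) * c) - Int.fract ((j : ℝ) * c) := by
      simp only [Int.fract]
      push_cast
      ring
    rw [e]
    exact h

lemma small_multiple (p c η : ℝ) (hp : Irrational p) (hη : 0 < η) : ∃ m a b : ℤ,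
    (m : ℝ) * p - a ≠ 0 ∧ |(m : ℝ) * p - a| < η ∧ |(m : ℝ) * c - b| < η := by
  obtain ⟨G, hG, h⟩ := syndetic p c η hη
  obtain ⟨m, a, b, h1, h2, h3⟩ := h (⌈G⌉ + 1)
  refine ⟨m, a, b, ?_, h2, h3⟩
  intro h0
  have hm : (m : ℝ) ≠ 0 := by
    intro hm
    rw [hm] at h1
    have := Int.le_ceil G
    push_cast at h1
    rw [sub_zero] at h1
    have h4 := le_abs_self ((⌈G⌉ : ℝ) + 1)
    linarith
  have hm' : m ≠ 0 := by
    intro h
    exact hm (by rw [h]; simp)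
  have : p = (a : ℝ) / (m : ℝ) := by
    field_simp
    linarith
  apply hp
  refine ⟨(a : ℚ) / (m : ℚ), ?_⟩
  rw [this]
  push_cast
  rfl

end Pool.Agent.LI39
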