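import Pool.Agent.LI39.Stmt
import Pool.Agent.LI39.Eichler

/-!
Kaehler structures whose period contains a given positive plane of the first two hyperbolic
planes, and rational classes of divisibility one.
-/

namespace Pool.Agent.LI39

variable {n : ℕ} {G : Matrix (Fin n) (Fin n) ℤ}

/-- The real space of the first two hyperbolic planes, `U ⊕ U ⊂ L`. -/
def UU (n : ℕ) : Set (LR n) :=
  {v | ∃ a b p r : ℝ, v = ((a, b, (p, r, 0)) : V n)}

/-- For every positive definite plane `⟨x, y⟩` in the real space of `U ⊕ U` there is a Kaehler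
decomposition `V = N ⊕ P` with `x, y ∈ P`, and `N` contains the orthogonal complement of
`⟨x, y⟩` in the real space of `U ⊕ U`. -/
def Tails (G : Matrix (Fin n) (Fin n) ℤ) (q : ℝ) (A : Set (LR n)) : Prop :=
  ∀ x ∈ UU n, ∀ y ∈ UU n, 0 < formL G x x → formL G y y = formL G x x → formL G x y = 0 →
    ∃ N P, KaehlerDec G q A N P ∧ x ∈ P ∧ y ∈ P ∧
      ∀ w ∈ UU n, formL G w x = 0 → formL G w y = 0 → w ∈ N

/-- `γ` is an Eichler transvection of the lattice `L`. -/
def IsTransv (G : Matrix (Fin n) (Fin n) ℤ) (γ : LR n ≃ₗ[ℝ] LR n) : Prop :=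
  ∃ e ∈ latticeL n, ∃ u ∈ latticeL n, formL G e e = 0 ∧ formL G e u = 0 ∧
    ∀ x, γ x = x + formL G x u • e - formL G x e • u - (formL G u u / 2 * formL G x e) • e

lemma form_UU (hG : G.IsSymm) (a b p r a' b' p' r' : ℝ) :
    form G ((a, b, (p, r, 0)) : V n) ((a', b', (p', r', 0)) : V n) =
      a * b' + b * a' + (p * r' + r * p') := by
  have hB1 := (gram_bil hG).hyp
  show a * b' + b * a' + (p * r' + r * p' + hyp (gram G) 0 0) = _
  rw [hB1.zero_left]
  ring

lemma tails_UU (hG : G.IsSymm) {q : ℝ} (hq : 0 < q) {A : Set (LR n)} (hT : Tails G q A)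
    {v : LR n} (hv : v ∈ UU n) (hpos : 0 < q + formL G v v) : v ∈ A := by
  obtain ⟨a, b, p, r, rfl⟩ := hv
  have hf : ∀ a b p r a' b' p' r' : ℝ, formL G ((a, b, (p, r, 0)) : V n)
      ((a', b', (p', r', 0)) : V n) = a * b' + b * a' + (p * r' + r * p') :=
    form_UU hG
  have h0 : formL G ((0 : V n) : LR n) ((0 : V n) : LR n) = 0 := (form_bil hG).zero_left 0
  rcases lt_trichotomy (a * b + p * r) 0 with hlt | heq | hgt
  · -- negative norm
    obtain ⟨N, P, hD, hx, hy, hN⟩ := hT ((a, -b, (-p, r, 0)) : V n) ⟨_, _, _, _, rfl⟩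
      ((-p, r, (-a, b, 0)) : V n) ⟨_, _, _, _, rfl⟩ (by rw [hf]; nlinarith)
      (by rw [hf, hf]; ring) (by rw [hf]; ring)
    have h1 := hN ((a, b, (p, r, 0)) : V n) ⟨_, _, _, _, rfl⟩ (by rw [hf]; ring)
      (by rw [hf]; ring)
    have h2 := hD.2.2.2.2 _ h1 0 P.zero_mem hpos
    rwa [add_zero] at h2
  · -- norm zero
    by_cases hv0 : a * a + b * b + p * p + r * r = 0
    · have ha : a = 0 := mul_self_eq_zero.mp (by
        linarith [mul_self_nonneg a, mul_self_nonneg b, mul_self_nonneg p, mul_self_nonneg r])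
      have hb : b = 0 := mul_self_eq_zero.mp (by
        linarith [mul_self_nonneg a, mul_self_nonneg b, mul_self_nonneg p, mul_self_nonneg r])
      have hp : p = 0 := mul_self_eq_zero.mp (by
        linarith [mul_self_nonneg a, mul_self_nonneg b, mul_self_nonneg p, mul_self_nonneg r])
      have hr : r = 0 := mul_self_eq_zero.mp (by
        linarith [mul_self_nonneg a, mul_self_nonneg b, mul_self_nonneg p, mul_self_nonneg r])
      subst ha hb hp hr
      obtain ⟨N, P, hD, hx, hy, hN⟩ := hT (((1 : ℝ), (1 : ℝ), ((0 : ℝ), (0 : ℝ), 0)) : V n)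
        ⟨_, _, _, _, rfl⟩ (((0 : ℝ), (0 : ℝ), ((1 : ℝ), (1 : ℝ), 0)) : V n) ⟨_, _, _, _, rfl⟩
        (by rw [hf]; norm_num) (by rw [hf, hf]; norm_num) (by rw [hf]; norm_num)
      have h2 := hD.2.2.2.2 0 N.zero_mem 0 P.zero_mem (by
        have : formL G (0 : LR n) (0 : LR n) = 0 := h0
        rw [this]
        linarith)
      rw [add_zero] at h2
      exact h2
    · have hS : 0 < a * a + b * b + p * p + r * r := by
        have h9 : 0 ≤ a * a + b * b + p * p + r * r := by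
          linarith [mul_self_nonneg a, mul_self_nonneg b, mul_self_nonneg p, mul_self_nonneg r]
        exact lt_of_le_of_ne h9 (Ne.symm hv0)
      set S := a * a + b * b + p * p + r * r with hSdef
      set ε : ℝ := q / S with hε
      have hεp : 0 < ε := by positivity
      obtain ⟨N, P, hD, hx, hy, hN⟩ := hT ((a + ε * b, b + ε * a, (p + ε * r, r + ε * p, 0)) : V n)
        ⟨_, _, _, _, rfl⟩ ((-(p + ε * r), -(r + ε * p), (a + ε * b, b + ε * a, 0)) : V n)
        ⟨_, _, _, _, rfl⟩ (by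
          rw [hf]
          have : (a + ε * b) * (b + ε * a) + (b + ε * a) * (a + ε * b) +
              ((p + ε * r) * (r + ε * p) + (r + ε * p) * (p + ε * r)) =
              2 * (1 + ε ^ 2) * (a * b + p * r) + 2 * ε * S := by
            rw [hSdef]
            ring
          rw [this, heq]
          have := mul_pos hεp hS
          linarith)
        (by rw [hf, hf]; ring) (by rw [hf]; ring)
      have hu : ((((1 / 2 : ℝ) * (a - ε * b), (1 / 2 : ℝ) * (b - ε * a),
          ((1 / 2 : ℝ) * (p - ε * r), (1 / 2 : ℝ) * (r - ε * p), 0)) : V n) : LR n) ∈ N := by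
        refine hN _ ⟨_, _, _, _, rfl⟩ ?_ ?_
        · rw [hf]
          linear_combination (1 - ε ^ 2) * heq
        · rw [hf]
          ring
      have hρ := P.smul_mem (1 / 2 : ℝ) hx
      have h2 := hD.2.2.2.2 _ hu _ hρ (by
        rw [hf]
        have : (1 / 2 : ℝ) * (a - ε * b) * ((1 / 2 : ℝ) * (b - ε * a)) +
            (1 / 2 : ℝ) * (b - ε * a) * ((1 / 2 : ℝ) * (a - ε * b)) +
            ((1 / 2 : ℝ) * (p - ε * r) * ((1 / 2 : ℝ) * (r - ε * p)) +
            (1 / 2 : ℝ) * (r - ε * p) * ((1 / 2 : ℝ) * (p - ε * r))) =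
            (1 + ε ^ 2) / 2 * (a * b + p * r) - ε * S / 2 := by
          rw [hSdef]
          ring
        rw [this, heq]
        have : ε * S = q := by
          rw [hε]
          field_simp
        rw [this]
        linarith)
      convert h2 using 1
      show ((a, b, (p, r, 0)) : V n) = ((1 / 2 : ℝ) * (a - ε * b) + (1 / 2 : ℝ) * (a + ε * b),
        (1 / 2 : ℝ) * (b - ε * a) + (1 / 2 : ℝ) * (b + ε * a),
        ((1 / 2 : ℝ) * (p - ε * r) + (1 / 2 : ℝ) * (p + ε * r),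
        (1 / 2 : ℝ) * (r - ε * p) + (1 / 2 : ℝ) * (r + ε * p), 0 + (1 / 2 : ℝ) • 0))
      refine Prod.ext ?_ (Prod.ext ?_ (Prod.ext ?_ (Prod.ext ?_ ?_)))
      · ring
      · ring
      · ring
      · ring
      · simp
  · -- positive norm
    obtain ⟨N, P, hD, hx, hy, hN⟩ := hT ((a, b, (p, r, 0)) : V n) ⟨_, _, _, _, rfl⟩
      ((-p, -r, (a, b, 0)) : V n) ⟨_, _, _, _, rfl⟩ (by rw [hf]; nlinarith)
      (by rw [hf, hf]; ring) (by rw [hf]; ring)
    have h2 := hD.2.2.2.2 0 N.zero_mem _ hx (by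
      have : formL G (0 : LR n) (0 : LR n) = 0 := h0
      rw [this]
      linarith)
    rwa [zero_add] at h2

lemma transv_e1 (hG : G.IsSymm) {u : ℝ × ℝ × (ℝ × ℝ × (Fin n → ℝ))}
    (hu : u ∈ hypL (hypL (intL n))) :
    IsTransv G (evL (gram_bil hG).hyp.hyp u : V n ≃ₗ[ℝ] V n) := by
  have hB2 := (gram_bil hG).hyp.hyp
  refine ⟨((0 : ℝ), (1 : ℝ), 0), ⟨⟨0, by simp⟩, ⟨1, by simp⟩, (hypL (hypL (intL n))).zero_mem⟩,
    ((0 : ℝ), (0 : ℝ), u), ⟨⟨0, by simp⟩, ⟨0, by simp⟩, hu⟩, ?_, ?_, ?_⟩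
  · show (0 : ℝ) * 1 + 1 * 0 + hyp (hyp (gram G)) 0 0 = 0
    rw [hB2.zero_left]
    ring
  · show (0 : ℝ) * 0 + 1 * 0 + hyp (hyp (gram G)) 0 u = 0
    rw [hB2.zero_left]
    ring
  · intro x
    have h1 : ∀ x : V n, formL G x (((0 : ℝ), (0 : ℝ), u) : V n) =
        hyp (hyp (gram G)) x.2.2 u := by
      intro x
      show x.1 * 0 + x.2.1 * 0 + hyp (hyp (gram G)) x.2.2 u = _
      ring
    have h2 : ∀ x : V n, formL G x (((0 : ℝ), (1 : ℝ), 0) : V n) = x.1 := by
      intro x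
      show x.1 * 1 + x.2.1 * 0 + hyp (hyp (gram G)) x.2.2 0 = _
      rw [hB2.zero_right]
      ring
    rw [h1, h1, h2]
    show (x.1, x.2.1 + hyp (hyp (gram G)) x.2.2 u - hyp (hyp (gram G)) u u / 2 * x.1,
      x.2.2 - x.1 • u) = (x.1 + hyp (hyp (gram G)) x.2.2 u * 0 - x.1 * 0 -
      hyp (hyp (gram G)) u u / 2 * x.1 * 0, x.2.1 + hyp (hyp (gram G)) x.2.2 u * 1 - x.1 * 0 -
      hyp (hyp (gram G)) u u / 2 * x.1 * 1, x.2.2 + hyp (hyp (gram G)) x.2.2 u • 0 - x.1 • u -
      (hyp (hyp (gram G)) u u / 2 * x.1) • 0)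
    refine Prod.ext ?_ (Prod.ext ?_ ?_)
    · ring
    · ring
    · simp

lemma IsTransv.conj {γ g : LR n ≃ₗ[ℝ] LR n} (hγ : IsTransv G γ) (hg : IsAutL G g) :
    IsTransv G (g * γ * g⁻¹) := by
  obtain ⟨e, he, u, hu, h1, h2, h3⟩ := hγ
  refine ⟨g e, (hg.2 e).mpr he, g u, (hg.2 u).mpr hu, by rw [hg.1, h1], by rw [hg.1, h2], ?_⟩
  intro x
  have hx : g (g⁻¹ x) = x := g.apply_symm_apply x
  show g (γ (g⁻¹ x)) = _
  rw [h3, map_sub, map_sub, map_add, map_smul, map_smul, map_smul, hx]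
  have e1 : formL G (g⁻¹ x) u = formL G x (g u) := by rw [← hg.1, hx]
  have e2 : formL G (g⁻¹ x) e = formL G x (g e) := by rw [← hg.1, hx]
  rw [e1, e2, hg.1]

lemma transv_f1 (hG : G.IsSymm) {u : ℝ × ℝ × (ℝ × ℝ × (Fin n → ℝ))}
    (hu : u ∈ hypL (hypL (intL n))) :
    IsTransv G (fvL (gram_bil hG).hyp.hyp u : V n ≃ₗ[ℝ] V n) := by
  exact (transv_e1 hG hu).conj (g := (swL _ : V n ≃ₗ[ℝ] V n)) swL_pres

lemma transv_e2 (hG : G.IsSymm) {u : ℝ × ℝ × (Fin n → ℝ)} (hu : u ∈ hypL (intL n)) :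
    IsTransv G (lift (evL (gram_bil hG).hyp u) : V n ≃ₗ[ℝ] V n) := by
  have h := (transv_e1 hG (u := ((0 : ℝ), (0 : ℝ), u)) ⟨⟨0, by simp⟩, ⟨0, by simp⟩, hu⟩).conj
    (g := (exL _ : V n ≃ₗ[ℝ] V n)) exL_pres
  suffices e : (lift (evL (gram_bil hG).hyp u) : V n ≃ₗ[ℝ] V n) =
      exL _ * evL (gram_bil hG).hyp.hyp ((0 : ℝ), (0 : ℝ), u) * (exL _)⁻¹ by
    rw [e]
    exact h
  ext1 v
  have hB1 := (gram_bil hG).hyp
  show (v.1, v.2.1, ev (hyp (gram G)) u v.2.2) =
    exL _ (ev (hyp (hyp (gram G))) ((0 : ℝ), (0 : ℝ), u) (exL _ v))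
  have e1 : ∀ y : ℝ × ℝ × (ℝ × ℝ × (Fin n → ℝ)), hyp (hyp (gram G)) y ((0 : ℝ), (0 : ℝ), u) =
      hyp (gram G) y.2.2 u := by
    intro y
    show y.1 * 0 + y.2.1 * 0 + hyp (gram G) y.2.2 u = _
    ring
  have e2 : ev (hyp (hyp (gram G))) ((0 : ℝ), (0 : ℝ), u) (exL _ v) =
      (v.2.2.1, v.2.2.2.1 + hyp (gram G) v.2.2.2.2 u - hyp (gram G) u u / 2 * v.2.2.1,
        (v.1, v.2.1, v.2.2.2.2 - v.2.2.1 • u)) := by
    unfold ev
    rw [e1, e1]
    refine Prod.ext rfl (Prod.ext rfl (Prod.ext ?_ (Prod.ext ?_ ?_)))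
    · show v.1 - v.2.2.1 • (0 : ℝ) = v.1
      simp
    · show v.2.1 - v.2.2.1 • (0 : ℝ) = v.2.1
      simp
    · rfl
  rw [e2]
  rfl

lemma transv_f2 (hG : G.IsSymm) {u : ℝ × ℝ × (Fin n → ℝ)} (hu : u ∈ hypL (intL n)) :
    IsTransv G (lift (fvL (gram_bil hG).hyp u) : V n ≃ₗ[ℝ] V n) := by
  exact (transv_e2 hG hu).conj (g := (lift (swL _) : V n ≃ₗ[ℝ] V n)) (lift_pres swL_pres)

/-- Classes of irrational direction and rational classes of divisibility one. -/
theorem tail_classes (hG : G.IsSymm) (heven : ∀ i, Even (G i i)) (hdet : G.det ≠ 0)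
    (Γ : Subgroup (LR n ≃ₗ[ℝ] LR n)) (hΓ : ∀ γ, IsTransv G γ → γ ∈ Γ)
    {q : ℝ} (hq : 0 < q) {A : Set (LR n)} (hA : IsOpen A) (hinv : ∀ γ ∈ Γ, ∀ v ∈ A, γ v ∈ A)
    (hT : Tails G q A) {v : LR n} (hv : 0 < q + formL G v v)
    (hz : (∀ t : ℝ, ∀ z ∈ latticeL n, v ≠ t • z) ∨
      ∃ z ∈ latticeL n, ∃ y ∈ latticeL n, formL G z y = 1 ∧ ∃ t : ℝ, v = t • z) : v ∈ A := by
  have hB0 := gram_bil hG
  have hB1 := hB0.hyp
  have hB2 := hB1.hyp
  -- invariance of the complement
  have hinvc : ∀ γ ∈ Γ, ∀ x ∈ Aᶜ, γ x ∈ Aᶜ := by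
    intro γ hγ x hx hgx
    apply hx
    have h := hinv γ⁻¹ (Γ.inv_mem hγ) _ hgx
    have e : γ⁻¹ (γ x) = x := γ.symm_apply_apply x
    rwa [e] at h
  have heven1 : ∀ u ∈ hypL (intL n), ∃ m : ℤ, hyp (gram G) u u = 2 * m := by
    rintro u ⟨⟨a, ha⟩, ⟨b, hb⟩, hw⟩
    have hgram : ∃ m : ℤ, gram G u.2.2 u.2.2 = 2 * m := by
      choose w hw' using hw
      have key : ∀ w : Fin n → ℤ, Even (∑ i, ∑ j, w i * G i j * w j) := by
        intro w
        have h1 : ∑ i, ∑ j, w i * G i j * w j = ∑ i, w i * G i i * w i +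
            2 * ∑ i, ∑ j ∈ Finset.univ.filter (fun j => i < j), w i * G i j * w j := by
          have h2 : ∀ i, ∑ j, w i * G i j * w j = w i * G i i * w i +
              ∑ j ∈ Finset.univ.filter (fun j => i < j), w i * G i j * w j +
              ∑ j ∈ Finset.univ.filter (fun j => j < i), w i * G i j * w j := by
            intro i
            have h3 : (Finset.univ : Finset (Fin n)) = ({i} ∪ Finset.univ.filter (fun j => i < j)) ∪
                Finset.univ.filter (fun j => j < i) := by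
              ext j
              simp only [Finset.mem_univ, Finset.mem_union, Finset.mem_singleton,
                Finset.mem_filter, true_and, true_iff]
              rcases lt_trichotomy i j with h | h | h
              · exact Or.inl (Or.inr h)
              · exact Or.inl (Or.inl h.symm)
              · exact Or.inr h
            conv_lhs => rw [h3]
            rw [Finset.sum_union, Finset.sum_union, Finset.sum_singleton]
            · rw [Finset.disjoint_left]
              intro j hj hj'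
              rw [Finset.mem_singleton] at hj
              rw [Finset.mem_filter] at hj'
              exact absurd hj'.2 (by rw [hj]; exact lt_irrefl _)
            · rw [Finset.disjoint_left]
              intro j hj hj'
              rw [Finset.mem_union, Finset.mem_singleton, Finset.mem_filter] at hj
              rw [Finset.mem_filter] at hj'
              rcases hj with hj | hj
              · exact absurd hj'.2 (by rw [hj]; exact lt_irrefl _)
              · exact absurd hj.2 (not_lt.mpr hj'.2.le)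
          rw [Finset.sum_congr rfl fun i _ => h2 i, Finset.sum_add_distrib,
            Finset.sum_add_distrib]
          have h4 : ∑ i, ∑ j ∈ Finset.univ.filter (fun j => j < i), w i * G i j * w j =
              ∑ i, ∑ j ∈ Finset.univ.filter (fun j => i < j), w i * G i j * w j := by
            rw [Finset.sum_comm' (t' := Finset.univ)
              (s' := fun j => Finset.univ.filter (fun i => j < i))]
            · refine Finset.sum_congr rfl fun i _ => Finset.sum_congr rfl fun j _ => ?_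
              rw [← hG.apply i j]
              ring
            · intro i j
              simp
          rw [h4]
          ring
        rw [h1]
        refine Even.add ?_ ⟨_, two_mul _⟩
        refine Finset.even_sum _ fun i _ => ?_
        exact ((heven i).mul_left _).mul_right _
      obtain ⟨m, hm⟩ := key w
      refine ⟨m, ?_⟩
      have : gram G u.2.2 u.2.2 = ((∑ i, ∑ j, w i * G i j * w j : ℤ) : ℝ) := by
        simp only [gram, hw']
        push_cast
        rfl
      rw [this, hm]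
      push_cast
      ring
    obtain ⟨m, hm⟩ := hgram
    refine ⟨a * b + m, ?_⟩
    simp only [hyp, ha, hb, hm]
    push_cast
    ring
  rcases hz with hirr | ⟨z, hz, y, hy, hzy, t, rfl⟩
  · -- irrational direction
    by_contra hcon
    have hdL : ∀ u ∈ dL n 1, u ∈ hypL (intL n) := by
      intro u hu
      obtain ⟨y, hy, rfl⟩ := mem_dL.mp hu
      simpa using hy
    have hI : Inv (hyp (gram G)) (dL n 1) 1 (Aᶜ : Set (V n)) := by
      refine ⟨hA.isClosed_compl, ?_, ?_, ?_, ?_⟩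
      · intro z hz i j u hu
        exact hinvc _ (hΓ _ (transv_e1 hG (u := (((1 : ℤ) : ℝ) * i, ((1 : ℤ) : ℝ) * j, u))
          ⟨⟨i, by simp⟩, ⟨j, by simp⟩, hdL u hu⟩)) z hz
      · intro z hz i j u hu
        exact hinvc _ (hΓ _ (transv_f1 hG (u := (((1 : ℤ) : ℝ) * i, ((1 : ℤ) : ℝ) * j, u))
          ⟨⟨i, by simp⟩, ⟨j, by simp⟩, hdL u hu⟩)) z hz
      · intro z hz u hu
        exact hinvc _ (hΓ _ (transv_e2 hG (hdL u hu))) z hz
      · intro z hz u hu
        exact hinvc _ (hΓ _ (transv_f2 hG (hdL u hu))) z hz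
    -- a vector of the same norm in the first plane
    set w : V n := ((1 : ℝ), formL G v v / 2, ((0 : ℝ), (0 : ℝ), 0)) with hw
    have hwf : formL G w w = formL G v v := by
      have : formL G w w = (1 : ℝ) * (formL G v v / 2) + formL G v v / 2 * 1 +
          ((0 : ℝ) * 0 + 0 * 0) := form_UU hG _ _ _ _ _ _ _ _
      rw [this]
      ring
    have hwA : (w : LR n) ∈ A := tails_UU hG hq hT ⟨_, _, _, _, rfl⟩ (by rw [hwf]; exact hv)
    have hwZ := hI.level (lat hG one_ne_zero) one_ne_zero (v := v) hcon (fun h => by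
      obtain ⟨t, z, hz, h'⟩ := ratDir_multiple hG hdet one_ne_zero h
      exact hirr t z hz h') w hwf
    exact hwZ hwA
  · -- divisibility one
    obtain ⟨γ, hγ, hP, a, b, hγz⟩ := eichler (hyp_int (gram_int (G := G))) hB1 heven1 Γ
      (fun u hu => hΓ _ (transv_e1 hG hu)) (fun u hu => hΓ _ (transv_f1 hG hu))
      (fun u hu => hΓ _ (transv_e2 hG hu)) hz hy hzy
    have hlin : (γ : LR n ≃ₗ[ℝ] LR n) (t • z) = t • (γ : LR n ≃ₗ[ℝ] LR n) z :=
      LinearEquiv.map_smul (γ : LR n ≃ₗ[ℝ] LR n) t z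
    have hU : (γ : LR n ≃ₗ[ℝ] LR n) (t • z) ∈ UU n := by
      refine ⟨t * a, t * b, 0, 0, ?_⟩
      rw [hlin]
      have e1 : ((γ : LR n ≃ₗ[ℝ] LR n) z : LR n) = ((a, b, ((0 : ℝ), (0 : ℝ), 0)) : V n) := hγz
      rw [e1]
      refine Prod.ext rfl (Prod.ext rfl (Prod.ext ?_ (Prod.ext ?_ ?_)))
      · show t * 0 = 0
        ring
      · show t * 0 = 0
        ring
      · show t • (0 : ℝ × ℝ × (Fin n → ℝ)) = 0
        exact smul_zero _
    have hnorm : formL G ((γ : LR n ≃ₗ[ℝ] LR n) (t • z)) ((γ : LR n ≃ₗ[ℝ] LR n) (t • z)) =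
        formL G (t • z) (t • z) := hP.1 _ _
    have hmem := tails_UU hG hq hT hU (by rw [hnorm]; exact hv)
    have h : (γ : LR n ≃ₗ[ℝ] LR n)⁻¹ ((γ : LR n ≃ₗ[ℝ] LR n) (t • z)) ∈ A :=
      hinv _ (Γ.inv_mem hγ) _ hmem
    have e : (γ : LR n ≃ₗ[ℝ] LR n)⁻¹ ((γ : LR n ≃ₗ[ℝ] LR n) (t • z)) = t • z :=
      LinearEquiv.symm_apply_apply (γ : LR n ≃ₗ[ℝ] LR n) _
    rw [e] at h
    exact h

end Pool.Agent.LI39
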