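import Pool.Agent.LI39.Synd

/-!
Hyperbolic planes, Eichler transvections, and the toral closure lemma: a closed subset of
`ℝ × ℝ × W` invariant under a lattice of translations and the transvections along both isotropic
vectors of the first plane is everything as soon as it contains one irrational point.
-/

namespace Pool.Agent.LI39

variable {W : Type*} [AddCommGroup W] [Module ℝ W]

/-- A symmetric bilinear real valued form. -/
structure SymBilin (B : W → W → ℝ) : Prop where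
  add_left : ∀ x y z, B (x + y) z = B x z + B y z
  smul_left : ∀ (t : ℝ) x y, B (t • x) y = t * B x y
  symm : ∀ x y, B x y = B y x

namespace SymBilin

variable {B : W → W → ℝ} (hB : SymBilin B)
include hB

lemma add_right (x y z : W) : B x (y + z) = B x y + B x z := by
  rw [hB.symm x, hB.add_left, hB.symm y, hB.symm z]

lemma smul_right (t : ℝ) (x y : W) : B x (t • y) = t * B x y := by
  rw [hB.symm x, hB.smul_left, hB.symm y]

lemma neg_left (x y : W) : B (-x) y = -B x y := by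
  have := hB.smul_left (-1) x y
  rw [neg_one_smul] at this
  rw [this]
  ring

lemma neg_right (x y : W) : B x (-y) = -B x y := by
  rw [hB.symm x, hB.neg_left, hB.symm y]

lemma sub_left (x y z : W) : B (x - y) z = B x z - B y z := by
  rw [sub_eq_add_neg, hB.add_left, hB.neg_left]
  ring

lemma sub_right (x y z : W) : B x (y - z) = B x y - B x z := by
  rw [hB.symm x, hB.sub_left, hB.symm y, hB.symm z]

lemma zero_left (x : W) : B 0 x = 0 := by
  have := hB.smul_left 0 x x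
  rw [zero_smul, zero_mul] at this
  exact this

lemma zero_right (x : W) : B x 0 = 0 := by
  rw [hB.symm x, hB.zero_left]

end SymBilin

/-- The orthogonal sum of a hyperbolic plane and `(W, B)`. -/
def hyp (B : W → W → ℝ) (v w : ℝ × ℝ × W) : ℝ := v.1 * w.2.1 + v.2.1 * w.1 + B v.2.2 w.2.2

lemma SymBilin.hyp {B : W → W → ℝ} (hB : SymBilin B) : SymBilin (hyp B) where
  add_left x y z := by
    simp only [Pool.Agent.LI39.hyp, Prod.fst_add, Prod.snd_add, hB.add_left]
    ring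
  smul_left t x y := by
    simp only [Pool.Agent.LI39.hyp, Prod.smul_fst, Prod.smul_snd, smul_eq_mul, hB.smul_left]
    ring
  symm x y := by
    simp only [Pool.Agent.LI39.hyp, hB.symm x.2.2]
    ring

/-- The Eichler transvection along the first isotropic vector. -/
noncomputable def ev (B : W → W → ℝ) (u : W) (v : ℝ × ℝ × W) : ℝ × ℝ × W :=
  (v.1, v.2.1 + B v.2.2 u - B u u / 2 * v.1, v.2.2 - v.1 • u)

/-- The Eichler transvection along the second isotropic vector. -/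
noncomputable def fv (B : W → W → ℝ) (u : W) (v : ℝ × ℝ × W) : ℝ × ℝ × W :=
  (v.1 + B v.2.2 u - B u u / 2 * v.2.1, v.2.1, v.2.2 - v.2.1 • u)

/-- Interchange of the two isotropic vectors. -/
def sw (v : ℝ × ℝ × W) : ℝ × ℝ × W := (v.2.1, v.1, v.2.2)

variable [TopologicalSpace W] [ContinuousAdd W] [ContinuousSMul ℝ W]

/-- Closed sets invariant under translations of level `d` and both families of transvections. -/
structure Tor (B : W → W → ℝ) (Λ : AddSubgroup W) (d : ℤ) (Z : Set (ℝ × ℝ × W)) : Prop where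
  closed : IsClosed Z
  trans : ∀ z ∈ Z, ∀ i j : ℤ, ∀ u ∈ Λ, (z.1 + d * i, z.2.1 + d * j, z.2.2 + u) ∈ Z
  e : ∀ z ∈ Z, ∀ u ∈ Λ, ev B u z ∈ Z
  f : ∀ z ∈ Z, ∀ u ∈ Λ, fv B u z ∈ Z

/-- The lattice `Λ` in `W`, with an isotropic pair. -/
structure Lat (B : W → W → ℝ) (Λ : AddSubgroup W) : Prop where
  bil : SymBilin B
  cont : Continuous fun w : W => B w w
  int : ∀ u ∈ Λ, ∃ m : ℤ, B u u = m
  span : Submodule.span ℝ (Λ : Set W) = ⊤
  pair : ∃ u0 ∈ Λ, ∃ w0 ∈ Λ, ∃ h : ℤ, h ≠ 0 ∧ B u0 u0 = 0 ∧ B w0 w0 = 0 ∧ B u0 w0 = h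

variable {B : W → W → ℝ} {Λ : AddSubgroup W} {d : ℤ} {Z : Set (ℝ × ℝ × W)}

omit [ContinuousAdd W] [ContinuousSMul ℝ W] in
lemma Tor.swap (h : Tor B Λ d Z) : Tor B Λ d (sw ⁻¹' Z) where
  closed := by
    refine h.closed.preimage ?_
    unfold sw
    fun_prop
  trans z hz i j u hu := by
    exact h.trans (sw z) hz j i u hu
  e z hz u hu := h.f (sw z) hz u hu
  f z hz u hu := h.e (sw z) hz u hu

omit [TopologicalSpace W] [ContinuousAdd W] [ContinuousSMul ℝ W] in
lemma int_smul_mem (u : W) (h : u ∈ Λ) (n : ℤ) : ((n : ℝ) • u) ∈ Λ := by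
  have : ((n : ℝ) • u) = n • u := by
    rw [← Int.cast_smul_eq_zsmul ℝ]
  rw [this]
  exact Λ.zsmul_mem h n

/-- Moving the second coordinate over a point with irrational first coordinate. -/
lemma Tor.move_r (hL : Lat B Λ) (hZ : Tor B Λ d Z) (hd : d ≠ 0) {p r : ℝ} {y : W}
    (hz : (p, r, y) ∈ Z) (hp : Irrational p) (s : ℝ) : (p, r + s, y) ∈ Z := by
  obtain ⟨u0, hu0, w0, hw0, h, hh, h00, h11, h01⟩ := hL.pair
  have hB := hL.bil
  have hcl : IsClosed {x : ℝ × ℝ × ℝ | (p, r + s + x.1, y + x.2.1 • u0 + x.2.2 • w0) ∈ Z} :=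
    hZ.closed.preimage (by fun_prop)
  suffices hc : ((0, 0, 0) : ℝ × ℝ × ℝ) ∈
      closure {x : ℝ × ℝ × ℝ | (p, r + s + x.1, y + x.2.1 • u0 + x.2.2 • w0) ∈ Z} by
    rw [hcl.closure_eq] at hc
    simpa using hc
  rw [Metric.mem_closure_iff]
  intro ε hε
  have hd1 : (1 : ℝ) ≤ |(d : ℝ)| := by
    rw [← Int.cast_abs]
    exact_mod_cast Int.one_le_abs hd
  have hd0 : (0 : ℝ) < |(d : ℝ)| := by linarith
  have hh0 : (0 : ℝ) < |(h : ℝ)| := by
    rw [abs_pos]
    exact_mod_cast hh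
  set ε1 : ℝ := ε / (3 * |(d : ℝ)|) with hε1def
  have hε1 : 0 < ε1 := by positivity
  have hdε : |(d : ℝ)| * ε1 = ε / 3 := by
    rw [hε1def]
    field_simp
  obtain ⟨G, hG, hsyn⟩ := syndetic p (B y u0) ε1 hε1
  set η : ℝ := min ε1 (ε / (3 * (|(d : ℝ)| * |(d : ℝ)| * |(h : ℝ)| * (G + 1)))) with hηdef
  have hη : 0 < η := by
    rw [hηdef]
    apply lt_min hε1
    positivity
  obtain ⟨m, a', b', hδ0, hδ, hb'⟩ := small_multiple p (B y w0) η hp hη
  set δ : ℝ := (m : ℝ) * p - a' with hδdef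
  have hη1 : η ≤ ε1 := min_le_left _ _
  have hη2 : (|(d : ℝ)| * |(d : ℝ)| * |(h : ℝ)| * (G + 1)) * η ≤ ε / 3 := by
    have h1 : η ≤ ε / (3 * (|(d : ℝ)| * |(d : ℝ)| * |(h : ℝ)| * (G + 1))) := min_le_right _ _
    have h2 : 0 < |(d : ℝ)| * |(d : ℝ)| * |(h : ℝ)| * (G + 1) := by positivity
    rw [le_div_iff₀ (by positivity)] at h1
    linarith
  -- the target multiple
  set D : ℝ := (d : ℝ) * d * h * δ with hDdef
  have hDabs : |D| = |(d : ℝ)| * |(d : ℝ)| * |(h : ℝ)| * |δ| := by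
    rw [hDdef, abs_mul, abs_mul, abs_mul]
  have hD0 : D ≠ 0 := by
    rw [← abs_pos, hDabs]
    have : 0 < |δ| := abs_pos.mpr hδ0
    positivity
  obtain ⟨n, a, b, hn, ha, hb⟩ := hsyn (round (-s / D))
  have hround : |-s / D - (round (-s / D) : ℤ)| ≤ 1 / 2 := abs_sub_round _
  have hmain : |-(D * n) - s| ≤ ε / 3 := by
    have e1 : -(D * n) - s = D * ((-s / D - (round (-s / D) : ℤ)) +
        (((round (-s / D) : ℤ) : ℝ) - n)) := by
      field_simp
      ring
    rw [e1, abs_mul]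
    have h3 : |(-s / D - (round (-s / D) : ℤ)) + (((round (-s / D) : ℤ) : ℝ) - n)| ≤ G + 1 := by
      refine (abs_add_le _ _).trans ?_
      linarith
    calc |D| * |(-s / D - (round (-s / D) : ℤ)) + (((round (-s / D) : ℤ) : ℝ) - n)|
        ≤ |D| * (G + 1) := by
          apply mul_le_mul_of_nonneg_left h3 (abs_nonneg _)
      _ ≤ (|(d : ℝ)| * |(d : ℝ)| * |(h : ℝ)| * (G + 1)) * η := by
          rw [hDabs]
          have : |δ| ≤ η := hδ.le
          have h5 : 0 ≤ |(d : ℝ)| * |(d : ℝ)| * |(h : ℝ)| * (G + 1) := by positivity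
          nlinarith
      _ ≤ ε / 3 := hη2
  -- the element
  have hU : ((d * n : ℤ) : ℝ) • u0 + ((d * m : ℤ) : ℝ) • w0 ∈ Λ :=
    Λ.add_mem (int_smul_mem u0 hu0 _)
      (int_smul_mem w0 hw0 _)
  have hz1 := hZ.e _ hz _ hU
  have hz2 := hZ.trans _ hz1 0 (-b - b' + d * n * h * a')
    (((d * a : ℤ) : ℝ) • u0 + ((d * a' : ℤ) : ℝ) • w0)
    (Λ.add_mem (int_smul_mem u0 hu0 _)
      (int_smul_mem w0 hw0 _))
  have h10 : B w0 u0 = h := by rw [hB.symm, h01]
  refine ⟨(d * ((n : ℝ) * B y u0 - b) + d * ((m : ℝ) * B y w0 - b') + (-(D * n) - s),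
    -(d * ((n : ℝ) * p - a)), -(d * δ)), ?_, ?_⟩
  · show (p, r + s + (d * ((n : ℝ) * B y u0 - b) + d * ((m : ℝ) * B y w0 - b') +
      (-(D * n) - s)), y + (-(d * ((n : ℝ) * p - a))) • u0 + (-(d * δ)) • w0) ∈ Z
    convert hz2 using 1
    simp only [ev]
    refine Prod.ext ?_ (Prod.ext ?_ ?_)
    · simp
    · simp only [hB.add_left, hB.add_right, hB.smul_left, hB.smul_right, h00, h11, h01, h10]
      rw [hDdef, hδdef]
      push_cast
      ring
    · simp only [hδdef]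
      push_cast
      module
  · have hsmall1 : |(d : ℝ) * ((n : ℝ) * B y u0 - b)| < ε / 3 := by
      rw [abs_mul, ← hdε]
      exact mul_lt_mul_of_pos_left hb hd0
    have hsmall2 : |(d : ℝ) * ((m : ℝ) * B y w0 - b')| < ε / 3 := by
      rw [abs_mul, ← hdε]
      exact mul_lt_mul_of_pos_left (lt_of_lt_of_le hb' hη1) hd0
    have hsmall3 : |(d : ℝ) * ((n : ℝ) * p - a)| < ε / 3 := by
      rw [abs_mul, ← hdε]
      exact mul_lt_mul_of_pos_left ha hd0
    have hsmall4 : |(d : ℝ) * δ| < ε / 3 := by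
      rw [abs_mul, ← hdε]
      exact mul_lt_mul_of_pos_left (lt_of_lt_of_le hδ hη1) hd0
    rw [Prod.dist_eq, Prod.dist_eq]
    simp only [Real.dist_eq, zero_sub, abs_neg, neg_neg]
    refine max_lt ?_ (max_lt (by linarith) (by linarith))
    refine lt_of_le_of_lt ((abs_add_le _ _).trans (add_le_add_left (abs_add_le _ _) _)) ?_
    linarith

/-- Moving the third coordinate over a point with irrational first coordinate, lattice directions. -/
lemma Tor.move_y (hL : Lat B Λ) (hZ : Tor B Λ d Z) (hd : d ≠ 0) {p r : ℝ} {y : W}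
    (hz : (p, r, y) ∈ Z) (hp : Irrational p) {u : W} (hu : u ∈ Λ) (t : ℝ) :
    (p, r, y + t • u) ∈ Z := by
  have hcl : IsClosed {x : ℝ | (p, r, y + x • u) ∈ Z} := hZ.closed.preimage (by fun_prop)
  suffices hc : t ∈ closure {x : ℝ | (p, r, y + x • u) ∈ Z} by
    rw [hcl.closure_eq] at hc
    exact hc
  rw [Metric.mem_closure_iff]
  intro ε hε
  obtain ⟨m, a, b, hδ0, hδ, -⟩ := small_multiple p 0 ε hp hε
  set δ : ℝ := (m : ℝ) * p - a with hδdef
  set X : ℤ := round (-t / δ) with hX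
  have hround : |-t / δ - (X : ℝ)| ≤ 1 / 2 := abs_sub_round _
  have h1 := hZ.e _ hz _ (int_smul_mem u hu (X * m))
  have h2 := hZ.trans _ h1 0 0 _ (int_smul_mem u hu (X * a))
  have h3 : (p, r + (B y (((X * m : ℤ) : ℝ) • u) -
      B (((X * m : ℤ) : ℝ) • u) (((X * m : ℤ) : ℝ) • u) / 2 * p), y + (-(X * δ)) • u) ∈ Z := by
    convert h2 using 1
    simp only [ev]
    refine Prod.ext ?_ (Prod.ext ?_ ?_)
    · simp
    · simp only [Int.cast_zero, mul_zero, add_zero]
      ring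
    · simp only [hδdef]
      push_cast
      module
  have h4 := hZ.move_r hL hd h3 hp (-(B y (((X * m : ℤ) : ℝ) • u) -
      B (((X * m : ℤ) : ℝ) • u) (((X * m : ℤ) : ℝ) • u) / 2 * p))
  rw [add_neg_cancel_right] at h4
  refine ⟨-(X * δ), h4, ?_⟩
  rw [Real.dist_eq]
  have e1 : t - -(X * δ) = -(δ * (-t / δ - (X : ℝ))) := by
    field_simp
    ring
  rw [e1, abs_neg, abs_mul]
  have : |δ| * |-t / δ - (X : ℝ)| ≤ |δ| * (1 / 2) :=
    mul_le_mul_of_nonneg_left hround (abs_nonneg _)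
  have h5 : 0 ≤ |δ| := abs_nonneg _
  linarith

/-- Everything over a point with irrational first coordinate. -/
lemma Tor.fibre (hL : Lat B Λ) (hZ : Tor B Λ d Z) (hd : d ≠ 0) {p r : ℝ} {y : W}
    (hz : (p, r, y) ∈ Z) (hp : Irrational p) (r' : ℝ) (y' : W) : (p, r', y') ∈ Z := by
  have key : ∀ w : W, w ∈ Submodule.span ℝ (Λ : Set W) → ∀ t : ℝ, ∀ y1 : W, (p, r, y1) ∈ Z →
      (p, r, y1 + t • w) ∈ Z := by
    intro w hw
    induction hw using Submodule.span_induction with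
    | mem x hx =>
      intro t y1 h1
      exact hZ.move_y hL hd h1 hp hx t
    | zero =>
      intro t y1 h1
      simpa using h1
    | add x1 x2 _ _ ih1 ih2 =>
      intro t y1 h1
      have h2 := ih2 t _ (ih1 t _ h1)
      rwa [add_assoc, ← smul_add] at h2
    | smul c x _ ih =>
      intro t y1 h1
      have h2 := ih (t * c) _ h1
      rwa [mul_smul] at h2
  have h1 := key (y' - y) (by rw [hL.span]; trivial) 1 y hz
  rw [one_smul, add_sub_cancel] at h1
  have h2 := hZ.move_r hL hd h1 hp (r' - r)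
  rwa [add_sub_cancel] at h2

lemma Tor.univ_of_fst (hL : Lat B Λ) (hZ : Tor B Λ d Z) (hd : d ≠ 0) {p r : ℝ} {y : W}
    (hz : (p, r, y) ∈ Z) (hp : Irrational p) (x : ℝ × ℝ × W) : x ∈ Z := by
  obtain ⟨p', r', y'⟩ := x
  have hcl : IsClosed {q : ℝ | (p', q, y') ∈ Z} := hZ.closed.preimage (by fun_prop)
  have hall : ∀ q : ℝ, Irrational q → (p', q, y') ∈ Z := by
    intro q hq
    have h1 : (p, q, y') ∈ Z := hZ.fibre hL hd hz hp q y'
    exact hZ.swap.fibre hL hd (p := q) (r := p) (y := y') h1 hq p' y'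
  have hdense : Dense {q : ℝ | (p', q, y') ∈ Z} := dense_irrational.mono hall
  have := hcl.closure_eq ▸ hdense r'
  exact this

/-- The irrationality condition on a point of `ℝ × ℝ × W`. -/
def Irr (B : W → W → ℝ) (Λ : AddSubgroup W) (x : ℝ × ℝ × W) : Prop :=
  Irrational x.1 ∨ Irrational x.2.1 ∨ ∃ u ∈ Λ, Irrational (B x.2.2 u)

/-- The toral closure lemma. -/
lemma Tor.univ (hL : Lat B Λ) (hZ : Tor B Λ d Z) (hd : d ≠ 0) {x : ℝ × ℝ × W}
    (hx : x ∈ Z) (hi : Irr B Λ x) (x' : ℝ × ℝ × W) : x' ∈ Z := by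
  by_cases h1 : Irrational x.1
  · exact hZ.univ_of_fst hL hd (p := x.1) (r := x.2.1) (y := x.2.2) hx h1 x'
  by_cases h2 : Irrational x.2.1
  · exact hZ.swap.univ_of_fst hL hd (p := x.2.1) (r := x.1) (y := x.2.2) hx h2 (sw x')
  obtain ⟨u, hu, h3⟩ := (hi.resolve_left h1).resolve_left h2
  have h4 := hZ.e _ hx u hu
  refine hZ.swap.univ_of_fst hL hd (p := x.2.1 + B x.2.2 u - B u u / 2 * x.1) (r := x.1)
    (y := x.2.2 - x.1 • u) h4 ?_ (sw x')
  unfold Irrational at h1 h2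
  push Not at h1 h2
  obtain ⟨q1, hq1⟩ := h1
  obtain ⟨q2, hq2⟩ := h2
  obtain ⟨m, hm⟩ := hL.int u hu
  rw [hm, ← hq1, ← hq2]
  have e : (q2 : ℝ) + B x.2.2 u - (m : ℝ) / 2 * q1 = B x.2.2 u + ((q2 - m / 2 * q1 : ℚ) : ℝ) := by
    push_cast
    ring
  rw [e]
  exact h3.add_ratCast _

end Pool.Agent.LI39
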